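import Pool.Agent.KS6_68.BF.Struct

/-! The kernel of `θ` in weight zero is generated by the explicit elements. -/

set_option autoImplicit false
set_option maxHeartbeats 400000

open MvPolynomial

namespace Pool.Agent.KS6_68.BF

attribute [-instance] ZMod.instField

variable {p : ℕ} {k : Type} [Field k]

theorem gen_mem (i : Fin 2 ⊕ Fin p × Fin p) : gen p k i ∈ R p k := Algebra.subset_adjoin ⟨i, rfl⟩

theorem mem_gen0 (hp : 0 < p) {i : ℕ} (hi : i ≤ p) :
    (X 1 ^ (p * i) * X 2 ^ (p * (p - i)) : D k) ∈ R p k := by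
  rcases hi.lt_or_eq with h | h
  · have h1 := gen_mem (p := p) (k := k) (Sum.inr (⟨0, hp⟩, ⟨i, h⟩))
    have e : gen p k (Sum.inr (⟨0, hp⟩, ⟨i, h⟩)) = X 1 ^ (p * i) * X 2 ^ (p * (p - i)) := by
      change ww p k 0 * (X 1 ^ (p * i) * X 2 ^ (p * (p - 1 - i))) = _
      rw [ww, pow_zero, one_mul, Nat.sub_zero]
      have e1 : p * (p - i) = p + p * (p - 1 - i) := by
        rw [show p - i = 1 + (p - 1 - i) by omega, Nat.mul_add, Nat.mul_one]
      rw [e1, pow_add]
      ring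
    rw [e] at h1
    exact h1
  · have h1 := gen_mem (p := p) (k := k) (Sum.inl 1)
    have e : gen p k (Sum.inl 1) = X 1 ^ (p * i) * X 2 ^ (p * (p - i)) := by
      change X 1 ^ p ^ 2 = _
      rw [h, Nat.sub_self, Nat.mul_zero, pow_zero, mul_one, pow_two]
    rw [e] at h1
    exact h1

theorem mem_E (hp : 0 < p) (n : ℕ) : ∀ a b c : ℕ, b + c = p * n →
    (X 0 ^ (p * a) * (X 1 ^ (p * b) * X 2 ^ (p * c)) : D k) ∈ R p k := by
  induction n with
  | zero =>
    intro a b c h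
    rw [Nat.mul_zero] at h
    obtain ⟨rfl, rfl⟩ : b = 0 ∧ c = 0 := by omega
    rw [Nat.mul_zero, pow_zero, pow_zero, mul_one, mul_one, pow_mul]
    exact pow_mem (gen_mem (Sum.inl 0)) a
  | succ n ih =>
    intro a b c h
    rw [Nat.mul_add, Nat.mul_one] at h
    obtain ⟨i, hi, hib, hic⟩ : ∃ i, i ≤ p ∧ i ≤ b ∧ p - i ≤ c := ⟨min b p, by omega, by omega,
      by omega⟩
    have h1 := ih a (b - i) (c - (p - i)) (by omega)
    have h2 := mul_mem h1 (mem_gen0 (k := k) hp hi)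
    convert h2 using 1
    have e1 : p * b = p * (b - i) + p * i := by rw [← Nat.mul_add]; congr 1; omega
    have e2 : p * c = p * (c - (p - i)) + p * (p - i) := by rw [← Nat.mul_add]; congr 1; omega
    rw [e1, e2, pow_add, pow_add]
    ring

theorem mem_Eww {j : ℕ} (hj : j < p) (n : ℕ) (a b c : ℕ) (h : b + c = p * n + (p - 1)) :
    (X 0 ^ (p * a) * (X 1 ^ (p * b) * X 2 ^ (p * c)) * ww p k j : D k) ∈ R p k := by
  have hp : 0 < p := by omega
  obtain ⟨i, hi, hib, hic⟩ : ∃ i, i < p ∧ i ≤ b ∧ p - 1 - i ≤ c := ⟨min b (p - 1), by omega,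
    by omega, by omega⟩
  have h1 := mem_E (k := k) hp n a (b - i) (c - (p - 1 - i)) (by omega)
  have h2 := mul_mem h1 (gen_mem (k := k) (Sum.inr (⟨j, hj⟩, ⟨i, hi⟩)))
  convert h2 using 1
  have e1 : p * b = p * (b - i) + p * i := by rw [← Nat.mul_add]; congr 1; omega
  have e2 : p * c = p * (c - (p - 1 - i)) + p * (p - 1 - i) := by
    rw [← Nat.mul_add]; congr 1; omega
  rw [e1, e2, pow_add, pow_add]
  change _ = _ * (ww p k j * (X 1 ^ (p * i) * X 2 ^ (p * (p - 1 - i))))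
  ring

theorem E_monomial (m : Fin 3 →₀ ℕ) (c : k) : E p k (monomial m c) =
    C c * (X 0 ^ (p * m 0) * (X 1 ^ (p * m 1) * X 2 ^ (p * m 2))) := by
  rw [E, expand_monomial, monomial_three]
  simp only [Finsupp.smul_apply, smul_eq_mul]
  ring

theorem mem_of_class [Fact p.Prime] {b : ZMod p} {B : D k}
    (hB : IsWeightedHomogeneous (Wc p) B (cl p b)) : E p k B * Wd p k b ∈ R p k := by
  have hp : p.Prime := Fact.out
  rw [B.as_sum, map_sum, Finset.sum_mul]
  refine sum_mem fun m hm => ?_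
  rw [E_monomial, mul_assoc]
  refine mul_mem ((R p k).algebraMap_mem _) ?_
  have h1 := hB (mem_support_iff.1 hm)
  rw [weight_three] at h1
  have h2 : ((m 1 + m 2 : ℕ) : ZMod p) = cl p b := by
    rw [← h1]; simp [Wc]
  by_cases hb : b = 0
  · rw [cl, if_pos hb, ZMod.natCast_eq_zero_iff] at h2
    obtain ⟨n, hn⟩ := h2
    rw [Wd, if_pos hb, mul_one]
    exact mem_E hp.pos n _ _ _ hn
  · rw [cl, if_neg hb] at h2
    have h3 : ((m 1 + m 2 + 1 : ℕ) : ZMod p) = 0 := by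
      rw [Nat.cast_add, h2]; simp
    rw [ZMod.natCast_eq_zero_iff] at h3
    obtain ⟨n, hn⟩ := h3
    rw [Wd, if_neg hb]
    have hn0 : n ≠ 0 := by
      rintro rfl
      omega
    obtain ⟨n, rfl⟩ := Nat.exists_eq_succ_of_ne_zero hn0
    refine mem_Eww (ZMod.val_lt b) n _ _ _ ?_
    rw [Nat.mul_succ] at hn
    have := hp.pos
    omega

theorem R_eq_RK [Fact p.Prime] [CharP k p] : R p k = RK p k := by
  have hp : p.Prime := Fact.out
  apply le_antisymm (R_le_RK hp.pos)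
  intro z hz
  rw [← sum_cmp (w := Wb p) z]
  refine sum_mem fun b _ => ?_
  obtain ⟨B, hB, h⟩ := struct hz b
  rw [h]
  exact mem_of_class hB

theorem mem_R [Fact p.Prime] [CharP k p] {z : D k} :
    z ∈ R p k ↔ IsWeightedHomogeneous (W1 p) z 0 ∧ th p k z = 0 := by
  rw [R_eq_RK]
  exact mem_RK

/-- `D ∩ Frac R = R` -/
theorem R_div [Fact p.Prime] [CharP k p] {z s : D k} (hs : s ∈ R p k) (hs0 : s ≠ 0)
    (h : s * z ∈ R p k) : z ∈ R p k := by
  rw [R_eq_RK] at *
  exact RK_div hs hs0 h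

end Pool.Agent.KS6_68.BF
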