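import Pool.Agent.KS6_68.BF.GStmts

/-!
Colon ideals of powers of sequences (the library module `H174R3.FR.Colon`, for arbitrary
exponents).
-/

set_option autoImplicit false

namespace Pool.Agent.KS6_68.BF.Colon

theorem step {A : Type} [CommRing A] (n : ℕ) (x : Fin n → A) (q : ℕ) (hq : 1 ≤ q)
    (hH : ∀ e : Fin n → ℕ, (∀ l, 1 ≤ e l) → H1van A (fun l => x l ^ e l))
    (S : Finset (Fin n)) : ∀ z : A,
      z * ∏ l ∈ S, x l ^ q ∈ Ideal.span (Set.range fun l => x l ^ (if l ∈ S then q + 1 else 1)) →
      z ∈ Ideal.span (Set.range x) := by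
  classical
  induction S using Finset.induction_on with
  | empty =>
    intro z hz
    simpa using hz
  | insert l S hl ih =>
    intro z hz
    apply ih
    set ζ : A := z * ∏ m ∈ S, x m ^ q with hζ
    rw [Finset.prod_insert hl] at hz
    have hz' : x l ^ q * ζ ∈
        Ideal.span (Set.range fun m => x m ^ (if m ∈ insert l S then q + 1 else 1)) := by
      have : x l ^ q * ζ = z * (x l ^ q * ∏ m ∈ S, x m ^ q) := by rw [hζ]; ring
      rw [this]
      exact hz
    obtain ⟨c, hc⟩ := Ideal.mem_span_range_iff_exists_fun.1 hz'
    -- the exponents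
    set e : Fin n → ℕ := fun m => if m = l then q else if m ∈ S then q + 1 else 1 with he
    have he1 : ∀ m, 1 ≤ e m := by
      intro m
      simp only [he]
      split_ifs <;> omega
    have hel : e l = q := by simp [he]
    have hem : ∀ m, m ≠ l → (if m ∈ insert l S then q + 1 else 1) = e m := by
      intro m hm
      simp [he, Finset.mem_insert, hm]
    have hsum : ∑ m, (x m ^ e m) • (Function.update (-c) l (ζ - x l * c l)) m = 0 := by
      rw [← Finset.add_sum_erase _ _ (Finset.mem_univ l)]
      have h3 : ∑ m ∈ Finset.univ.erase l,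
          (x m ^ e m) • (Function.update (-c) l (ζ - x l * c l)) m =
          - ∑ m ∈ Finset.univ.erase l, c m * x m ^ (if m ∈ insert l S then q + 1 else 1) := by
        rw [← Finset.sum_neg_distrib]
        refine Finset.sum_congr rfl fun m hm => ?_
        have hml : m ≠ l := Finset.ne_of_mem_erase hm
        rw [Function.update_of_ne hml, hem m hml, smul_eq_mul, mul_comm, Pi.neg_apply, neg_mul]
      have h4 : ∑ m ∈ Finset.univ.erase l, c m * x m ^ (if m ∈ insert l S then q + 1 else 1) =
          x l ^ q * ζ - c l * x l ^ (q + 1) := by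
        rw [← hc, ← Finset.add_sum_erase _ _ (Finset.mem_univ l)]
        simp
      rw [h3, h4, Function.update_self, hel, smul_eq_mul]
      ring
    obtain ⟨t, ht1, _, ht3⟩ := hH e he1 _ hsum
    have h6 := ht3 l
    rw [Function.update_self] at h6
    have h7 : ζ = x l * c l + ∑ m, (x m ^ e m) • t l m := by
      rw [← h6]; ring
    rw [h7]
    refine Ideal.add_mem _ ?_ ?_
    · apply Ideal.mul_mem_right
      apply Ideal.subset_span
      refine ⟨l, ?_⟩
      simp [hl]
    · apply Ideal.sum_mem
      intro m _
      by_cases hml : m = l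
      · rw [hml, ht1, smul_zero]
        exact zero_mem _
      · rw [smul_eq_mul]
        apply Ideal.mul_mem_right
        apply Ideal.subset_span
        refine ⟨m, ?_⟩
        rw [← hem m hml]
        simp [Finset.mem_insert, hml]

theorem colon : S_Colon := by
  intro A _ n x hH q z hz
  rcases Nat.eq_zero_or_pos q with rfl | hq
  · simpa using hz
  · apply step n x q hq hH Finset.univ z
    simpa using hz

end Pool.Agent.KS6_68.BF.Colon
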