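import Pool.Agent.KS6_68.BF.VanC

set_option autoImplicit false
set_option linter.unusedSectionVars false

/-!
# Vanishing of the first Koszul homology (the library module `H503R3.FR.KV_helper557`,
with signs)
-/

namespace Pool.Agent.KS6_68.BF.KV

open Pool.Agent.KS6_68.BF.VanCx (ct ct_insert_self ct_erase_self ct_swap neg_one_pow_sq)

open Finset
open scoped Pointwise

section

variable {A : Type} [CommRing A] {n : ℕ}

section

variable {M : Type} [AddCommGroup M] [Module A M]

/-- signs -/
def sg (A : Type) [CommRing A] (m : Fin n) (S : Finset (Fin n)) : A := (-1) ^ ct m S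

theorem sg_sq (m : Fin n) (S : Finset (Fin n)) : sg A m S * sg A m S = 1 := neg_one_pow_sq A _

/-- the Koszul differential -/
def dd (x : Fin n → A) (t : Finset (Fin n) → M) (S : Finset (Fin n)) : M :=
  ∑ m ∈ Sᶜ, (sg A m S * x m) • t (insert m S)

/-- supported on the sets of size `i` -/
def Supp (i : ℕ) (t : Finset (Fin n) → M) : Prop := ∀ S, S.card ≠ i → t S = 0

theorem Supp.add {i : ℕ} {t u : Finset (Fin n) → M} (h : Supp i t) (h' : Supp i u) :
    Supp i (t + u) := fun S hS => by rw [Pi.add_apply, h S hS, h' S hS, add_zero]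

theorem Supp.sub {i : ℕ} {t u : Finset (Fin n) → M} (h : Supp i t) (h' : Supp i u) :
    Supp i (t - u) := fun S hS => by rw [Pi.sub_apply, h S hS, h' S hS, sub_zero]

theorem Supp.smul {i : ℕ} {t : Finset (Fin n) → M} (a : A) (h : Supp i t) :
    Supp i (a • t) := fun S hS => by rw [Pi.smul_apply, h S hS, smul_zero]

theorem dd_add (x : Fin n → A) (t u : Finset (Fin n) → M) : dd x (t + u) = dd x t + dd x u := by
  funext S
  simp only [dd, Pi.add_apply, smul_add, Finset.sum_add_distrib]

theorem dd_sub (x : Fin n → A) (t u : Finset (Fin n) → M) : dd x (t - u) = dd x t - dd x u := by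
  funext S
  simp only [dd, Pi.sub_apply, smul_sub, Finset.sum_sub_distrib]

theorem dd_smul (x : Fin n → A) (a : A) (t : Finset (Fin n) → M) :
    dd x (a • t) = a • dd x t := by
  funext S
  simp only [dd, Pi.smul_apply, Finset.smul_sum]
  apply Finset.sum_congr rfl
  intro m _
  rw [smul_comm]

theorem dd_supp (x : Fin n → A) {i : ℕ} {u : Finset (Fin n) → M} (h : Supp (i + 1) u) :
    Supp i (dd x u) := by
  intro S hS
  unfold dd
  apply Finset.sum_eq_zero
  intro m hm
  rw [Finset.mem_compl] at hm
  rw [h _ (by rw [Finset.card_insert_of_notMem hm]; omega), smul_zero]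

theorem sg_swap {a b : Fin n} {S : Finset (Fin n)} (ha : a ∉ S) (hb : b ∉ S) (h : a ≠ b) :
    sg A a S * sg A b (insert a S) = - (sg A b S * sg A a (insert b S)) := by
  have h1 := ct_swap (l := a) (m := b) (S := insert a (insert b S)) (by simp) (by simp) h A
  have e1 : (insert a (insert b S)).erase a = insert b S :=
    Finset.erase_insert (by simp [ha, h])
  have e2 : (insert a (insert b S)).erase b = insert a S := by
    rw [Finset.insert_comm]
    exact Finset.erase_insert (by simp [hb, Ne.symm h])
  rw [e1, e2, ct_insert_self, ct_insert_self, ct_insert_self] at h1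
  rw [Finset.insert_comm, ct_insert_self] at h1
  unfold sg
  linear_combination h1

theorem dd_dd (x : Fin n → A) (t : Finset (Fin n) → M) :
    dd x (dd x t) = 0 := by
  funext S
  simp only [dd, Pi.zero_apply, Finset.smul_sum]
  rw [Finset.sum_sigma']
  refine Finset.sum_involution (fun p _ => (⟨p.2, p.1⟩ : (_ : Fin n) × Fin n)) ?_ ?_ ?_ ?_
  · rintro ⟨a, b⟩ h
    simp only
    simp only [Finset.mem_sigma, Finset.mem_compl, Finset.mem_insert, not_or] at h
    rw [Finset.insert_comm b a S, smul_smul, smul_smul, ← add_smul]
    have h1 := sg_swap (A := A) h.1 h.2.2 (fun e => h.2.1 e.symm)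
    have h2 : sg A a S * x a * (sg A b (insert a S) * x b) +
        sg A b S * x b * (sg A a (insert b S) * x a) = 0 := by
      linear_combination (x a * x b) * h1
    rw [h2, zero_smul]
  · rintro ⟨a, b⟩ h _ he
    simp only [Finset.mem_sigma, Finset.mem_compl, Finset.mem_insert, not_or] at h
    have : b = a := congrArg Sigma.fst he
    exact h.2.1 this
  · rintro ⟨a, b⟩ h
    simp only [Finset.mem_sigma, Finset.mem_compl, Finset.mem_insert, not_or] at h ⊢
    exact ⟨h.2.2, fun e => h.2.1 e.symm, h.1⟩
  · rintro ⟨a, b⟩ h
    rfl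

variable (A) in
/-- the homotopy -/
def ee (l : Fin n) (t : Finset (Fin n) → M) (S : Finset (Fin n)) : M :=
  if l ∈ S then sg A l S • t (S.erase l) else 0

theorem ee_supp (l : Fin n) {i : ℕ} {t : Finset (Fin n) → M} (h : Supp i t) :
    Supp (i + 1) (ee A l t) := by
  intro S hS
  unfold ee
  split_ifs with hl
  · rw [h, smul_zero]
    rw [Finset.card_erase_of_mem hl]
    have : 0 < S.card := Finset.card_pos.2 ⟨l, hl⟩
    omega
  · rfl

theorem homotopy (x : Fin n → A) (l : Fin n)
    (t : Finset (Fin n) → M) : dd x (ee A l t) + ee A l (dd x t) = x l • t := by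
  funext S
  simp only [Pi.add_apply, Pi.smul_apply]
  by_cases hl : l ∈ S
  · have e1 : ee A l (dd x t) S = sg A l S • dd x t (S.erase l) := by unfold ee; rw [if_pos hl]
    have e2 : dd x (ee A l t) S =
        - ∑ m ∈ Sᶜ, (sg A l S * (sg A m (S.erase l) * x m)) • t (insert m (S.erase l)) := by
      unfold dd
      rw [← Finset.sum_neg_distrib]
      apply Finset.sum_congr rfl
      intro m hm
      rw [Finset.mem_compl] at hm
      have hml : m ≠ l := fun e => hm (e ▸ hl)
      unfold ee
      rw [if_pos (Finset.mem_insert_of_mem hl), Finset.erase_insert_of_ne hml, smul_smul,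
        ← neg_smul]
      congr 1
      have hm' : m ∉ S.erase l := fun h => hm (Finset.mem_of_mem_erase h)
      have hl' : l ∉ S.erase l := Finset.notMem_erase l S
      have h1 := sg_swap (A := A) hl' hm' (Ne.symm hml)
      rw [Finset.insert_erase hl] at h1
      have e3 : sg A l (S.erase l) = sg A l S := by unfold sg; rw [ct_erase_self]
      have e4 : sg A l (insert m (S.erase l)) = sg A l (insert m S) := by
        unfold sg
        rw [← Finset.erase_insert_of_ne hml, ct_erase_self]
      rw [e3, e4] at h1
      have h3 := sg_sq (A := A) m S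
      have h4 := sg_sq (A := A) m (S.erase l)
      -- a b = - (c d), b^2 = 1, c^2 = 1 → b d = - a c
      linear_combination (x m * sg A m (S.erase l) * sg A m S) * h1 -
        (x m * sg A m (S.erase l) * sg A l S) * h3 - (x m * sg A m S * sg A l (insert m S)) * h4
    have e3 : (S.erase l)ᶜ = insert l Sᶜ := by
      ext m
      simp only [Finset.mem_compl, Finset.mem_erase, Finset.mem_insert]
      tauto
    have e4 : sg A l S • dd x t (S.erase l) = x l • t S +
        ∑ m ∈ Sᶜ, (sg A l S * (sg A m (S.erase l) * x m)) • t (insert m (S.erase l)) := by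
      unfold dd
      rw [e3, Finset.sum_insert (by simp [hl]), Finset.insert_erase hl, smul_add, smul_smul,
        Finset.smul_sum]
      congr 1
      · congr 1
        have e3 : sg A l (S.erase l) = sg A l S := by unfold sg; rw [ct_erase_self]
        rw [e3, ← mul_assoc, sg_sq, one_mul]
      · exact Finset.sum_congr rfl fun m _ => smul_smul _ _ _
    rw [e1, e2, e4]
    abel
  · have e1 : ee A l (dd x t) S = 0 := by unfold ee; rw [if_neg hl]
    rw [e1, add_zero]
    unfold dd
    rw [Finset.sum_eq_single l]
    · unfold ee
      rw [if_pos (Finset.mem_insert_self _ _), Finset.erase_insert hl, smul_smul]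
      have e3 : sg A l (insert l S) = sg A l S := by unfold sg; rw [ct_insert_self]
      rw [e3]
      congr 1
      linear_combination (x l) * sg_sq (A := A) l S
    · intro m hm hml
      unfold ee
      rw [if_neg, smul_zero]
      simp only [Finset.mem_insert, not_or]
      exact ⟨fun e => hml e.symm, hl⟩
    · intro h
      exact absurd (Finset.mem_compl.2 hl) h

theorem smul_boundary (x : Fin n → A) {i : ℕ}
    {t : Finset (Fin n) → M} (ht : Supp i t) (hdt : dd x t = 0) (a : A)
    (ha : a ∈ Ideal.span (Set.range x)) : ∃ u, Supp (i + 1) u ∧ dd x u = a • t := by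
  induction ha using Submodule.span_induction with
  | mem y hy =>
    obtain ⟨l, rfl⟩ := hy
    refine ⟨ee A l t, ee_supp l ht, ?_⟩
    have := homotopy x l t
    rw [hdt] at this
    have e : ee A l (0 : Finset (Fin n) → M) = 0 := by funext S; simp [ee]
    rw [e, add_zero] at this
    exact this
  | zero =>
    refine ⟨0, fun _ _ => rfl, ?_⟩
    rw [zero_smul]
    funext S
    simp [dd]
  | add y z _ _ hy hz =>
    obtain ⟨u, hu, hu'⟩ := hy
    obtain ⟨v, hv, hv'⟩ := hz
    exact ⟨u + v, hu.add hv, by rw [dd_add, hu', hv', add_smul]⟩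
  | smul b y _ hy =>
    obtain ⟨u, hu, hu'⟩ := hy
    exact ⟨b • u, hu.smul b, by rw [dd_smul, hu', smul_eq_mul, mul_smul]⟩

end

/-- vanishing in degree `i` -/
def Van (M : Type) [AddCommGroup M] [Module A M] (x : Fin n → A) (i : ℕ) : Prop :=
  ∀ t : Finset (Fin n) → M, Supp i t → dd x t = 0 → ∃ u, Supp (i + 1) u ∧ dd x u = t

theorem van_step (M : Type) [AddCommGroup M] [Module A M]
    (x : Fin n → A) (z : A) (hz : z ∈ (Ideal.span (Set.range x)).radical)
    (hreg : IsSMulRegular M z) (i : ℕ) (hV : Van (QuotSMulTop z M) x (i + 1)) : Van M x i := by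
  intro t ht hdt
  obtain ⟨N, hN⟩ := hz
  obtain ⟨u, hu, hu'⟩ := smul_boundary x ht hdt _ hN
  clear hN
  induction N generalizing u with
  | zero =>
    refine ⟨u, hu, ?_⟩
    rw [hu', pow_zero, one_smul]
  | succ N ih =>
    -- the class of `u` modulo `z`
    let π : M →ₗ[A] QuotSMulTop z M := Submodule.mkQ _
    have hπ : Function.Surjective π := Submodule.mkQ_surjective _
    have hker : ∀ m : M, π m = 0 → ∃ w, m = z • w := by
      intro m hm
      have h1 : m ∈ (z • (⊤ : Submodule A M)) := by
        rw [← Submodule.Quotient.mk_eq_zero]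
        exact hm
      rw [Submodule.mem_smul_pointwise_iff_exists] at h1
      obtain ⟨w, -, hw⟩ := h1
      exact ⟨w, hw.symm⟩
    have hzero : ∀ m : M, π (z • m) = 0 := by
      intro m
      have h1 : z • m ∈ (z • (⊤ : Submodule A M)) :=
        Submodule.smul_mem_pointwise_smul _ _ _ Submodule.mem_top
      exact (Submodule.Quotient.mk_eq_zero _).2 h1
    have hdπ : ∀ v : Finset (Fin n) → M, dd x (fun S => π (v S)) = fun S => π (dd x v S) := by
      intro v
      funext S
      simp only [dd, map_sum, map_smul]
    have h1 : dd x (fun S => π (u S)) = 0 := by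
      rw [hdπ, hu']
      funext S
      rw [Pi.smul_apply, pow_succ', mul_smul, hzero]
      rfl
    have h3 : Supp (i + 1) (fun S => π (u S)) := fun S hS => by
      simp only
      rw [hu S hS, map_zero]
    obtain ⟨v', hv', hv''⟩ := hV _ h3 h1
    choose s hs using hπ
    let v : Finset (Fin n) → M := fun S => if S.card = i + 1 + 1 then s (v' S) else 0
    have hv : Supp (i + 1 + 1) v := fun S hS => by simp [v, hS]
    have hπv : (fun S => π (v S)) = v' := by
      funext S
      by_cases hS : S.card = i + 1 + 1
      · simp only [v]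
        rw [if_pos hS, hs]
      · simp only [v]
        rw [if_neg hS, map_zero, hv' S hS]
    have h4 : ∀ S, π ((u - dd x v) S) = 0 := by
      intro S
      rw [Pi.sub_apply, map_sub]
      have h5 : dd x (fun S => π (v S)) S = π (dd x v S) := congrFun (hdπ v) S
      rw [← h5, hπv, hv'', sub_self]
    choose w hw using fun S => hker _ (h4 S)
    let u' : Finset (Fin n) → M := fun S => if S.card = i + 1 then w S else 0
    have hu1 : Supp (i + 1) u' := fun S hS => by simp [u', hS]
    have hu2 : u - dd x v = z • u' := by
      funext S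
      rw [Pi.smul_apply]
      by_cases hS : S.card = i + 1
      · rw [hw S]
        simp only [u']
        rw [if_pos hS]
      · have h6 : (u - dd x v) S = 0 := (hu.sub (dd_supp x hv)) S hS
        rw [h6]
        simp only [u']
        rw [if_neg hS, smul_zero]
    have h7 : dd x u = z • dd x u' := by
      rw [← dd_smul, ← hu2, dd_sub, dd_dd, sub_zero]
    apply ih u' hu1
    funext S
    apply hreg
    have h8 := congrFun h7 S
    have h9 := congrFun hu' S
    rw [Pi.smul_apply] at h8 h9
    simp only
    rw [Pi.smul_apply, ← h8, h9, pow_succ', mul_smul]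

theorem van (x : Fin n → A) : ∀ (zs : List A) (M : Type) [AddCommGroup M] [Module A M],
    RingTheory.Sequence.IsWeaklyRegular M zs →
    (∀ z ∈ zs, z ∈ (Ideal.span (Set.range x)).radical) →
    ∀ i : ℕ, n < i + zs.length → Van M x i := by
  intro zs
  induction zs with
  | nil =>
    intro M _ _ _ _ i hi t ht _
    refine ⟨0, fun _ _ => rfl, ?_⟩
    have h1 : t = 0 := by
      funext S
      apply ht
      have : S.card ≤ n := by
        have := Finset.card_le_univ S
        rwa [Fintype.card_fin] at this
      simp only [List.length_nil, add_zero] at hi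
      omega
    rw [h1]
    funext S
    simp [dd]
  | cons z zs ih =>
    intro M _ _ hreg hrad i hi
    rw [RingTheory.Sequence.isWeaklyRegular_cons_iff] at hreg
    apply van_step M x z (hrad z (by simp)) hreg.1 i
    apply ih (QuotSMulTop z M) hreg.2 (fun y hy => hrad y (by simp [hy])) (i + 1)
    simp only [List.length_cons] at hi
    omega

end

theorem kv : S_KV := by
  intro A M _ _ _ n x zs hreg hrad hn c hc
  have hV := van x zs M hreg hrad 1 (by omega)
  let t : Finset (Fin n) → M := fun S => ∑ l, if S = {l} then c l else 0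
  have ht1 : ∀ l, t {l} = c l := by
    intro l
    simp only [t]
    rw [Finset.sum_eq_single l]
    · rw [if_pos rfl]
    · intro m _ hml
      rw [if_neg]
      intro e
      exact hml (Finset.singleton_injective e).symm
    · intro h
      exact absurd (Finset.mem_univ l) h
  have ht : Supp 1 t := by
    intro S hS
    simp only [t]
    apply Finset.sum_eq_zero
    intro l _
    rw [if_neg]
    rintro rfl
    exact hS (Finset.card_singleton l)
  have hdt : dd x t = 0 := by
    funext S
    by_cases hS : S = ∅
    · subst hS
      simp only [dd, Finset.compl_empty, Pi.zero_apply]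
      rw [← hc]
      apply Finset.sum_congr rfl
      intro m _
      rw [show (insert m (∅ : Finset (Fin n))) = {m} from rfl, ht1]
      have : sg A m ∅ = 1 := by simp [sg, ct]
      rw [this, one_mul]
    · simp only [dd, Pi.zero_apply]
      apply Finset.sum_eq_zero
      intro m hm
      rw [Finset.mem_compl] at hm
      rw [ht, smul_zero]
      rw [Finset.card_insert_of_notMem hm]
      have : 0 < S.card := Finset.card_pos.2 (Finset.nonempty_iff_ne_empty.2 hS)
      omega
  obtain ⟨u, hu, hu'⟩ := hV t ht hdt
  refine ⟨fun l m => if l = m then 0 else sg A m {l} • u {l, m}, fun l => by simp, ?_, ?_⟩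
  · intro l m
    by_cases h : l = m
    · subst h; simp
    · show (if l = m then 0 else sg A m {l} • u {l, m}) =
        - (if m = l then 0 else sg A l {m} • u {m, l})
      rw [if_neg h, if_neg (Ne.symm h), Finset.pair_comm]
      have h1 := sg_swap (A := A) (a := l) (b := m) (S := ∅) (by simp) (by simp) h
      have h3 : ∀ m : Fin n, sg A m ∅ = 1 := fun m => by simp [sg, ct]
      rw [h3, h3, one_mul, one_mul] at h1
      change sg A m {l} = - sg A l {m} at h1
      rw [h1, neg_smul]
  · intro l
    rw [← ht1 l, ← hu']
    simp only [dd]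
    rw [← Finset.sum_subset (Finset.subset_univ ({l} : Finset (Fin n))ᶜ)]
    · apply Finset.sum_congr rfl
      intro m hm
      rw [Finset.mem_compl, Finset.mem_singleton] at hm
      rw [if_neg (Ne.symm hm), Finset.pair_comm l m, smul_smul, mul_comm]
    · intro m _ hm
      rw [Finset.mem_compl, not_not, Finset.mem_singleton] at hm
      rw [hm, if_pos rfl, smul_zero]

end Pool.Agent.KS6_68.BF.KV
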