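import Pool.Agent.KS6_68.BF.Vert
import Pool.Agent.KS6_68.BF.KV
import Pool.Agent.KS6_68.BF.Colon
import Pool.Agent.KS6_68.BF.Top

/-! F-injectivity at the vertex (compare the library modules `H339R3.FR.HT`,
`H503R3.FR.TaskHR_helper405` for `p = 2`). -/

set_option autoImplicit false
set_option maxHeartbeats 400000

open MvPolynomial IsLocalRing

namespace Pool.Agent.KS6_68.BF

attribute [-instance] ZMod.instField

section

variable {p : ℕ} [Fact p.Prime] {k : Type} [Field k] [CharP k p]

theorem E_inj : Function.Injective (E p k) :=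
  MvPolynomial.expand_injective (Fact.out : p.Prime).pos

theorem sig_E (z : D k) : sig p k (E p k z) = z ^ p := by
  apply E_inj (p := p)
  rw [← pow_eq_E, map_pow]

theorem sig_R (z : R p k) : IsWeightedHomogeneous (Wc p) (sig p k (z : D k)) 0 :=
  sig_homog (W1_Wc (mem_R.1 z.2).1)

theorem sig_MP {P : Ideal (R p k)} [hP : P.IsPrime] {u : R p k} (hu : u ∉ P) :
    sig p k (u : D k) ∈ MP P := by
  refine ⟨sig_R u, ?_, ?_⟩
  · rw [← pow_eq_E]; exact pow_mem u.2 p
  · intro h
    apply hu
    apply hP.mem_of_pow_mem p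
    convert h using 1
    exact Subtype.ext (by simp [← pow_eq_E])

theorem HT (P : Ideal (R p k)) [hP : P.IsPrime] (zs : List (D k)) (zr : List (R p k))
    (hreg : RingTheory.Sequence.IsWeaklyRegular (D k) zs)
    (hmap : zr.map (fun z : R p k => (z : D k)) = zs.map (E p k)) (hzrP : ∀ z ∈ zr, z ∈ P)
    (n : ℕ) (x : Fin n → R p k) (hn : n ≤ zs.length)
    (hx : ∀ z ∈ P, ∃ u ∉ P, ∃ N : ℕ, u * z ^ N ∈ Ideal.span (Set.range x)) :
    H1loc (SP P) (fun l => sig p k (x l : D k)) := by
  let T := Localization (SP P)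
  have hTinj : Function.Injective (algebraMap (D k) T) := IsLocalization.injective T (SP_le P)
  have hregT : RingTheory.Sequence.IsWeaklyRegular T (zs.map (algebraMap (D k) T)) :=
    hreg.of_isLocalization T (SP P)
  have hH := KV.kv T T n (fun l => algebraMap (D k) T (sig p k (x l : D k)))
    (zs.map (algebraMap (D k) T)) hregT ?_ (by simpa using hn)
  · intro c hc
    obtain ⟨t, ht0, hts, htc⟩ := hH (fun l => algebraMap (D k) T (c l)) (by
      simp only [smul_eq_mul, ← map_mul, ← map_sum, hc, map_zero])
    obtain ⟨b, hb⟩ := IsLocalization.exist_integer_multiples_of_finite (SP P)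
      (fun q : Fin n × Fin n => t q.1 q.2)
    choose t' ht' using hb
    refine ⟨b, mem_SP.1 b.2, fun l m => t' (l, m), ?_, ?_, ?_⟩
    · intro l
      apply hTinj
      rw [ht', ht0, smul_zero, map_zero]
    · intro l m
      apply hTinj
      rw [map_neg, ht', ht']
      simp only [hts l m, smul_neg]
    · intro l
      apply hTinj
      rw [map_mul, map_sum]
      have h1 : algebraMap (D k) T (c l) =
        ∑ m, algebraMap (D k) T (sig p k (x m : D k)) • t l m := htc l
      rw [h1, Finset.mul_sum]
      refine Finset.sum_congr rfl fun m _ => ?_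
      rw [map_mul, ht', smul_eq_mul, Algebra.smul_def]
      ring
  · intro z hz
    obtain ⟨z0, hz0, rfl⟩ := List.mem_map.1 hz
    have h1 : E p k z0 ∈ zs.map (E p k) := List.mem_map.2 ⟨z0, hz0, rfl⟩
    rw [← hmap] at h1
    have h1' : ∃ z' ∈ zr, (z' : D k) = E p k z0 := by
      simpa using h1
    obtain ⟨z', hz', hzE⟩ := h1'
    obtain ⟨u, huP, N, hu⟩ := hx z' (hzrP z' hz')
    obtain ⟨a, ha⟩ := (Ideal.mem_span_range_iff_exists_fun).1 hu
    have ha' : ∑ i, (a i : D k) * (x i : D k) = (u : D k) * (E p k z0) ^ N := by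
      have := congrArg (fun q : R p k => (q : D k)) ha
      simpa [hzE] using this
    have ha2 := congrArg (sig p k) ha'
    rw [map_mul, map_pow, sig_E, ← pow_mul, map_sum] at ha2
    have hunit : IsUnit (algebraMap (D k) T (sig p k (u : D k))) :=
      IsLocalization.map_units T (⟨_, mem_SP.2 (sig_MP huP)⟩ : SP P)
    refine ⟨p * N, ?_⟩
    rw [← Ideal.unit_mul_mem_iff_mem _ hunit, ← map_pow, ← map_mul, ← ha2, map_sum]
    refine Ideal.sum_mem _ fun i _ => ?_
    rw [map_mul, map_mul]
    exact Ideal.mul_mem_left _ _ (Ideal.subset_span ⟨i, rfl⟩)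

omit [Fact p.Prime] [CharP k p] in
theorem rad_le {A : Type} [CommRing A] {n : ℕ} (x : Fin n → A) (e : Fin n → ℕ) :
    (Ideal.span (Set.range x)).radical ≤
      (Ideal.span (Set.range fun l => x l ^ e l)).radical := by
  rw [Ideal.radical_le_radical_iff, Ideal.span_le]
  rintro _ ⟨l, rfl⟩
  exact ⟨e l, Ideal.subset_span ⟨l, rfl⟩⟩

omit [Fact p.Prime] [CharP k p] in
theorem HR (P : Ideal (R p k)) [P.IsPrime] (zr : List (R p k))
    (hreg : RingTheory.Sequence.IsWeaklyRegular (R p k) zr) (hmem : ∀ z ∈ zr, z ∈ P)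
    (n : ℕ) (x : Fin n → Localization.AtPrime P) (hn : n ≤ zr.length)
    (hrad : (Ideal.span (Set.range x)).radical = maximalIdeal (Localization.AtPrime P))
    (e : Fin n → ℕ) (_he : ∀ l, 1 ≤ e l) : H1van (Localization.AtPrime P)
      (fun l => x l ^ e l) := by
  refine KV.kv (Localization.AtPrime P) (Localization.AtPrime P) n (fun l => x l ^ e l)
    (zr.map (algebraMap (R p k) (Localization.AtPrime P))) ?_ ?_ ?_
  · exact RingTheory.Sequence.IsWeaklyRegular.of_isLocalization (Localization.AtPrime P)
      P.primeCompl hreg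
  · intro z hz
    obtain ⟨y, hy, rfl⟩ := List.mem_map.mp hz
    apply rad_le x e
    rw [hrad]
    exact (IsLocalization.AtPrime.to_map_mem_maximal_iff (Localization.AtPrime P) P y).mpr
      (hmem y hy)
  · simpa using hn

/-- Frobenius closed ideals of `D` -/
theorem frob_D [IsAlgClosed k] {n : ℕ} (x : Fin n → D k) (w : D k)
    (h : w ^ p ∈ Ideal.span (Set.range fun l => x l ^ p)) : w ∈ Ideal.span (Set.range x) := by
  have hp : 0 < p := (Fact.out : p.Prime).pos
  obtain ⟨g, hg, -⟩ := exists_sig_inv (p := p) (k := k)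
  obtain ⟨c, hc⟩ := (mem_span_range' _ _).1 h
  have h1 := congrArg (cc p k ![0, 0, 0]) hc
  rw [pow_eq_E, cc_E hp, map_sum] at h1
  have h2 : sig p k w = ∑ l, sig p k (x l) * cc p k ![0, 0, 0] (c l) := by
    rw [h1]
    refine Finset.sum_congr rfl fun l _ => ?_
    rw [pow_eq_E, cc_mul hp]
  have h3 := congrArg g h2
  rw [hg, map_sum] at h3
  rw [mem_span_range']
  refine ⟨fun l => g (cc p k ![0, 0, 0] (c l)), ?_⟩
  rw [h3]
  refine Finset.sum_congr rfl fun l _ => ?_
  rw [map_mul, hg]

theorem case2 [IsAlgClosed k] (P : Ideal (R p k)) [hP : P.IsPrime] (zs : List (D k))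
    (zr : List (R p k))
    (hreg : RingTheory.Sequence.IsWeaklyRegular (D k) zs)
    (hmap : zr.map (fun z : R p k => (z : D k)) = zs.map (E p k))
    (hregR : RingTheory.Sequence.IsWeaklyRegular (R p k) zr) (hzrP : ∀ z ∈ zr, z ∈ P)
    (hdim : ringKrullDim (Localization.AtPrime P) ≤ (zs.length : WithBot ℕ∞)) :
    FInjectiveLocal p (Localization.AtPrime P) := by
  classical
  have hpp : p.Prime := Fact.out
  have hp : 0 < p := hpp.pos
  have hlen : zr.length = zs.length := by
    have := congrArg List.length hmap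
    simpa using this
  set al := algebraMap (R p k) (Localization.AtPrime P) with hal
  have hcharR : CharP (R p k) p := charP_of_injective_algebraMap
    (algebraMap k (R p k)).injective p
  have hpB : (p : Localization.AtPrime P) = 0 := by
    rw [← map_natCast al, CharP.cast_eq_zero, map_zero]
  have hcharB : CharP (Localization.AtPrime P) p := by
    have := CharP.exists (Localization.AtPrime P)
    obtain ⟨q, hq⟩ := this
    have h1 : q ∣ p := (CharP.cast_eq_zero_iff (Localization.AtPrime P) q p).1 hpB
    rcases (Nat.dvd_prime hpp).1 h1 with h | h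
    · exfalso
      subst h
      have h2 : ((1 : ℕ) : Localization.AtPrime P) = 0 :=
        (CharP.cast_eq_zero_iff (Localization.AtPrime P) 1 1).2 (dvd_refl 1)
      rw [Nat.cast_one] at h2
      exact one_ne_zero h2
    · rwa [h] at hq
  refine Top.top p (Localization.AtPrime P) (zr.map al) ?_ ?_ ?_ ?_
  · exact RingTheory.Sequence.IsWeaklyRegular.of_isLocalization (Localization.AtPrime P)
      P.primeCompl hregR
  · intro z hz
    obtain ⟨y, hy, rfl⟩ := List.mem_map.mp hz
    exact (IsLocalization.AtPrime.to_map_mem_maximal_iff (Localization.AtPrime P) P y).mpr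
      (hzrP y hy)
  · rw [List.length_map, hlen]
    exact hdim
  · intro n x hx z hz
    have hn : n ≤ zs.length := by
      have h1 := hx.1
      rw [← h1] at hdim
      exact_mod_cast hdim
    -- representatives
    have h : ∀ y : Localization.AtPrime P, ∃ (a : R p k) (s : P.primeCompl),
        y * al s = al a := by
      intro y
      obtain ⟨⟨a, s⟩, hs⟩ := IsLocalization.surj P.primeCompl y
      exact ⟨a, s, hs⟩
    have hu : ∀ s : P.primeCompl, IsUnit (al s) := fun s =>
      IsLocalization.map_units (Localization.AtPrime P) s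
    choose a s has using fun l => h (x l)
    obtain ⟨b, t, hbt⟩ := h z
    have hspan : ∀ m : ℕ, Ideal.span (Set.range fun l => al (a l) ^ m) =
        Ideal.span (Set.range fun l => x l ^ m) := by
      intro m
      apply le_antisymm
      · rw [Ideal.span_le]
        rintro _ ⟨l, rfl⟩
        show al (a l) ^ m ∈ Ideal.span (Set.range fun l => x l ^ m)
        rw [← has l, mul_pow]
        exact Ideal.mul_mem_right _ _ (Ideal.subset_span ⟨l, rfl⟩)
      · rw [Ideal.span_le]
        rintro _ ⟨l, rfl⟩
        obtain ⟨u, hu'⟩ := hu (s l)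
        have e : x l = al (a l) *
            ((u⁻¹ : (Localization.AtPrime P)ˣ) : Localization.AtPrime P) := by
          rw [← has l, ← hu', mul_assoc, Units.mul_inv, mul_one]
        show x l ^ m ∈ Ideal.span (Set.range fun l => al (a l) ^ m)
        rw [e, mul_pow]
        exact Ideal.mul_mem_right _ _ (Ideal.subset_span ⟨l, rfl⟩)
    have hspan1 : Ideal.span (Set.range fun l => al (a l)) = Ideal.span (Set.range x) := by
      simpa using hspan 1
    have hmapa : Ideal.span (Set.range fun l => al (a l)) =
        Ideal.map al (Ideal.span (Set.range a)) := by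
      rw [Ideal.map_span, ← Set.range_comp]
      rfl
    have hmapap : Ideal.span (Set.range fun l => al (a l) ^ p) =
        Ideal.map al (Ideal.span (Set.range fun l => a l ^ p)) := by
      rw [Ideal.map_span, ← Set.range_comp]
      congr 2
      funext l
      simp
    have hxP : ∀ w ∈ P, ∃ u ∉ P, ∃ N : ℕ, u * w ^ N ∈ Ideal.span (Set.range a) := by
      intro w hw
      have h1 : al w ∈ maximalIdeal (Localization.AtPrime P) :=
        (IsLocalization.AtPrime.to_map_mem_maximal_iff (Localization.AtPrime P) P w).mpr hw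
      rw [← hx.2, ← hspan1, hmapa] at h1
      obtain ⟨N, hN⟩ := h1
      rw [← map_pow, IsLocalization.algebraMap_mem_map_algebraMap_iff P.primeCompl] at hN
      obtain ⟨u, hu, huw⟩ := hN
      exact ⟨u, hu, N, huw⟩
    have hH := HT P zs zr hreg hmap hzrP n a hn hxP
    have hVan := HR P zr hregR hzrP n (fun l => al (a l)) (by rw [hlen]; exact hn)
      (by rw [hspan1]; exact hx.2)
    -- the Frobenius
    have hbp : al (b ^ p) ∈ Ideal.span (Set.range fun l => al (a l) ^ p) := by
      rw [hspan p, map_pow, ← hbt, mul_pow]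
      exact Ideal.mul_mem_right _ _ hz
    rw [hmapap, IsLocalization.algebraMap_mem_map_algebraMap_iff P.primeCompl] at hbp
    obtain ⟨s', hs', hsb⟩ := hbp
    obtain ⟨w, hw⟩ : ∃ w : R p k, w = s' * b := ⟨_, rfl⟩
    have hwp : w ^ p ∈ Ideal.span (Set.range fun l => a l ^ p) := by
      have e : w ^ p = s' ^ (p - 1) * (s' * b ^ p) := by
        rw [hw, mul_pow, ← mul_assoc, ← pow_succ, Nat.sub_add_cancel hp]
      rw [e]
      exact Ideal.mul_mem_left _ _ hsb
    have hwD : (w : D k) ∈ Ideal.span (Set.range fun l => (a l : D k)) := by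
      apply frob_D (p := p)
      obtain ⟨c, hc⟩ := (mem_span_range' _ _).1 hwp
      rw [mem_span_range']
      refine ⟨fun l => (c l : D k), ?_⟩
      have := congrArg (fun q : R p k => (q : D k)) hc
      simpa using this
    have hprodD : ((w * ∏ l, a l ^ (p - 1) : R p k) : D k) ∈
        Ideal.span (Set.range fun l => E p k (sig p k (a l : D k))) := by
      obtain ⟨c, hc⟩ := (mem_span_range' _ _).1 hwD
      have e : ((w * ∏ l, a l ^ (p - 1) : R p k) : D k) =
          ∑ l, E p k (sig p k (a l : D k)) *
            (c l * ∏ m ∈ Finset.univ.erase l, (a m : D k) ^ (p - 1)) := by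
        have e1 : ((w * ∏ l, a l ^ (p - 1) : R p k) : D k) =
            (w : D k) * ∏ l, (a l : D k) ^ (p - 1) := by simp
        rw [e1, hc, Finset.sum_mul]
        refine Finset.sum_congr rfl fun l _ => ?_
        rw [← Finset.mul_prod_erase _ _ (Finset.mem_univ l), ← pow_eq_E]
        have e2 : (a l : D k) ^ p = a l * (a l : D k) ^ (p - 1) := by
          rw [← pow_succ', Nat.sub_add_cancel hp]
        rw [e2]
        ring
      rw [e, mem_span_range']
      exact ⟨_, rfl⟩
    obtain ⟨v, hv, c, hcR, hc⟩ := KL (S := SP P) (fun v hv => hv.1) (fun l => sig_R (a l)) hH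
      (w * ∏ l, a l ^ (p - 1) : R p k).2 hprodD
    obtain ⟨hv1, hv2, hv3⟩ := hv
    have hcolon : al w * ∏ l, al (a l) ^ (p - 1) ∈
        Ideal.span (Set.range fun l => al (a l) ^ (p - 1 + 1)) := by
      rw [Nat.sub_add_cancel hp, hmapap]
      have e3 : al w * ∏ l, al (a l) ^ (p - 1) = al (w * ∏ l, a l ^ (p - 1)) := by
        rw [map_mul, map_prod]
        congr 1
        exact Finset.prod_congr rfl fun l _ => (map_pow _ _ _).symm
      rw [e3, IsLocalization.algebraMap_mem_map_algebraMap_iff P.primeCompl]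
      refine ⟨⟨E p k v, hv2⟩, hv3, ?_⟩
      rw [mem_span_range']
      refine ⟨fun l => ⟨c l, hcR l⟩, ?_⟩
      apply Subtype.ext
      rw [Subalgebra.coe_mul]
      rw [hc]
      simp [← pow_eq_E]
    have hfin := Colon.colon (Localization.AtPrime P) n (fun l => al (a l)) hVan (p - 1) (al w)
      hcolon
    rw [hspan1] at hfin
    have e4 : al w = al s' * al t * z := by
      rw [hw, map_mul, ← hbt]
      ring
    rw [e4, Ideal.unit_mul_mem_iff_mem] at hfin
    · exact hfin
    · exact (hu ⟨s', hs'⟩).mul (hu t)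

end

end Pool.Agent.KS6_68.BF
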