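import Pool.Agent.KS6_68.BF.Grad

/-! Coordinates of `D` over the subring of the polynomials in the `X i ^ p`. -/

set_option autoImplicit false

open MvPolynomial

namespace Pool.Agent.KS6_68.BF

/-- `E : k[X 0, X 1, X 2] → k[X 0, X 1, X 2]`, `X i ↦ (X i) ^ p` (constants are fixed). -/
noncomputable abbrev E (p : ℕ) (k : Type) [Field k] : D k →ₐ[k] D k := MvPolynomial.expand p

section

variable {p : ℕ} {k : Type} [Field k]

/-- division of the exponents by `p` -/
noncomputable def hf (p : ℕ) (m : Fin 3 →₀ ℕ) : Fin 3 →₀ ℕ := m.mapRange (fun x => x / p) (by simp)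

theorem hf_apply (m : Fin 3 →₀ ℕ) (i : Fin 3) : hf p m i = m i / p := by
  unfold hf
  rw [Finsupp.mapRange_apply]

open Classical in
/-- images of the monomials -/
noncomputable def gg (p : ℕ) (k : Type) [Field k] (e : Fin 3 → ℕ) (m : Fin 3 →₀ ℕ) : D k :=
  if ∀ i, m i % p = e i then monomial (hf p m) 1 else 0

/-- the coordinate map -/
noncomputable def cc (p : ℕ) (k : Type) [Field k] (e : Fin 3 → ℕ) : D k →ₗ[k] D k :=
  (MvPolynomial.basisMonomials (Fin 3) k).constr k (gg p k e)

theorem cc_monomial (e : Fin 3 → ℕ) (m : Fin 3 →₀ ℕ) (a : k) :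
    cc p k e (monomial m a) = a • gg p k e m := by
  have h1 : cc p k e (monomial m 1) = gg p k e m := by
    have h := (MvPolynomial.basisMonomials (Fin 3) k).constr_basis k (gg p k e) m
    rw [MvPolynomial.coe_basisMonomials] at h
    exact h
  have h2 : (monomial m a : D k) = a • monomial m 1 := by
    rw [MvPolynomial.smul_monomial, smul_eq_mul, mul_one]
  rw [h2, map_smul, h1]

theorem cc_sq (hp : 0 < p) (e : Fin 3 → ℕ) (i : Fin 3) (d : D k) :
    cc p k e (X i ^ p * d) = X i * cc p k e d := by
  induction d using MvPolynomial.induction_on' with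
  | monomial m a =>
    have h1 : (X i ^ p * monomial m a : D k) = monomial (Finsupp.single i p + m) a := by
      rw [MvPolynomial.X_pow_eq_monomial, MvPolynomial.monomial_mul, one_mul]
    rw [h1, cc_monomial, cc_monomial]
    rw [mul_smul_comm]
    congr 1
    unfold gg
    have h2 : (∀ j, (Finsupp.single i p + m : Fin 3 →₀ ℕ) j % p = e j) ↔ ∀ j, m j % p = e j := by
      apply forall_congr'
      intro j
      rw [Finsupp.add_apply, Finsupp.single_apply]
      split_ifs
      · rw [Nat.add_mod_left]
      · rw [zero_add]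
    by_cases h3 : ∀ j, m j % p = e j
    · rw [if_pos h3, if_pos (h2.mpr h3)]
      rw [X, MvPolynomial.monomial_mul, one_mul]
      have h4 : hf p (Finsupp.single i p + m) = Finsupp.single i 1 + hf p m := by
        ext j
        rw [hf_apply, Finsupp.add_apply, Finsupp.add_apply, hf_apply, Finsupp.single_apply,
          Finsupp.single_apply]
        split_ifs
        · rw [Nat.add_div_left _ hp]; omega
        · rw [zero_add, zero_add]
      rw [h4]
    · rw [if_neg h3, if_neg (fun h => h3 (h2.mp h)), mul_zero]
  | add p q hp hq => rw [mul_add, map_add, hp, hq, map_add, mul_add]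

theorem cc_mul (hp : 0 < p) (e : Fin 3 → ℕ) (a d : D k) :
    cc p k e (E p k a * d) = a * cc p k e d := by
  induction a using MvPolynomial.induction_on generalizing d with
  | C r =>
    rw [show E p k (C r) = C r from MvPolynomial.expand_C p r, MvPolynomial.C_mul', map_smul,
      MvPolynomial.C_mul']
  | add p q hp hq => rw [map_add, add_mul, map_add, hp, hq, add_mul]
  | mul_X q i hq =>
    rw [map_mul (E p k), show E p k (X i) = X i ^ p from MvPolynomial.expand_X p i, mul_assoc, hq,
      cc_sq hp, mul_assoc]

/-- coordinates of the monomials with small exponents -/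
theorem cc_mono (e : Fin 3 → ℕ) (m : Fin 3 →₀ ℕ) (hm : ∀ i, m i < p) :
    cc p k e (monomial m 1) = if ∀ i, m i = e i then 1 else 0 := by
  classical
  rw [cc_monomial, one_smul]
  unfold gg
  have h1 : (∀ i, m i % p = e i) ↔ ∀ i, m i = e i :=
    forall_congr' fun i => by rw [Nat.mod_eq_of_lt (hm i)]
  have h2 : hf p m = 0 := by
    ext i
    rw [hf_apply, Nat.div_eq_of_lt (hm i)]
    rfl
  by_cases h : ∀ i, m i = e i
  · rw [if_pos (h1.2 h), if_pos h, h2]
    rfl
  · rw [if_neg (fun h' => h (h1.1 h')), if_neg h]

theorem cc_one (hp : 0 < p) : cc p k ![0, 0, 0] 1 = 1 := by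
  have h := cc_mono (k := k) (p := p) ![0, 0, 0] 0 (fun i => hp)
  rw [if_pos (by intro i; fin_cases i <;> rfl)] at h
  exact h

theorem cc_E (hp : 0 < p) (a : D k) : cc p k ![0, 0, 0] (E p k a) = a := by
  have h := cc_mul hp ![0, 0, 0] a (1 : D k)
  rw [mul_one, cc_one hp, mul_one] at h
  exact h

/-- polynomials all whose exponents are divisible by `p` are in the image of `E` -/
theorem exists_E {f : D k} (h : ∀ m ∈ f.support, ∀ i, p ∣ m i) :
    ∃ a : D k, f = E p k a ∧ ∀ m ∈ a.support, p • m ∈ f.support := by
  classical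
  have h1 : ∀ m : Fin 3 →₀ ℕ, (∀ i, p ∣ m i) → p • hf p m = m := by
    intro m hm
    ext i
    rw [Finsupp.smul_apply, hf_apply, smul_eq_mul, Nat.mul_div_cancel' (hm i)]
  refine ⟨∑ m ∈ f.support, monomial (hf p m) (coeff m f), ?_, ?_⟩
  · rw [map_sum]
    conv_lhs => rw [f.as_sum]
    refine Finset.sum_congr rfl fun m hm => ?_
    rw [E, MvPolynomial.expand_monomial, h1 m (h m hm)]
  · intro m hm
    obtain ⟨m', hm', hm2⟩ := Finset.mem_biUnion.1 (MvPolynomial.support_sum hm)
    have h3 := support_monomial_subset hm2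
    rw [Finset.mem_singleton] at h3
    rw [h3, h1 m' (h m' hm')]
    exact hm'

theorem support_E {a : D k} {m : Fin 3 →₀ ℕ} (hm : m ∈ (E p k a).support) :
    ∃ m' ∈ a.support, m = p • m' := by
  classical
  have h : E p k a = ∑ m ∈ a.support, monomial (p • m) (coeff m a) := by
    conv_lhs => rw [a.as_sum]
    rw [map_sum]
    exact Finset.sum_congr rfl fun m _ => MvPolynomial.expand_monomial _ _ _
  rw [h] at hm
  obtain ⟨m', hm', hm2⟩ := Finset.mem_biUnion.1 (MvPolynomial.support_sum hm)
  have h3 := support_monomial_subset hm2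
  rw [Finset.mem_singleton] at h3
  exact ⟨m', hm', h3⟩

/-- the `p`-th power of the coefficients -/
noncomputable def sig (p : ℕ) [Fact p.Prime] (k : Type) [Field k] [CharP k p] : D k →+* D k :=
  MvPolynomial.map (frobenius k p)

theorem pow_eq_E [Fact p.Prime] [CharP k p] (z : D k) : z ^ p = E p k (sig p k z) := by
  have h : (frobenius (D k) p) = ((E p k : D k →+* D k)).comp (sig p k) := by
    refine MvPolynomial.ringHom_ext ?_ ?_
    · intro c
      simp only [sig, RingHom.comp_apply, MvPolynomial.map_C, frobenius_def, RingHom.coe_coe,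
        MvPolynomial.expand_C, map_pow]
    · intro i
      simp [sig, frobenius_def]
  have h2 := congrArg (fun f : D k →+* D k => f z) h
  simpa [frobenius_def] using h2

theorem sig_support [Fact p.Prime] [CharP k p] (z : D k) : (sig p k z).support = z.support :=
  MvPolynomial.support_map_of_injective _ (frobenius k p).injective

theorem sig_homog [Fact p.Prime] [CharP k p] {A : Type} [AddCommGroup A] {w : Fin 3 → A} {a : A}
    {z : D k} (hz : IsWeightedHomogeneous w z a) : IsWeightedHomogeneous w (sig p k z) a := by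
  intro d hd
  have h1 : d ∈ (sig p k z).support := mem_support_iff.2 hd
  rw [sig_support] at h1
  exact hz (mem_support_iff.1 h1)

/-- `p`-th roots of the coefficients -/
theorem exists_sig_inv [Fact p.Prime] [CharP k p] [IsAlgClosed k] :
    ∃ g : D k →+* D k, (∀ a, g (sig p k a) = a) ∧ ∀ a, sig p k (g a) = a := by
  have : ExpChar k p := ExpChar.prime Fact.out
  have : PerfectRing k p := PerfectField.toPerfectRing p
  let e := (frobeniusEquiv k p).symm
  refine ⟨MvPolynomial.map (e : k →+* k), ?_, ?_⟩
  · intro a
    rw [sig, MvPolynomial.map_map]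
    have : ((e : k →+* k).comp (frobenius k p)) = RingHom.id k := by
      ext x
      exact (frobeniusEquiv k p).symm_apply_apply x
    rw [this, MvPolynomial.map_id]
  · intro a
    rw [sig, MvPolynomial.map_map]
    have : ((frobenius k p).comp (e : k →+* k)) = RingHom.id k := by
      ext x
      exact (frobeniusEquiv k p).apply_symm_apply x
    rw [this, MvPolynomial.map_id]

end

end Pool.Agent.KS6_68.BF
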