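import Mathlib

/-! Definitions: the Cech complex, F-injective rings (the same definitions as in the library
module `H503R3.NF.Defs`, for arbitrary `p`). -/

set_option autoImplicit false

universe u

open IsLocalRing

namespace Pool.Agent.KS6_68.BF

section Cech

variable {B : Type u} [CommRing B] {n : ℕ}

/-- The localisation of `B` at the product of the elements `x l`, `l ∈ S`. -/
abbrev L (x : Fin n → B) (S : Finset (Fin n)) : Type u := Localization.Away (∏ l ∈ S, x l)

theorem isUnit_prod (x : Fin n → B) {S' S : Finset (Fin n)} (h : S' ⊆ S) :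
    IsUnit (algebraMap B (L x S) (∏ l ∈ S', x l)) := by
  have hu : IsUnit (algebraMap B (L x S) (∏ l ∈ S, x l)) :=
    IsLocalization.Away.algebraMap_isUnit _
  have he : ∏ l ∈ S, x l = (∏ l ∈ S \ S', x l) * ∏ l ∈ S', x l := (Finset.prod_sdiff h).symm
  have hu' : IsUnit (algebraMap B (L x S) ((∏ l ∈ S \ S', x l) * ∏ l ∈ S', x l)) :=
    he ▸ hu
  rw [map_mul] at hu'
  exact isUnit_of_mul_isUnit_right hu'

/-- The restriction map between localisations. -/
noncomputable def res (x : Fin n → B) {S' S : Finset (Fin n)} (h : S' ⊆ S) :
    L x S' →+* L x S :=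
  IsLocalization.Away.lift (∏ l ∈ S', x l) (isUnit_prod x h)

/-- The `i`-th term of the Cech complex of `B` on `x`: the product of the localisations at
`∏ l ∈ S, x l` over the subsets `S` with `i` elements. -/
abbrev Cochain (x : Fin n → B) (i : ℕ) : Type u := ∀ S : {S : Finset (Fin n) // S.card = i}, L x S

/-- Removing an element from a set with `i + 1` elements. -/
def del {i : ℕ} (S : {S : Finset (Fin n) // S.card = i + 1}) (l : {l : Fin n // l ∈ S.1}) :
    {S : Finset (Fin n) // S.card = i} :=
  ⟨S.1.erase l.1, by rw [Finset.card_erase_of_mem l.2, S.2]; rfl⟩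

/-- The differential of the Cech complex (with the usual signs). -/
noncomputable def d (x : Fin n → B) (i : ℕ) (c : Cochain x i) : Cochain x (i + 1) :=
  fun S => ∑ l : {l : Fin n // l ∈ S.1}, (-1) ^ (S.1.filter (fun m => m < l.1)).card *
    res x (Finset.erase_subset l.1 S.1) (c (del S l))

/-- Coboundaries of the Cech complex. -/
def IsCoboundary (x : Fin n → B) : (i : ℕ) → Cochain x i → Prop
  | 0, c => c = 0
  | i + 1, c => ∃ b : Cochain x i, d x i b = c

end Cech

/-- `x` is a (full) system of parameters of the local ring `B`: it has `dim B` elements and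
generates an ideal with radical the maximal ideal. -/
def IsSystemOfParameters {B : Type u} [CommRing B] [IsLocalRing B] {n : ℕ} (x : Fin n → B) :
    Prop :=
  (n : WithBot ℕ∞) = ringKrullDim B ∧ (Ideal.span (Set.range x)).radical = maximalIdeal B

/-- The local ring `B` is F-injective: the Frobenius action (given by the `p`-th power on the
localisations of `B`) is injective on the cohomology of the Cech complex on every system of
parameters, that is, on `H^i_m(B)`, for every `i`. -/
def FInjectiveLocal (p : ℕ) (B : Type u) [CommRing B] [IsLocalRing B] : Prop :=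
  ∀ (n : ℕ) (x : Fin n → B), IsSystemOfParameters x →
    ∀ (i : ℕ) (c : Cochain x i), d x i c = 0 →
      IsCoboundary x i (fun S => c S ^ p) → IsCoboundary x i c

/-- `Spec A` is F-injective: all local rings of `A` are F-injective. -/
def FInjective (p : ℕ) (A : Type u) [CommRing A] : Prop :=
  ∀ (P : Ideal A) [P.IsPrime], FInjectiveLocal p (Localization.AtPrime P)

end Pool.Agent.KS6_68.BF
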