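import Pool.Agent.KS6_68.BF.Split

/-! Frobenius split local rings are F-injective (the library module
`H503R3.NF.TaskFS_helper875`, for arbitrary `p`). -/

set_option autoImplicit false

open IsLocalRing

namespace Pool.Agent.KS6_68.BF.TaskFS

open Pool.Agent.KS6_68.BF

theorem res_algebraMap {B : Type} [CommRing B] {n : ℕ} (x : Fin n → B)
    {S' S : Finset (Fin n)} (h : S' ⊆ S) (b : B) :
    res x h (algebraMap B (L x S') b) = algebraMap B (L x S) b := by
  unfold res
  exact IsLocalization.Away.lift_eq _ _ _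

theorem exists_ext {p : ℕ} (hp : 0 < p) {B : Type} [CommRing B] {φ : B → B} (hφ : FSplit p B φ)
    {n : ℕ} (x : Fin n → B) : ∃ ψ : ∀ S : Finset (Fin n), L x S → L x S,
      (∀ S a b, ψ S (a + b) = ψ S a + ψ S b) ∧
      (∀ S (r a : L x S), ψ S (r ^ p * a) = r * ψ S a) ∧ (∀ S, ψ S 1 = 1) ∧
      (∀ S (b : B), ψ S (algebraMap B (L x S) b) = algebraMap B (L x S) (φ b)) := by
  have h : ∀ S : Finset (Fin n), ∃ ψ : L x S → L x S, (∀ a b, ψ (a + b) = ψ a + ψ b) ∧
      (∀ r a, ψ (r ^ p * a) = r * ψ a) ∧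
      ∀ b, ψ (algebraMap B (L x S) b) = algebraMap B (L x S) (φ b) := fun S =>
    ext_loc hp (Submonoid.powers (∏ l ∈ S, x l)) hφ.add hφ.smul
  choose ψ hψ1 hψ2 hψ3 using h
  refine ⟨ψ, hψ1, hψ2, fun S => ?_, hψ3⟩
  have := hψ3 S 1
  rwa [hφ.one, map_one] at this

theorem fs : S_FS := by
  intro p hpf B _ _ _ φ hφ n x _ i c hdc hcob
  have hp : 0 < p := hpf.out.pos
  obtain ⟨ψ, hadd, hsmul, hone, halg⟩ := exists_ext hp hφ x
  have hzero : ∀ S, ψ S 0 = 0 := by
    intro S
    have := hsmul S 0 0
    rw [zero_mul] at this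
    simpa using this
  have hneg : ∀ S (a : L x S), ψ S (-a) = - ψ S a := by
    intro S a
    have := hadd S a (-a)
    rw [add_neg_cancel, hzero] at this
    exact (neg_eq_of_add_eq_zero_right this.symm).symm
  have hsgn : ∀ S (j : ℕ) (a : L x S), ψ S ((-1) ^ j * a) = (-1) ^ j * ψ S a := by
    intro S j a
    rcases neg_one_pow_eq_or (L x S) j with h | h
    · rw [h, one_mul, one_mul]
    · rw [h, neg_one_mul, neg_one_mul, hneg]
  have hsq : ∀ S (a : L x S), ψ S (a ^ p) = a := by
    intro S a
    have := hsmul S a 1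
    rw [mul_one, hone, mul_one] at this
    exact this
  -- compatibility with the restriction maps
  have hres : ∀ (S' S : Finset (Fin n)) (h : S' ⊆ S) (z : L x S'),
      res x h (ψ S' z) = ψ S (res x h z) := by
    intro S' S h z
    obtain ⟨s, a, hs⟩ := exists_den hp
      (Submonoid.powers (∏ l ∈ S', x l)) z
    have e1 : ψ S' z * algebraMap B (L x S') s = algebraMap B (L x S') (φ a) := by
      rw [← halg, ← hs, mul_comm z, hsmul, mul_comm]
    have e2 : res x h (ψ S' z) * algebraMap B (L x S) s = algebraMap B (L x S) (φ a) := by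
      rw [← res_algebraMap x h, ← res_algebraMap x h, ← map_mul, e1]
    have e3 : res x h z * algebraMap B (L x S) s ^ p = algebraMap B (L x S) a := by
      rw [← res_algebraMap x h, ← res_algebraMap x h, ← map_pow, ← map_mul, hs]
    have e4 : ψ S (res x h z) * algebraMap B (L x S) s = algebraMap B (L x S) (φ a) := by
      rw [← halg, ← e3, mul_comm (res x h z), hsmul, mul_comm]
    have hu : IsUnit (algebraMap B (L x S) (s : B)) := by
      obtain ⟨m, hm⟩ := s.2
      have hm' : (∏ l ∈ S', x l) ^ m = (s : B) := hm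
      rw [← hm', map_pow]
      exact (isUnit_prod x h).pow m
    apply hu.mul_right_cancel
    rw [e2, e4]
  cases i with
  | zero =>
    show c = 0
    have h0 : (fun S => c S ^ p) = (0 : Cochain x 0) := hcob
    funext S
    have h1 := congrFun h0 S
    have h3 : c S ^ p = 0 := h1
    rw [← hsq S.1 (c S), h3, hzero]
    rfl
  | succ i =>
    obtain ⟨b, hb⟩ := hcob
    refine ⟨fun T => ψ T.1 (b T), ?_⟩
    funext S
    have h1 := congrFun hb S
    simp only [d] at h1 ⊢
    rw [← hsq S.1 (c S), ← h1]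
    have hsum : ∀ (t : Finset {l : Fin n // l ∈ S.1}) (f : {l : Fin n // l ∈ S.1} → L x S.1),
        ψ S.1 (∑ l ∈ t, f l) = ∑ l ∈ t, ψ S.1 (f l) := by
      classical
      intro t f
      induction t using Finset.induction_on with
      | empty => simp [hzero]
      | insert a t ha ih => rw [Finset.sum_insert ha, Finset.sum_insert ha, hadd, ih]
    rw [hsum]
    apply Finset.sum_congr rfl
    intro l _
    rw [hsgn]
    congr 1
    exact hres _ _ _ _

end Pool.Agent.KS6_68.BF.TaskFS
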