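import Pool.Agent.KS6_68.BF.Defs

/-! Statements of the general modules (arbitrary prime `p`). -/

set_option autoImplicit false

universe u v

open IsLocalRing

namespace Pool.Agent.KS6_68.BF

/-- Vanishing of the Cech cohomology on `x` in degree `i`. -/
def Van {B : Type u} [CommRing B] {n : ℕ} (x : Fin n → B) (i : ℕ) : Prop :=
  ∀ c : Cochain x i, d x i c = 0 → IsCoboundary x i c

/-- S_VanC: Cech cohomology vanishes below the length of a regular sequence in the radical. -/
def S_VanC : Prop := ∀ (B : Type) [CommRing B],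
  ∀ (n : ℕ) (x : Fin n → B) (zs : List B),
    RingTheory.Sequence.IsWeaklyRegular B zs →
    (∀ z ∈ zs, z ∈ (Ideal.span (Set.range x)).radical) → ∀ i < zs.length, Van x i

/-- A Frobenius splitting of `B`. -/
structure FSplit (p : ℕ) (B : Type) [CommRing B] (φ : B → B) : Prop where
  add : ∀ a b, φ (a + b) = φ a + φ b
  smul : ∀ r a, φ (r ^ p * a) = r * φ a
  one : φ 1 = 1

/-- S_FS: Frobenius split local rings are F-injective. -/
def S_FS : Prop := ∀ (p : ℕ) [Fact p.Prime] (B : Type) [CommRing B] [IsLocalRing B] [CharP B p]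
  (φ : B → B), FSplit p B φ → FInjectiveLocal p B

/-- S_Top: a local ring of characteristic `p` with a regular sequence of length `≥ dim` in
the maximal ideal in which all ideals generated by systems of parameters are Frobenius closed
is F-injective. -/
def S_Top : Prop := ∀ (p : ℕ) [Fact p.Prime] (B : Type) [CommRing B] [IsLocalRing B] [CharP B p]
  (zs : List B), RingTheory.Sequence.IsWeaklyRegular B zs →
    (∀ z ∈ zs, z ∈ maximalIdeal B) → ringKrullDim B ≤ (zs.length : WithBot ℕ∞) →
    (∀ (n : ℕ) (x : Fin n → B), IsSystemOfParameters x →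
      ∀ z : B, z ^ p ∈ Ideal.span (Set.range fun l => x l ^ p) →
        z ∈ Ideal.span (Set.range x)) →
    FInjectiveLocal p B

/-- S_NegCore: a section by `h = 0` which is not F-injective at the point given by `ev`. -/
def S_NegCore : Prop := ∀ (p : ℕ) [Fact p.Prime] (A F : Type) [CommRing A] [IsNoetherianRing A]
  [Field F] [CharP A p] (ev : A →+* F) (r1 r3 h z0 : A), ev r1 = 0 → ev r3 = 0 → ev h = 0 →
    z0 ^ p ∈ Ideal.span {r1 ^ p, r3 ^ p, h} →
    (∀ (N : ℕ) (u : A), u * (z0 * (r1 * r3) ^ N) ∈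
      Ideal.span {r1 ^ (N + 1), r3 ^ (N + 1), h} → ev u = 0) →
    (∀ u, ev u = 0 → ∃ N : ℕ, u ^ N ∈ Ideal.span {r1, r3, h}) →
    3 ≤ (RingHom.ker ev).height →
    ¬ FInjective p (A ⧸ Ideal.span {h})

/-- Vanishing of the first Koszul homology. -/
def H1van {A : Type u} (M : Type v) [CommRing A] [AddCommGroup M] [Module A M] {n : ℕ}
    (x : Fin n → A) : Prop :=
  ∀ c : Fin n → M, ∑ l, x l • c l = 0 →
    ∃ t : Fin n → Fin n → M, (∀ l, t l l = 0) ∧ (∀ l m, t l m = - t m l) ∧
      ∀ l, c l = ∑ m, x m • t l m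

/-- S_KV: a sequence whose ideal contains, up to radical, a regular sequence that is at least
as long has no first Koszul homology. -/
def S_KV : Prop := ∀ (A M : Type) [CommRing A] [AddCommGroup M] [Module A M]
  (n : ℕ) (x : Fin n → A) (zs : List A),
    RingTheory.Sequence.IsWeaklyRegular M zs →
    (∀ z ∈ zs, z ∈ (Ideal.span (Set.range x)).radical) → n ≤ zs.length → H1van M x

/-- S_Colon: `(x_l ^ (q + 1)) : ∏ x_l ^ q = (x_l)`. -/
def S_Colon : Prop := ∀ (A : Type) [CommRing A] (n : ℕ) (x : Fin n → A),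
    (∀ e : Fin n → ℕ, (∀ l, 1 ≤ e l) → H1van A (fun l => x l ^ e l)) →
    ∀ (q : ℕ) (z : A), z * ∏ l, x l ^ q ∈ Ideal.span (Set.range fun l => x l ^ (q + 1)) →
      z ∈ Ideal.span (Set.range x)

end Pool.Agent.KS6_68.BF
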