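import Mathlib

/-! Gradings of the polynomial ring in three variables. -/

set_option autoImplicit false

open MvPolynomial

namespace Pool.Agent.KS6_68.BF

/-- The polynomial ring `k[X 0, X 1, X 2]`. -/
abbrev D (k : Type) [Field k] : Type := MvPolynomial (Fin 3) k

section grad

variable {A : Type} [AddCommGroup A] {k : Type} [Field k] {w : Fin 3 → A}

/-- homogeneous components -/
noncomputable abbrev cmp (w : Fin 3 → A) (a : A) : D k →ₗ[k] D k :=
  weightedHomogeneousComponent w a

theorem cmp_homog (a : A) (f : D k) : IsWeightedHomogeneous w (cmp w a f) a :=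
  weightedHomogeneousComponent_isWeightedHomogeneous a f

theorem cmp_mul {f : D k} {a : A} (hf : IsWeightedHomogeneous w f a) (b : A) (g : D k) :
    cmp w (a + b) (f * g) = f * cmp w b g := by
  classical
  induction g using MvPolynomial.induction_on' with
  | monomial m c =>
    have h1 : IsWeightedHomogeneous w (monomial m c : D k) (Finsupp.weight w m) :=
      isWeightedHomogeneous_monomial w m c rfl
    have h2 := hf.mul h1
    by_cases h : Finsupp.weight w m = b
    · rw [h] at h1 h2
      rw [cmp, cmp, h1.weightedHomogeneousComponent_same, h2.weightedHomogeneousComponent_same]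
    · rw [cmp, cmp, h1.weightedHomogeneousComponent_ne b (Ne.symm h),
        h2.weightedHomogeneousComponent_ne (a + b) (fun e => h (add_left_cancel e).symm), mul_zero]
  | add p q hp hq => rw [mul_add, map_add, hp, hq, map_add, mul_add]

theorem cmp_mul' {f : D k} (hf : IsWeightedHomogeneous w f 0) (b : A) (g : D k) :
    cmp w b (f * g) = f * cmp w b g := by
  have := cmp_mul hf b g
  rwa [zero_add] at this

theorem cmp_self {f : D k} {a : A} (hf : IsWeightedHomogeneous w f a) : cmp w a f = f :=
  hf.weightedHomogeneousComponent_same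

theorem cmp_ne {f : D k} {a b : A} (hf : IsWeightedHomogeneous w f a) (h : a ≠ b) :
    cmp w b f = 0 := hf.weightedHomogeneousComponent_ne b h.symm

theorem homog_of_cmp {g : D k} {c : A} (h : ∀ b, b ≠ c → cmp w b g = 0) :
    IsWeightedHomogeneous w g c := by
  classical
  intro d hd
  by_contra hne
  have h1 := h _ hne
  have h2 := congrArg (coeff d) h1
  rw [cmp, coeff_weightedHomogeneousComponent, if_pos rfl, coeff_zero] at h2
  exact hd h2

theorem homog_of_mul {f g : D k} {a c : A} (hf0 : f ≠ 0) (hf : IsWeightedHomogeneous w f a)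
    (hfg : IsWeightedHomogeneous w (f * g) c) : IsWeightedHomogeneous w g (c - a) := by
  apply homog_of_cmp
  intro b hb
  have h1 := cmp_mul hf b g
  rw [cmp_ne hfg (fun e => hb (by rw [e]; abel))] at h1
  exact (mul_eq_zero.1 h1.symm).resolve_left hf0

theorem mem_span_range' {R : Type} [CommRing R] {n : ℕ} (y : Fin n → R) (z : R) :
    z ∈ Ideal.span (Set.range y) ↔ ∃ c : Fin n → R, z = ∑ l, y l * c l := by
  rw [Ideal.mem_span_range_iff_exists_fun]
  constructor
  · rintro ⟨c, hc⟩
    exact ⟨c, by rw [← hc]; exact Finset.sum_congr rfl fun _ _ => mul_comm _ _⟩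
  · rintro ⟨c, hc⟩
    exact ⟨c, by rw [hc]; exact Finset.sum_congr rfl fun _ _ => mul_comm _ _⟩

theorem mem_span_homog {n : ℕ} {y : Fin n → D k} (hy : ∀ l, IsWeightedHomogeneous w (y l) 0)
    {b : D k} {e : A} (hb : IsWeightedHomogeneous w b e) (h : b ∈ Ideal.span (Set.range y)) :
    ∃ β : Fin n → D k, (∀ l, IsWeightedHomogeneous w (β l) e) ∧ b = ∑ l, y l * β l := by
  obtain ⟨c, hc⟩ := (mem_span_range' y b).1 h
  refine ⟨fun l => cmp w e (c l), fun l => cmp_homog _ _, ?_⟩
  have h1 := congrArg (cmp w e) hc
  rw [cmp_self hb, map_sum] at h1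
  rw [h1]
  exact Finset.sum_congr rfl fun l _ => cmp_mul' (hy l) e (c l)

theorem sum_cmp [Fintype A] (f : D k) : ∑ a : A, cmp w a f = f := by
  classical
  ext d
  rw [coeff_sum]
  rw [Finset.sum_eq_single (Finsupp.weight w d)]
  · rw [cmp, coeff_weightedHomogeneousComponent, if_pos rfl]
  · intro b _ hb
    rw [cmp, coeff_weightedHomogeneousComponent, if_neg (fun e => hb e.symm)]
  · intro h
    exact absurd (Finset.mem_univ _) h

theorem homog_sum_monomials {f : D k} {a : A} (h : ∀ m ∈ f.support, Finsupp.weight w m = a) :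
    IsWeightedHomogeneous w f a := by
  intro d hd
  exact h d (mem_support_iff.2 hd)

theorem weight_three (m : Fin 3 →₀ ℕ) :
    Finsupp.weight w m = m 0 • w 0 + m 1 • w 1 + m 2 • w 2 := by
  rw [Finsupp.weight_apply, Finsupp.sum_fintype _ _ (by simp), Fin.sum_univ_three]

end grad

end Pool.Agent.KS6_68.BF
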