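import Pool.Agent.KS6_68.BF.NegR

/-! The class which shows that hyperplane sections of the example are not F-injective. -/

set_option autoImplicit false
set_option maxHeartbeats 400000

open MvPolynomial IsLocalRing

namespace Pool.Agent.KS6_68.BF

attribute [-instance] ZMod.instField

section

variable (p : ℕ) [hp : Fact p.Prime] (k : Type) [Field k]

/-- the index `p - 1` -/
def ip : Fin p := ⟨p - 1, Nat.sub_lt hp.out.pos Nat.one_pos⟩
/-- the index `0` -/
def i0 : Fin p := ⟨0, hp.out.pos⟩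
/-- the index `1` -/
def i1 : Fin p := ⟨1, hp.out.one_lt⟩

/-- `(X 1) ^ (p * (p - 1)) * (X 2) ^ p` -/
noncomputable def d0 : R p k := ⟨X 1 ^ (p * (p - 1)) * X 2 ^ p, by
  have h := mem_gen0 (p := p) (k := k) hp.out.pos (i := p - 1) (Nat.sub_le p 1)
  have e : p - (p - 1) = 1 := by have := hp.out.pos; omega
  rwa [e, Nat.mul_one] at h⟩

/-- the class of `h` -/
noncomputable def z0 (q : k) : R p k :=
  algebraMap k (R p k) q * r p k (Sum.inr (ip p, i0 p)) + r p k (Sum.inr (ip p, i1 p))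

variable {p k}

theorem coe_r (j i : Fin p) : ((r p k (Sum.inr (j, i)) : R p k) : D k) =
    ww p k j * (X 1 ^ (p * i) * X 2 ^ (p * (p - 1 - i))) := rfl

theorem coe_d0 : ((d0 p k : R p k) : D k) = X 1 ^ (p * (p - 1)) * X 2 ^ p := rfl
theorem coe_uu : ((uu p k : R p k) : D k) = X 1 ^ p ^ 2 := rfl
theorem coe_vv : ((vv p k : R p k) : D k) = X 2 ^ p ^ 2 := rfl
theorem coe_tt : ((tt p k : R p k) : D k) = X 0 ^ p := rfl

theorem ip_val : ((ip p : Fin p) : ℕ) = p - 1 := rfl

theorem gam_p [CharP k p] : gam p k ^ p = X 1 ^ p ^ 2 + X 0 ^ p * X 2 ^ p ^ 2 := by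
  rw [gam, add_pow_char, mul_pow, ← pow_mul, ← pow_mul, ← pow_two]

theorem ww_p [CharP k p] : ww p k (p - 1) ^ p =
    (X 1 ^ (p * (p - 1)) * X 2 ^ p) * (X 1 ^ p ^ 2 + X 0 ^ p * X 2 ^ p ^ 2) ^ (p - 1) := by
  have e : p - (p - 1) = 1 := by have := hp.out.pos; omega
  rw [ww, e, pow_one, ← gam_p]
  have e1 : (X 1 : D k) ^ (p * (p - 1)) = (X 1 ^ (p - 1)) ^ p := by rw [← pow_mul, mul_comm]
  have e2 : (gam p k ^ p) ^ (p - 1) = (gam p k ^ (p - 1)) ^ p := by
    rw [← pow_mul, ← pow_mul, mul_comm]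
  rw [e1, e2, ← mul_pow, ← mul_pow, mul_pow (X 1)]
  congr 1
  ring

variable [CharP k p]

theorem g0_p : r p k (Sum.inr (ip p, i0 p)) ^ p =
    vv p k ^ (p - 1) * (d0 p k * (uu p k + tt p k * vv p k) ^ (p - 1)) := by
  apply Subtype.ext
  simp only [Subalgebra.coe_pow, Subalgebra.coe_mul, Subalgebra.coe_add, coe_r, coe_d0, coe_uu,
    coe_vv, coe_tt]
  change (ww p k (p - 1) * (X 1 ^ (p * 0) * X 2 ^ (p * (p - 1 - 0)))) ^ p = _
  rw [Nat.mul_zero, pow_zero, one_mul, Nat.sub_zero, mul_pow, ww_p]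
  have e : ((X 2 : D k) ^ (p * (p - 1))) ^ p = (X 2 ^ p ^ 2) ^ (p - 1) := by
    rw [← pow_mul, ← pow_mul]; congr 1; ring
  rw [e]
  ring

theorem g1_p : r p k (Sum.inr (ip p, i1 p)) ^ p =
    uu p k * vv p k ^ (p - 2) * (d0 p k * (uu p k + tt p k * vv p k) ^ (p - 1)) := by
  apply Subtype.ext
  simp only [Subalgebra.coe_pow, Subalgebra.coe_mul, Subalgebra.coe_add, coe_r, coe_d0, coe_uu,
    coe_vv, coe_tt]
  change (ww p k (p - 1) * (X 1 ^ (p * 1) * X 2 ^ (p * (p - 1 - 1)))) ^ p = _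
  rw [Nat.mul_one, Nat.sub_sub, mul_pow, ww_p, mul_pow]
  have e : ((X 2 : D k) ^ (p * (p - (1 + 1)))) ^ p = (X 2 ^ p ^ 2) ^ (p - 2) := by
    rw [← pow_mul, ← pow_mul]; congr 1; ring
  have e2 : ((X 1 : D k) ^ p) ^ p = X 1 ^ p ^ 2 := by rw [← pow_mul, pow_two]
  rw [e, e2]
  ring

theorem gen_d0 (j i : Fin p) : r p k (Sum.inr (j, i)) * d0 p k ∈ Ideal.span {uu p k, vv p k} := by
  have hp2 := hp.out.two_le
  rw [mem_span2]
  by_cases hi : (i : ℕ) = 0
  · refine ⟨0, r p k (Sum.inr (j, ip p)), ?_⟩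
    apply Subtype.ext
    simp only [Subalgebra.coe_mul, Subalgebra.coe_add, coe_r, coe_d0, coe_uu, coe_vv, hi,
      ip_val]
    rw [ZeroMemClass.coe_zero, Nat.sub_zero, Nat.sub_self, Nat.mul_zero, pow_zero, pow_zero]
    have e : (X 2 : D k) ^ p ^ 2 = X 2 ^ (p * (p - 1)) * X 2 ^ p := by
      rw [← pow_add]
      congr 1
      obtain ⟨m, rfl⟩ : ∃ m, p = m + 1 := ⟨p - 1, by omega⟩
      rw [Nat.add_sub_cancel]
      ring
    rw [e]
    ring
  · have hi' := i.2
    obtain ⟨m, hm⟩ : ∃ m, (i : ℕ) = m + 1 := ⟨i - 1, by omega⟩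
    refine ⟨r p k (Sum.inr (j, ⟨m, by omega⟩)), 0, ?_⟩
    apply Subtype.ext
    simp only [Subalgebra.coe_mul, Subalgebra.coe_add, coe_r, coe_d0, coe_uu, coe_vv, hm]
    rw [ZeroMemClass.coe_zero, mul_zero, add_zero]
    have e1 : (X 1 : D k) ^ p ^ 2 = X 1 ^ (p * (p - 1)) * X 1 ^ p := by
      rw [← pow_add]
      congr 1
      obtain ⟨m, rfl⟩ : ∃ m, p = m + 1 := ⟨p - 1, by omega⟩
      rw [Nat.add_sub_cancel]
      ring
    have e2 : (X 2 : D k) ^ (p * (p - 1 - m)) = X 2 ^ (p * (p - 1 - (m + 1))) * X 2 ^ p := by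
      rw [← pow_add]
      congr 1
      have : p - 1 - m = (p - 1 - (m + 1)) + 1 := by omega
      rw [this]
      ring
    rw [e1, e2, Nat.mul_add, Nat.mul_one, pow_add]
    ring

theorem G1 (a : Option (Fin 2 ⊕ Fin p × Fin p) → k) (q : k) (ha : a (some (Sum.inl 0)) ≠ 0)
    (hq : a none + a (some (Sum.inl 0)) * q ^ p = 0) :
    z0 p k q ^ p ∈ Ideal.span {uu p k ^ p, vv p k ^ p, hyp p k a} := by
  have hpp := hp.out
  have hp2 := hpp.two_le
  have hcharR : CharP (R p k) p := charP_of_injective_algebraMap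
    (algebraMap k (R p k)).injective p
  set J := Ideal.span {uu p k ^ p, vv p k ^ p, hyp p k a} with hJ
  have mu : uu p k ^ p ∈ J := Ideal.subset_span (by simp)
  have mv : vv p k ^ p ∈ J := Ideal.subset_span (by simp)
  have mh : hyp p k a ∈ J := Ideal.subset_span (by simp)
  set Q := algebraMap k (R p k) q with hQ
  set Y := uu p k + tt p k * vv p k with hY
  have ev1 : vv p k ^ (p - 1) = vv p k * vv p k ^ (p - 2) := by
    rw [← pow_succ']; congr 1; omega
  have ev2 : vv p k ^ p = vv p k ^ (p - 1) * vv p k := by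
    rw [← pow_succ]; congr 1; omega
  have eu2 : uu p k ^ p = uu p k ^ (p - 1) * uu p k := by
    rw [← pow_succ]; congr 1; omega
  have eY : Y ^ p = uu p k ^ p + tt p k ^ p * vv p k ^ p := by
    rw [hY, add_pow_char, mul_pow]
  have eY2 : Y ^ p = Y * Y ^ (p - 1) := by
    rw [← pow_succ']; congr 1; omega
  -- the binomial
  obtain ⟨y, hy⟩ : ∃ y, Y ^ (p - 1) - uu p k ^ (p - 1) = (Y - uu p k) * y :=
    sub_dvd_pow_sub_pow Y (uu p k) (p - 1)
  have hYu : Y - uu p k = tt p k * vv p k := by rw [hY]; ring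
  have hz : z0 p k q ^ p = vv p k ^ (p - 2) * d0 p k * (uu p k ^ p + tt p k ^ p * vv p k ^ p) +
      (Q ^ p - tt p k) * vv p k ^ p * d0 p k * (tt p k * y) +
      (Q ^ p - tt p k) * d0 p k * (uu p k ^ (p - 1) * vv p k ^ (p - 1)) := by
    rw [z0, add_pow_char, mul_pow, g0_p, g1_p, ← eY, eY2, ← hY, ev2, ev1]
    linear_combination ((Q ^ p - tt p k) * (vv p k * vv p k ^ (p - 2)) * d0 p k) *
      (hy + y * hYu)
  rw [hz]
  refine J.add_mem (J.add_mem ?_ ?_) ?_
  · exact J.mul_mem_left _ (J.add_mem mu (J.mul_mem_left _ mv))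
  · have e : (Q ^ p - tt p k) * vv p k ^ p * d0 p k * (tt p k * y) =
      ((Q ^ p - tt p k) * d0 p k * (tt p k * y)) * vv p k ^ p := by ring
    rw [e]
    exact J.mul_mem_left _ mv
  · -- use the hyperplane
    have e2 : algebraMap k (R p k) (a (some (Sum.inl 0))) * (Q ^ p - tt p k) =
        (algebraMap k (R p k) (a (some (Sum.inl 1))) * uu p k +
      ∑ ji : Fin p × Fin p, algebraMap k (R p k) (a (some (Sum.inr ji))) *
        r p k (Sum.inr ji)) - hyp p k a := by
      rw [hyp_eq]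
      have h2 := congrArg (algebraMap k (R p k)) hq
      rw [map_add, map_mul, map_zero, map_pow] at h2
      linear_combination h2
    have e4 : (Q ^ p - tt p k) = algebraMap k (R p k) ((a (some (Sum.inl 0)))⁻¹) *
        (algebraMap k (R p k) (a (some (Sum.inl 0))) * (Q ^ p - tt p k)) := by
      rw [← mul_assoc, ← map_mul, inv_mul_cancel₀ ha, map_one, one_mul]
    have e5 : (Q ^ p - tt p k) * d0 p k * (uu p k ^ (p - 1) * vv p k ^ (p - 1)) =
        algebraMap k (R p k) ((a (some (Sum.inl 0)))⁻¹) *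
        ((algebraMap k (R p k) (a (some (Sum.inl 0))) * (Q ^ p - tt p k)) * d0 p k *
          (uu p k ^ (p - 1) * vv p k ^ (p - 1))) := by
      conv_lhs => rw [e4]
      ring
    rw [e5, e2]
    apply J.mul_mem_left
    rw [sub_mul, sub_mul, add_mul, add_mul]
    refine J.sub_mem (J.add_mem ?_ ?_) ?_
    · have e : algebraMap k (R p k) (a (some (Sum.inl 1))) * uu p k * d0 p k *
          (uu p k ^ (p - 1) * vv p k ^ (p - 1)) =
          (algebraMap k (R p k) (a (some (Sum.inl 1))) * d0 p k * vv p k ^ (p - 1)) *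
          uu p k ^ p := by rw [eu2]; ring
      rw [e]
      exact J.mul_mem_left _ mu
    · rw [Finset.sum_mul, Finset.sum_mul]
      refine J.sum_mem fun ji _ => ?_
      obtain ⟨j, i⟩ := ji
      obtain ⟨c, d, hcd⟩ := (mem_span2 _ _ _).1 (gen_d0 (k := k) j i)
      have e : algebraMap k (R p k) (a (some (Sum.inr (j, i)))) * r p k (Sum.inr (j, i)) *
          d0 p k * (uu p k ^ (p - 1) * vv p k ^ (p - 1)) =
          (algebraMap k (R p k) (a (some (Sum.inr (j, i)))) * c * vv p k ^ (p - 1)) *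
          uu p k ^ p + (algebraMap k (R p k) (a (some (Sum.inr (j, i)))) * d *
          uu p k ^ (p - 1)) * vv p k ^ p := by
        rw [eu2, ev2]
        linear_combination (algebraMap k (R p k) (a (some (Sum.inr (j, i)))) *
          (uu p k ^ (p - 1) * vv p k ^ (p - 1))) * hcd
      rw [e]
      exact J.add_mem (J.mul_mem_left _ mu) (J.mul_mem_left _ mv)
    · have e : hyp p k a * d0 p k * (uu p k ^ (p - 1) * vv p k ^ (p - 1)) =
        (d0 p k * (uu p k ^ (p - 1) * vv p k ^ (p - 1))) * hyp p k a := by ring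
      rw [e]
      exact J.mul_mem_left _ mh

/-! ### non-membership -/

/-- the degree in `X 1`, `X 2` -/
def Wz : Fin 3 → ℤ := ![0, 1, 1]

omit hp [CharP k p] in
theorem wz (m : Fin 3 →₀ ℕ) : Finsupp.weight Wz m = (m 1 : ℤ) + m 2 := by
  rw [weight_three]
  simp [Wz]

omit hp [CharP k p] in
theorem cmp0 (f : D k) : cmp Wz 0 f = f2 k f := by
  induction f using MvPolynomial.induction_on' with
  | monomial m c =>
    by_cases h : m 1 + m 2 = 0
    · have h1 : m 1 = 0 := by omega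
      have h2 : m 2 = 0 := by omega
      have h3 : IsWeightedHomogeneous Wz (monomial m c : D k) 0 :=
        isWeightedHomogeneous_monomial _ _ _ (by rw [wz, h1, h2]; rfl)
      rw [cmp_self h3, monomial_three, map_mul, map_mul, map_mul, map_pow, map_pow, map_pow, h1,
        h2]
      simp [f2]
    · have h3 : IsWeightedHomogeneous Wz (monomial m c : D k) ((m 1 : ℤ) + m 2) :=
        isWeightedHomogeneous_monomial _ _ _ (wz m)
      rw [cmp_ne h3 (by omega), monomial_three, map_mul, map_mul, map_mul, map_pow, map_pow,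
        map_pow]
      rcases Nat.eq_zero_or_pos (m 1) with h1 | h1
      · have h2 : m 2 ≠ 0 := by omega
        simp [f2, h2]
      · have h2 : m 1 ≠ 0 := by omega
        simp [f2, h2]
  | add f g hf hg => rw [map_add, map_add, hf, hg]

variable (p k) in
/-- degrees `0` or `≥ p ^ 2` -/
def Gap : Subalgebra k (D k) where
  carrier := {f | ∀ m ∈ f.support, m 1 + m 2 = 0 ∨ p ^ 2 ≤ m 1 + m 2}
  mul_mem' := by
    classical
    intro f g hf hg m hm
    obtain ⟨m', hm', m'', hm'', rfl⟩ := Finset.mem_add.1 (support_mul f g hm)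
    have h1 := hf m' hm'
    have h2 := hg m'' hm''
    simp only [Finsupp.add_apply]
    omega
  add_mem' := fun {f g} hf hg => supp_add
    (T := fun m => m 1 + m 2 = 0 ∨ p ^ 2 ≤ m 1 + m 2) hf hg
  algebraMap_mem' := by
    intro c m hm
    rw [algebraMap_eq, C_apply] at hm
    have h := support_monomial_subset hm
    rw [Finset.mem_singleton] at h
    rw [h]
    exact Or.inl rfl

omit hp [CharP k p] in
theorem homog_gap {f : D k} {d : ℤ} (hf : IsWeightedHomogeneous Wz f d)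
    (h : d = 0 ∨ (p : ℤ) ^ 2 ≤ d) : f ∈ Gap p k := by
  intro m hm
  have h1 := hf (mem_support_iff.1 hm)
  rw [wz] at h1
  rcases h with h | h
  · left; omega
  · right
    zify
    omega

omit hp [CharP k p] in
theorem hWz_X0 : IsWeightedHomogeneous Wz (X 0 : D k) 0 := isWeightedHomogeneous_X k Wz 0
omit hp [CharP k p] in
theorem hWz_X1 : IsWeightedHomogeneous Wz (X 1 : D k) 1 := isWeightedHomogeneous_X k Wz 1
omit hp [CharP k p] in
theorem hWz_X2 : IsWeightedHomogeneous Wz (X 2 : D k) 1 := isWeightedHomogeneous_X k Wz 2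

omit hp [CharP k p] in
theorem hWz_gam : IsWeightedHomogeneous Wz (gam p k) p := by
  have h1 := (hWz_X1 (k := k)).pow p
  have h2 := (hWz_X0 (k := k)).mul ((hWz_X2 (k := k)).pow p)
  have e1 : p • (1 : ℤ) = p := by simp
  have e2 : (0 : ℤ) + p • (1 : ℤ) = p := by simp
  rw [e1] at h1
  rw [e2] at h2
  exact h1.add h2

theorem hWz_ww {j : ℕ} (hj : j < p) : IsWeightedHomogeneous Wz (ww p k j) (p * (j + 1)) := by
  have h := (((hWz_X1 (k := k)).mul (hWz_gam (p := p))).pow j).mul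
    ((hWz_X2 (k := k)).pow (p - j))
  have e : j • ((1 : ℤ) + p) + (p - j) • (1 : ℤ) = p * (j + 1) := by
    rw [nsmul_eq_mul, nsmul_eq_mul, Nat.cast_sub hj.le]
    ring
  rw [e] at h
  exact h

theorem hWz_gen (j i : Fin p) : IsWeightedHomogeneous Wz (gen p k (Sum.inr (j, i)))
    ((p : ℤ) ^ 2 + p * j) := by
  have h := (hWz_ww (k := k) j.2).mul
    (((hWz_X1 (k := k)).pow (p * i)).mul ((hWz_X2 (k := k)).pow (p * (p - 1 - i))))
  have hi := i.2
  have e : ((p : ℤ) * ((j : ℕ) + 1)) + ((p * i : ℕ) • (1 : ℤ) + (p * (p - 1 - i) : ℕ) • (1 : ℤ)) =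
      (p : ℤ) ^ 2 + p * (j : ℕ) := by
    rw [nsmul_eq_mul, nsmul_eq_mul, Nat.cast_mul, Nat.cast_mul, Nat.sub_sub,
      Nat.cast_sub (by omega)]
    push_cast
    ring
  rw [e] at h
  exact h

omit hp [CharP k p] in
theorem hWz_uu : IsWeightedHomogeneous Wz (X 1 ^ p ^ 2 : D k) ((p : ℤ) ^ 2) := by
  have h := (hWz_X1 (k := k)).pow (p ^ 2)
  have e : (p ^ 2) • (1 : ℤ) = (p : ℤ) ^ 2 := by simp
  rwa [e] at h

omit hp [CharP k p] in
theorem hWz_vv : IsWeightedHomogeneous Wz (X 2 ^ p ^ 2 : D k) ((p : ℤ) ^ 2) := by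
  have h := (hWz_X2 (k := k)).pow (p ^ 2)
  have e : (p ^ 2) • (1 : ℤ) = (p : ℤ) ^ 2 := by simp
  rwa [e] at h

theorem R_le_Gap : R p k ≤ Gap p k := by
  rw [Algebra.adjoin_le_iff]
  rintro _ ⟨i, rfl⟩
  rcases i with i | ⟨j, i⟩
  · fin_cases i
    · have h := (hWz_X0 (k := k)).pow p
      rw [smul_zero] at h
      exact homog_gap h (Or.inl rfl)
    · exact homog_gap hWz_uu (Or.inr le_rfl)
  · refine homog_gap (hWz_gen j i) (Or.inr ?_)
    have : (0 : ℤ) ≤ (p : ℤ) * (j : ℕ) := by positivity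
    linarith

theorem cmp_gap (s : R p k) {d : ℤ} (h1 : 0 < d) (h2 : d < (p : ℤ) ^ 2) :
    cmp Wz d (s : D k) = 0 := by
  classical
  ext m
  rw [cmp, coeff_weightedHomogeneousComponent, coeff_zero]
  split_ifs with h
  · by_contra h3
    have h4 := R_le_Gap s.2 m (mem_support_iff.2 h3)
    rw [wz] at h
    rcases h4 with h4 | h4
    · omega
    · zify at h4
      omega
  · rfl

omit hp [CharP k p] in
theorem f2_X2 {f : D k} (h : X 2 ∣ f) : f2 k f = 0 := by
  obtain ⟨d, rfl⟩ := h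
  rw [map_mul]
  simp [f2]

theorem f2_uu : f2 k (X 1 ^ p ^ 2) = 0 := by
  rw [map_pow]
  have h : f2 k (X 1) = 0 := by simp [f2]
  rw [h]
  exact zero_pow (pow_ne_zero 2 hp.out.ne_zero)

theorem f2_vv : f2 k (X 2 ^ p ^ 2) = 0 := by
  rw [map_pow]
  have h : f2 k (X 2) = 0 := by simp [f2]
  rw [h]
  exact zero_pow (pow_ne_zero 2 hp.out.ne_zero)

/-- `X 0 ↦ q` -/
noncomputable def pq (k : Type) [Field k] (q : k) : D k →ₐ[k] D k := aeval ![C q, X 1, X 2]

omit hp [CharP k p] in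
theorem ev_pq (q : k) (f : D k) :
    aeval (![0, 0, 0] : Fin 3 → k) (pq k q f) = aeval ![q, 0, 0] f := by
  have h : (aeval (![0, 0, 0] : Fin 3 → k)).comp (pq k q) = aeval ![q, 0, 0] := by
    apply MvPolynomial.algHom_ext
    intro i
    fin_cases i <;> simp [pq]
  exact congrArg (fun g => g f) h

omit hp [CharP k p] in
theorem lin_ne (q : k) (hp0 : p ≠ 0) : (X 1 ^ p + C q * X 2 ^ p : D k) ≠ 0 := by
  intro h
  have h1 := congrArg (aeval (![0, 1, 0] : Fin 3 → k)) h
  simp [hp0] at h1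

theorem coe_z0 (q : k) : ((z0 p k q : R p k) : D k) =
    ww p k (p - 1) * (X 2 ^ (p * (p - 2)) * (X 1 ^ p + C q * X 2 ^ p)) := by
  have hp2 := hp.out.two_le
  rw [z0, Subalgebra.coe_add, Subalgebra.coe_mul, coe_r, coe_r]
  change C q * (ww p k (p - 1) * (X 1 ^ (p * 0) * X 2 ^ (p * (p - 1 - 0)))) +
    (ww p k (p - 1) * (X 1 ^ (p * 1) * X 2 ^ (p * (p - 1 - 1)))) = _
  have e : (X 2 : D k) ^ (p * (p - 1 - 0)) = X 2 ^ (p * (p - 2)) * X 2 ^ p := by
    rw [← pow_add]
    congr 1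
    obtain ⟨m, rfl⟩ : ∃ m, p = m + 2 := ⟨p - 2, by omega⟩
    have e1 : m + 2 - 1 - 0 = m + 1 := by omega
    have e2 : m + 2 - 2 = m := by omega
    rw [e1, e2]
    ring
  rw [e, Nat.mul_zero, pow_zero, one_mul, Nat.mul_one, Nat.sub_sub]
  ring

theorem pq_z0 (q : k) : pq k q (z0 p k q : D k) ≠ 0 := by
  have hp0 := hp.out.ne_zero
  have e0 : pq k q (X 0) = C q := by simp [pq]
  have e1 : pq k q (X 1) = X 1 := by simp [pq]
  have e2 : pq k q (X 2) = X 2 := by simp [pq]
  have eg : pq k q (gam p k) = X 1 ^ p + C q * X 2 ^ p := by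
    rw [gam, map_add, map_mul, map_pow, map_pow, e0, e1, e2]
  have ec : pq k q (C q) = C q := by
    rw [← algebraMap_eq, AlgHom.commutes]
  rw [coe_z0, ww]
  simp only [map_mul, map_add, map_pow, e1, e2, eg, ec]
  have h1 := lin_ne (p := p) q hp0
  have h2 : (X 1 : D k) ≠ 0 := X_ne_zero 1
  have h3 : (X 2 : D k) ≠ 0 := X_ne_zero 2
  exact mul_ne_zero (mul_ne_zero (pow_ne_zero _ (mul_ne_zero h2 h1)) (pow_ne_zero _ h3))
    (mul_ne_zero (pow_ne_zero _ h3) h1)

theorem G2' (a : Option (Fin 2 ⊕ Fin p × Fin p) → k) (q : k) (ha : a (some (Sum.inl 0)) ≠ 0)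
    (hq : a none + a (some (Sum.inl 0)) * q ^ p = 0) (u : R p k)
    (hu : u * z0 p k q ∈ Ideal.span {uu p k, vv p k, hyp p k a}) : evq p k q u = 0 := by
  have hpp := hp.out
  have hp2 := hpp.two_le
  rw [Ideal.mem_span_insert] at hu
  obtain ⟨al, w, hw, hu⟩ := hu
  obtain ⟨be, s, rfl⟩ := (mem_span2 _ _ _).1 hw
  have hD := congrArg (fun z : R p k => (z : D k)) hu
  simp only [Subalgebra.coe_mul, Subalgebra.coe_add, coe_uu, coe_vv] at hD
  obtain ⟨A0, hA0⟩ : ∃ A0 : D k, A0 = C (a none) + C (a (some (Sum.inl 0))) * X 0 ^ p :=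
    ⟨_, rfl⟩
  have hh : ((hyp p k a : R p k) : D k) = A0 + (C (a (some (Sum.inl 1))) * X 1 ^ p ^ 2 +
      ∑ ji : Fin p × Fin p, C (a (some (Sum.inr ji))) * gen p k (Sum.inr ji)) := by
    rw [hyp_eq, hA0]
    simp only [Subalgebra.coe_mul, Subalgebra.coe_add, AddSubmonoidClass.coe_finset_sum]
    rfl
  rw [hh] at hD
  -- the constant term of `s`
  have hgen : ∀ j i, f2 k (gen p k (Sum.inr (j, i))) = 0 := fun j i => f2_X2 (gen_dvd j i)
  have hz2 : f2 k (z0 p k q : D k) = 0 := by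
    apply f2_X2
    rw [coe_z0, ww]
    have e : p - (p - 1) = 1 := by omega
    rw [e, pow_one]
    exact Dvd.intro_left ((X 1 * gam p k) ^ (p - 1) *
      (X 2 ^ (p * (p - 2)) * (X 1 ^ p + C q * X 2 ^ p))) (by ring)
  have hs : f2 k (s : D k) = 0 := by
    have h1 := congrArg (f2 k) hD
    simp only [map_add, map_mul, map_sum, hz2, f2_uu, f2_vv, mul_zero, zero_mul, zero_add] at h1
    rw [Finset.sum_eq_zero (fun ji _ => by
      obtain ⟨j, i⟩ := ji
      rw [hgen, mul_zero]), add_zero] at h1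
    have h2 : f2 k A0 = A0 := by
      rw [hA0, map_add, map_mul, map_pow, ← algebraMap_eq, AlgHom.commutes, AlgHom.commutes]
      simp [f2]
    rw [h2] at h1
    refine (mul_eq_zero.1 h1.symm).resolve_left ?_
    intro h3
    have h4 := congrArg (coeff (Finsupp.single 0 p)) h3
    rw [hA0, coeff_add, coeff_C, coeff_C_mul, coeff_X_pow, coeff_zero, if_neg, if_pos rfl,
      zero_add, mul_one] at h4
    · exact ha h4
    · intro h5
      have h6 := DFunLike.congr_fun h5 0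
      rw [Finsupp.single_eq_same] at h6
      exact hpp.ne_zero h6.symm
  have hs0 : cmp Wz 0 (s : D k) = 0 := by rw [cmp0, hs]
  -- the component of degree `p ^ 2 + p * (p - 1)`
  have hpz : (2 : ℤ) ≤ p := by exact_mod_cast hp2
  have hip : ((ip p : ℕ) : ℤ) = p - 1 := by
    rw [ip_val, Nat.cast_sub hpp.pos, Nat.cast_one]
  set d : ℤ := (p : ℤ) ^ 2 + p * (p - 1) with hd
  have hz : IsWeightedHomogeneous Wz (z0 p k q : D k) d := by
    have h1 := hWz_gen (k := k) (ip p) (i0 p)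
    have h2 := hWz_gen (k := k) (ip p) (i1 p)
    rw [hip, ← hd] at h1 h2
    have h3 := (isWeightedHomogeneous_C Wz q).mul h1
    rw [zero_add] at h3
    exact h3.add h2
  have hA0h : IsWeightedHomogeneous Wz A0 0 := by
    have h1 := (hWz_X0 (k := k)).pow p
    rw [smul_zero] at h1
    have h2 := (isWeightedHomogeneous_C Wz (a (some (Sum.inl 0)))).mul h1
    rw [zero_add] at h2
    rw [hA0]
    exact (isWeightedHomogeneous_C Wz (a none)).add h2
  have c1 : cmp Wz d ((u : D k) * (z0 p k q : D k)) =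
      (z0 p k q : D k) * cmp Wz 0 (u : D k) := by
    have := cmp_mul hz 0 (u : D k)
    rwa [add_zero, mul_comm (z0 p k q : D k) u] at this
  have c2 : cmp Wz d ((al : D k) * X 1 ^ p ^ 2) = 0 := by
    have := cmp_mul (hWz_uu (p := p) (k := k)) (p * (p - 1)) (al : D k)
    rw [mul_comm, this, cmp_gap, mul_zero]
    · exact mul_pos (by linarith) (by linarith)
    · nlinarith
  have c3 : cmp Wz d (X 2 ^ p ^ 2 * (be : D k)) = 0 := by
    have := cmp_mul (hWz_vv (p := p) (k := k)) (p * (p - 1)) (be : D k)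
    rw [this, cmp_gap, mul_zero]
    · exact mul_pos (by linarith) (by linarith)
    · nlinarith
  have c4 : cmp Wz d (X 1 ^ p ^ 2 * (s : D k)) = 0 := by
    have := cmp_mul (hWz_uu (p := p) (k := k)) (p * (p - 1)) (s : D k)
    rw [this, cmp_gap, mul_zero]
    · exact mul_pos (by linarith) (by linarith)
    · nlinarith
  have c5 : ∀ j i, cmp Wz d (gen p k (Sum.inr (j, i)) * (s : D k)) = 0 := by
    intro j i
    have hj : ((j : ℕ) : ℤ) ≤ p - 1 := by have := j.2; omega
    have hj0 : (0 : ℤ) ≤ ((j : ℕ) : ℤ) := by positivity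
    have := cmp_mul (hWz_gen (k := k) j i) (p * (p - 1 - ((j : ℕ) : ℤ))) (s : D k)
    have e : (p : ℤ) ^ 2 + p * ((j : ℕ) : ℤ) + p * (p - 1 - ((j : ℕ) : ℤ)) = d := by
      rw [hd]; ring
    rw [e] at this
    rw [this]
    rcases hj.lt_or_eq with h | h
    · rw [cmp_gap, mul_zero]
      · exact mul_pos (by linarith) (by linarith)
      · nlinarith
    · have e2 : (p : ℤ) * (p - 1 - ((j : ℕ) : ℤ)) = 0 := by rw [h]; ring
      rw [e2, hs0, mul_zero]
  have c6 : cmp Wz d (A0 * (s : D k)) = A0 * cmp Wz d (s : D k) := cmp_mul' hA0h d _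
  have key : (z0 p k q : D k) * cmp Wz 0 (u : D k) = A0 * cmp Wz d (s : D k) := by
    have h1 := congrArg (cmp Wz d) hD
    rw [c1] at h1
    rw [h1, map_add, c2, zero_add, map_add, c3, zero_add, add_mul, map_add, c6, add_mul, map_add]
    have e1 : C (a (some (Sum.inl 1))) * X 1 ^ p ^ 2 * (s : D k) =
        a (some (Sum.inl 1)) • (X 1 ^ p ^ 2 * (s : D k)) := by
      rw [mul_assoc, C_mul']
    rw [e1, map_smul, c4, smul_zero, zero_add, Finset.sum_mul, map_sum, Finset.sum_eq_zero,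
      add_zero]
    rintro ⟨j, i⟩ _
    rw [mul_assoc, C_mul', map_smul, c5, smul_zero]
  -- evaluate
  have hA : pq k q A0 = 0 := by
    rw [hA0, map_add, map_mul, map_pow, ← algebraMap_eq, AlgHom.commutes, AlgHom.commutes]
    have e0 : pq k q (X 0) = C q := by simp [pq]
    rw [e0, ← algebraMap_eq, ← map_pow, ← map_mul, ← map_add, hq, map_zero]
  have h2 := congrArg (pq k q) key
  rw [map_mul, map_mul, hA, zero_mul] at h2
  have h3 := (mul_eq_zero.1 h2).resolve_left (pq_z0 q)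
  rw [evq_apply, ← ev_f2, AlgHom.comp_apply, ← cmp0, ← ev_pq, h3, map_zero]

/-- no section by a hyperplane that involves `X 0 ^ p` is F-injective -/
theorem not_fInjective [IsAlgClosed k] (a : Option (Fin 2 ⊕ Fin p × Fin p) → k)
    (ha : a (some (Sum.inl 0)) ≠ 0) : ¬ FInjective p (R p k ⧸ Ideal.span {hyp p k a}) := by
  obtain ⟨q, hq⟩ : ∃ q : k, a none + a (some (Sum.inl 0)) * q ^ p = 0 := by
    obtain ⟨q, hq⟩ := IsAlgClosed.exists_pow_nat_eq (- a none / a (some (Sum.inl 0)))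
      hp.out.pos
    refine ⟨q, ?_⟩
    rw [hq]
    field_simp
    ring
  have hnoeth := noethR (p := p) (k := k)
  have hcharR : CharP (R p k) p := charP_of_injective_algebraMap
    (algebraMap k (R p k)).injective p
  have hmem : E p k (polyX0 (Polynomial.X - Polynomial.C (q ^ p))) ∈ R p k :=
    E_mem_R (class_poly _)
  have hne : Polynomial.X - Polynomial.C (q ^ p) ≠ 0 := Polynomial.X_sub_C_ne_zero _
  refine Neg.negCore p (R p k) k (evq p k q).toRingHom (uu p k) (vv p k) (hyp p k a) (z0 p k q)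
    (evq_uu q) (evq_vv q) (evq_hyp a q hq) (G1 a q ha hq) ?_ (fun u hu => G3 a q ha hq u hu)
    (height_ge q)
  intro N u hu
  refine powers (evq p k q).toRingHom (uu p k) (vv p k) (hyp p k a) (z0 p k q)
    (⟨E p k (polyX0 (Polynomial.X - Polynomial.C (q ^ p))), hmem⟩ : R p k)
    (evq_uu q) (evq_vv q) ?_ (regRf _ hne hmem) (fun v hv => G3 a q ha hq v hv)
    (fun v hv => G2' a q ha hq v hv) N u hu
  change MvPolynomial.aeval ![q, 0, 0]
    (E p k (polyX0 (Polynomial.X - Polynomial.C (q ^ p)))) = 0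
  simp [polyX0]

end

end Pool.Agent.KS6_68.BF
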