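import Pool.Agent.KS6_68.BF.Zs
import Pool.Agent.KS6_68.BF.NegCore

/-! Hyperplane sections of the example (compare the library modules `H503R3.FR.TaskG1_helper798`,
`H347.FR.TaskG3`, `H510R3.FR.G4`, `H503R3.NF.TaskNegAlg_helper676` for `p = 2`). -/

set_option autoImplicit false
set_option maxHeartbeats 400000

open MvPolynomial IsLocalRing

namespace Pool.Agent.KS6_68.BF

attribute [-instance] ZMod.instField

/-! ### from `N = 0` to all `N` -/

theorem cancel {A : Type} [CommRing A] (x y h ζ : A) (i : ℕ)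
    (H : H1van A ![x ^ i, y, h]) (hζ : x ^ i * ζ ∈ Ideal.span {x ^ (i + 1), y, h}) :
    ζ ∈ Ideal.span {x, y, h} := by
  rw [Ideal.mem_span_insert] at hζ
  obtain ⟨al, b, hb, hab⟩ := hζ
  rw [Ideal.mem_span_pair] at hb
  obtain ⟨be, ga, rfl⟩ := hb
  have h0 := H ![ζ - x * al, -be, -ga] (by
    simp only [Fin.sum_univ_three, smul_eq_mul, Matrix.cons_val_zero, Matrix.cons_val_one,
      Matrix.cons_val_two, Matrix.head_cons, Matrix.tail_cons]
    linear_combination hab)
  obtain ⟨t, ht1, -, ht3⟩ := h0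
  have h1 := ht3 0
  simp only [Fin.sum_univ_three, smul_eq_mul, Matrix.cons_val_zero, Matrix.cons_val_one,
    Matrix.cons_val_two, Matrix.head_cons, Matrix.tail_cons, ht1 0, mul_zero, zero_add] at h1
  have h2 : ζ = al * x + (t 0 1 * y + t 0 2 * h) := by linear_combination h1
  rw [h2, Ideal.mem_span_insert]
  exact ⟨al, _, Ideal.mem_span_pair.mpr ⟨_, _, rfl⟩, rfl⟩

theorem rad_le3 {A : Type} [CommRing A] (x y h : A) (i j : ℕ) :
    (Ideal.span {x, y, h}).radical ≤
      (Ideal.span (Set.range ![x ^ i, y ^ j, h])).radical := by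
  rw [Ideal.radical_le_radical_iff, Ideal.span_le]
  rintro z hz
  simp only [Set.mem_insert_iff, Set.mem_singleton_iff] at hz
  rcases hz with rfl | rfl | rfl
  · exact ⟨i, Ideal.subset_span ⟨0, rfl⟩⟩
  · exact ⟨j, Ideal.subset_span ⟨1, rfl⟩⟩
  · exact Ideal.le_radical (Ideal.subset_span ⟨2, rfl⟩)

theorem powers {B F : Type} [CommRing B] [Field F] (ev : B →+* F) (r1 r3 h z e : B)
    (e1 : ev r1 = 0) (e3 : ev r3 = 0) (eE : ev e = 0)
    (hreg3 : RingTheory.Sequence.IsWeaklyRegular B [r1, r3, e])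
    (hrad : ∀ v, ev v = 0 → ∃ M : ℕ, v ^ M ∈ Ideal.span {r1, r3, h})
    (hn : ∀ u, u * z ∈ Ideal.span {r1, r3, h} → ev u = 0) (N : ℕ) (u : B)
    (hu : u * (z * (r1 * r3) ^ N) ∈ Ideal.span {r1 ^ (N + 1), r3 ^ (N + 1), h}) :
    ev u = 0 := by
  by_contra hne
  have hPp : (RingHom.ker ev).IsPrime := RingHom.ker_isPrime _
  set P : Ideal B := RingHom.ker ev with hP
  let A := Localization.AtPrime P
  let loc : B →+* A := algebraMap B A
  have hregA := RingTheory.Sequence.IsWeaklyRegular.of_isLocalization A P.primeCompl hreg3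
  have hradR : ∀ v : B, ev v = 0 → loc v ∈
      (Ideal.span {loc r1, loc r3, loc h}).radical := by
    intro v hv
    obtain ⟨M, hM⟩ := hrad v hv
    refine ⟨M, ?_⟩
    rw [← map_pow]
    have := Ideal.mem_map_of_mem loc hM
    rw [Ideal.map_span] at this
    simpa only [Set.image_insert_eq, Set.image_singleton] using this
  have hswap : Ideal.span {loc r3, loc r1, loc h} =
      Ideal.span {loc r1, loc r3, loc h} := by
    rw [Set.insert_comm]
  have KV : ∀ x : Fin 3 → A, (∀ v : B, ev v = 0 →
      loc v ∈ (Ideal.span (Set.range x)).radical) → H1van A x := by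
    intro x hx
    refine KV.kv A A 3 x _ hregA ?_ (by simp)
    intro z hz
    simp only [List.map_cons, List.map_nil, List.mem_cons, List.not_mem_nil, or_false] at hz
    rcases hz with rfl | rfl | rfl
    · exact hx _ e1
    · exact hx _ e3
    · exact hx _ eE
  have K1 : ∀ i j : ℕ, H1van A ![loc r1 ^ i, loc r3 ^ j, loc h] :=
    fun i j => KV _ fun v hv => rad_le3 _ _ _ i j (hradR v hv)
  have K2 : ∀ i j : ℕ, H1van A ![loc r3 ^ i, loc r1 ^ j, loc h] :=
    fun i j => KV _ fun v hv => rad_le3 _ _ _ i j (by rw [hswap]; exact hradR v hv)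
  have hunit : IsUnit (loc u) := by
    have : u ∈ P.primeCompl := by
      intro h
      exact hne h
    exact IsLocalization.map_units A (⟨u, this⟩ : P.primeCompl)
  have s1 : loc r1 ^ N * (loc r3 ^ N * loc z) ∈
      Ideal.span {loc r1 ^ (N + 1), loc r3 ^ (N + 1), loc h} := by
    have h3 := Ideal.mem_map_of_mem loc hu
    rw [Ideal.map_span] at h3
    simp only [Set.image_insert_eq, Set.image_singleton, map_mul, map_pow] at h3
    rw [Ideal.unit_mul_mem_iff_mem _ hunit] at h3
    have h4 : loc r1 ^ N * (loc r3 ^ N * loc z) =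
        loc z * (loc r1 * loc r3) ^ N := by ring
    rw [h4]
    exact h3
  have s2 : loc r3 ^ N * loc z ∈
      Ideal.span {loc r1, loc r3 ^ (N + 1), loc h} :=
    cancel _ _ _ _ N (K1 N (N + 1)) s1
  have s3 : loc z ∈ Ideal.span {loc r3, loc r1, loc h} := by
    have K3 := K2 N 1
    rw [pow_one] at K3
    apply cancel _ _ _ _ N K3
    rwa [Set.insert_comm]
  rw [hswap] at s3
  have s4 : loc z ∈ Ideal.map loc (Ideal.span {r1, r3, h}) := by
    rw [Ideal.map_span]
    simpa only [Set.image_insert_eq, Set.image_singleton] using s3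
  rw [IsLocalization.algebraMap_mem_map_algebraMap_iff P.primeCompl A] at s4
  obtain ⟨t, ht, htz⟩ := s4
  exact ht (hn t htz)

/-! ### the point -/

section point

variable {p : ℕ} [Fact p.Prime] {k : Type} [Field k] [CharP k p]

/-- Evaluation at the point `(q, 0, 0)`. -/
noncomputable def evq (p : ℕ) (k : Type) [Field k] (q : k) : R p k →ₐ[k] k :=
  (MvPolynomial.aeval ![q, 0, 0]).comp (R p k).val

theorem evq_apply (q : k) (u : R p k) : evq p k q u = MvPolynomial.aeval ![q, 0, 0] (u : D k) :=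
  rfl

theorem evq_t (q : k) : evq p k q (r p k (Sum.inl 0)) = q ^ p := by
  rw [evq_apply]
  change MvPolynomial.aeval ![q, 0, 0] (X 0 ^ p : D k) = _
  simp

theorem evq_other (q : k) (i : Fin 2 ⊕ Fin p × Fin p) (hi : i ≠ Sum.inl 0) :
    evq p k q (r p k i) = 0 := by
  have hp : 0 < p := (Fact.out : p.Prime).pos
  rw [evq_apply]
  change MvPolynomial.aeval ![q, 0, 0] (gen p k i) = _
  rcases i with i | ⟨j, i⟩
  · fin_cases i
    · exact absurd rfl hi
    · change MvPolynomial.aeval ![q, 0, 0] (X 1 ^ p ^ 2 : D k) = _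
      rw [map_pow, aeval_X]
      exact zero_pow (by positivity)
  · obtain ⟨d, hd⟩ := gen_dvd (k := k) j i
    rw [hd, map_mul, aeval_X]
    exact zero_mul _

theorem evq_uu (q : k) : evq p k q (uu p k) = 0 := evq_other q (Sum.inl 1) (by simp)

theorem evq_vv (q : k) : evq p k q (vv p k) = 0 := by
  have hp : 0 < p := (Fact.out : p.Prime).pos
  rw [evq_apply]
  change MvPolynomial.aeval ![q, 0, 0] (X 2 ^ p ^ 2 : D k) = _
  rw [map_pow, aeval_X]
  exact zero_pow (by positivity)

theorem hyp_eq (a : Option (Fin 2 ⊕ Fin p × Fin p) → k) :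
    hyp p k a = algebraMap k (R p k) (a none) +
      algebraMap k (R p k) (a (some (Sum.inl 0))) * tt p k +
      (algebraMap k (R p k) (a (some (Sum.inl 1))) * uu p k +
      ∑ ji : Fin p × Fin p, algebraMap k (R p k) (a (some (Sum.inr ji))) *
        r p k (Sum.inr ji)) := by
  unfold hyp
  rw [Fintype.sum_sum_type, Fin.sum_univ_two]
  have e1 : r p k (Sum.inl 0) = tt p k := rfl
  have e2 : r p k (Sum.inl 1) = uu p k := rfl
  rw [e1, e2]
  ring

theorem evq_hyp (a : Option (Fin 2 ⊕ Fin p × Fin p) → k) (q : k)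
    (hq : a none + a (some (Sum.inl 0)) * q ^ p = 0) : evq p k q (hyp p k a) = 0 := by
  rw [hyp_eq, map_add, map_add, map_add, map_sum, map_mul, map_mul, AlgHom.commutes,
    AlgHom.commutes, evq_uu, mul_zero, zero_add,
    Finset.sum_eq_zero (fun ji _ => by rw [map_mul, evq_other q _ (by simp), mul_zero]), add_zero]
  have e : evq p k q (tt p k) = q ^ p := evq_t q
  rw [e]
  exact hq

theorem gen_rad (j i : Fin p) : r p k (Sum.inr (j, i)) ^ p ^ 2 ∈ Ideal.span {vv p k} :=
  rad_of_dvd (vv p k) rfl (gen_dvd j i)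

theorem G3 (a : Option (Fin 2 ⊕ Fin p × Fin p) → k) (q : k) (ha : a (some (Sum.inl 0)) ≠ 0)
    (hq : a none + a (some (Sum.inl 0)) * q ^ p = 0) (u : R p k) (hu : evq p k q u = 0) :
    ∃ N : ℕ, u ^ N ∈ Ideal.span {uu p k, vv p k, hyp p k a} := by
  set J : Ideal (R p k) := Ideal.span {uu p k, vv p k, hyp p k a} with hJ
  have m1 : uu p k ∈ J := Ideal.subset_span (by simp)
  have m3 : vv p k ∈ J := Ideal.subset_span (by simp)
  have mh : hyp p k a ∈ J := Ideal.subset_span (by simp)
  have n1 : uu p k ∈ J.radical := Ideal.le_radical m1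
  have nh : hyp p k a ∈ J.radical := Ideal.le_radical mh
  have ng : ∀ ji : Fin p × Fin p, r p k (Sum.inr ji) ∈ J.radical := by
    rintro ⟨j, i⟩
    refine ⟨p ^ 2, ?_⟩
    have h1 : Ideal.span {vv p k} ≤ J := by
      rw [Ideal.span_le, Set.singleton_subset_iff]
      exact m3
    exact h1 (gen_rad j i)
  have n0 : tt p k - algebraMap k (R p k) (q ^ p) ∈ J.radical := by
    have e2 : algebraMap k (R p k) (a (some (Sum.inl 0))) *
        (tt p k - algebraMap k (R p k) (q ^ p)) =
        hyp p k a - (algebraMap k (R p k) (a (some (Sum.inl 1))) * uu p k +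
      ∑ ji : Fin p × Fin p, algebraMap k (R p k) (a (some (Sum.inr ji))) *
        r p k (Sum.inr ji)) := by
      rw [hyp_eq]
      have h2 := congrArg (algebraMap k (R p k)) hq
      rw [map_add, map_mul, map_zero] at h2
      linear_combination -h2
    have e3 : algebraMap k (R p k) (a (some (Sum.inl 0))) *
        (tt p k - algebraMap k (R p k) (q ^ p)) ∈ J.radical := by
      rw [e2]
      exact J.radical.sub_mem nh (J.radical.add_mem (J.radical.mul_mem_left _ n1)
        (J.radical.sum_mem fun ji _ => J.radical.mul_mem_left _ (ng ji)))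
    have e4 : tt p k - algebraMap k (R p k) (q ^ p) =
        algebraMap k (R p k) ((a (some (Sum.inl 0)))⁻¹) *
        (algebraMap k (R p k) (a (some (Sum.inl 0))) *
          (tt p k - algebraMap k (R p k) (q ^ p))) := by
      rw [← mul_assoc, ← map_mul, inv_mul_cancel₀ ha, map_one, one_mul]
    rw [e4]
    exact J.radical.mul_mem_left _ e3
  have key : (Ideal.Quotient.mkₐ k J.radical : R p k →ₐ[k] R p k ⧸ J.radical) =
      (Algebra.ofId k (R p k ⧸ J.radical)).comp (evq p k q) := by
    apply AlgHom.adjoin_ext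
    rintro x ⟨i, rfl⟩
    show Ideal.Quotient.mkₐ k J.radical (r p k i) =
      algebraMap k (R p k ⧸ J.radical) (evq p k q (r p k i))
    by_cases hi : i = Sum.inl 0
    · subst hi
      rw [evq_t]
      have h5 : Ideal.Quotient.mk J.radical (tt p k) =
          Ideal.Quotient.mk J.radical (algebraMap k (R p k) (q ^ p)) :=
        (Ideal.Quotient.mk_eq_mk_iff_sub_mem _ _).2 n0
      exact h5
    · rw [evq_other q i hi, map_zero]
      have h6 : r p k i ∈ J.radical := by
        rcases i with i | ji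
        · fin_cases i
          · exact absurd rfl hi
          · exact n1
        · exact ng ji
      exact Ideal.Quotient.eq_zero_iff_mem.2 h6
  have h7 : Ideal.Quotient.mkₐ k J.radical u =
      algebraMap k (R p k ⧸ J.radical) (evq p k q u) := congrArg (fun f => f u) key
  rw [hu, map_zero] at h7
  have h8 : u ∈ J.radical := Ideal.Quotient.eq_zero_iff_mem.1 h7
  exact h8

end point

/-! ### the height of the point -/

section height

variable {p : ℕ} [Fact p.Prime] {k : Type} [Field k] [CharP k p]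

/-- `X 2 ↦ 0` -/
noncomputable def f1 (k : Type) [Field k] : D k →ₐ[k] D k := aeval ![X 0, X 1, 0]

/-- `X 1, X 2 ↦ 0` -/
noncomputable def f2 (k : Type) [Field k] : D k →ₐ[k] D k := aeval ![X 0, 0, 0]

theorem f2_f1 (k : Type) [Field k] : (f2 k).comp (f1 k) = f2 k := by
  apply MvPolynomial.algHom_ext
  intro i
  fin_cases i <;> simp [f1, f2]

theorem ev_f2 (k : Type) [Field k] (q : k) :
    (aeval (![q, 0, 0] : Fin 3 → k)).comp (f2 k) = aeval ![q, 0, 0] := by
  apply MvPolynomial.algHom_ext
  intro i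
  fin_cases i <;> simp [f2]

theorem height_ge (q : k) : 3 ≤ (RingHom.ker (evq p k q).toRingHom).height := by
  have hp : 0 < p := (Fact.out : p.Prime).pos
  set I1 : Ideal (R p k) := RingHom.ker ((f1 k).comp (R p k).val) with hI1
  set I2 : Ideal (R p k) := RingHom.ker ((f2 k).comp (R p k).val) with hI2
  set I3 : Ideal (R p k) := RingHom.ker (evq p k q).toRingHom with hI3
  have p0 : (⊥ : Ideal (R p k)).IsPrime := Ideal.isPrime_bot
  have p1 : I1.IsPrime := RingHom.ker_isPrime _
  have p2 : I2.IsPrime := RingHom.ker_isPrime _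
  have p3 : I3.IsPrime := RingHom.ker_isPrime _
  have hvv : ((R p k).val (vv p k) : D k) = X 2 ^ p ^ 2 := rfl
  have huu : ((R p k).val (uu p k) : D k) = X 1 ^ p ^ 2 := rfl
  have htt : ((R p k).val (tt p k) : D k) = X 0 ^ p := rfl
  have l1 : (⊥ : Ideal (R p k)) < I1 := by
    rw [bot_lt_iff_ne_bot]
    intro h
    have h1 : vv p k ∈ I1 := by
      rw [hI1, RingHom.mem_ker, AlgHom.comp_apply, hvv]
      simp [f1, hp.ne']
    rw [h, Ideal.mem_bot] at h1
    have h2 := congrArg (fun x : R p k => (x : D k)) h1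
    exact vv_ne h2
  have l2 : I1 < I2 := by
    refine lt_of_le_of_ne ?_ ?_
    · intro u hu
      rw [hI1, RingHom.mem_ker, AlgHom.comp_apply] at hu
      rw [hI2, RingHom.mem_ker, AlgHom.comp_apply, ← f2_f1, AlgHom.comp_apply, hu, map_zero]
    · intro h
      have h1 : uu p k ∈ I2 := by
        rw [hI2, RingHom.mem_ker, AlgHom.comp_apply, huu]
        simp [f2, hp.ne']
      rw [← h, hI1, RingHom.mem_ker, AlgHom.comp_apply, huu] at h1
      have h3 : f1 k (X 1 ^ p ^ 2) = X 1 ^ p ^ 2 := by simp [f1]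
      rw [h3] at h1
      exact pow_ne_zero _ (X_ne_zero 1) h1
  have l3 : I2 < I3 := by
    refine lt_of_le_of_ne ?_ ?_
    · intro u hu
      rw [hI2, RingHom.mem_ker, AlgHom.comp_apply] at hu
      have h1 : evq p k q u = 0 := by
        rw [evq, AlgHom.comp_apply, ← ev_f2, AlgHom.comp_apply, hu, map_zero]
      exact h1
    · intro h
      have h1 : tt p k - algebraMap k (R p k) (q ^ p) ∈ I3 := by
        have h2 : evq p k q (tt p k - algebraMap k (R p k) (q ^ p)) = 0 := by
          rw [map_sub, AlgHom.commutes]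
          have e : evq p k q (tt p k) = q ^ p := evq_t q
          rw [e]
          exact sub_self _
        exact h2
      rw [← h, hI2, RingHom.mem_ker, map_sub, AlgHom.commutes, AlgHom.comp_apply, htt] at h1
      have h2 : f2 k (X 0 ^ p) = X 0 ^ p := by simp [f2]
      rw [h2] at h1
      have h3 := congrArg (aeval (![q + 1, 0, 0] : Fin 3 → k)) h1
      rw [map_sub, map_pow, aeval_X, AlgHom.commutes, map_zero] at h3
      simp only [Matrix.cons_val_zero, Algebra.algebraMap_self, RingHom.id_apply] at h3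
      have : ExpChar k p := ExpChar.prime Fact.out
      rw [add_pow_char, one_pow, add_sub_cancel_left] at h3
      exact one_ne_zero h3
  have h1 := Ideal.height_add_one_le_of_lt_of_isPrime l1
  have h2 := Ideal.height_add_one_le_of_lt_of_isPrime l2
  have h3 := Ideal.height_add_one_le_of_lt_of_isPrime l3
  calc (3 : ℕ∞) = 0 + 1 + 1 + 1 := by norm_num
    _ ≤ (⊥ : Ideal (R p k)).height + 1 + 1 + 1 := by gcongr; exact bot_le
    _ ≤ I1.height + 1 + 1 := by gcongr
    _ ≤ I2.height + 1 := by gcongr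
    _ ≤ I3.height := h3

end height

end Pool.Agent.KS6_68.BF
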