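import Pool.Agent.KS6_68.BF.Adj

/-! The ring `R p k` is integrally closed (adapted from the library module
`H787R3.NF.Normal`). -/

set_option autoImplicit false

open MvPolynomial

namespace Pool.Agent.KS6_68.BF

attribute [-instance] ZMod.instField

theorem normal (p : ℕ) [Fact p.Prime] (k : Type) [Field k] [CharP k p] :
    IsIntegrallyClosed (R p k) := by
  rw [isIntegrallyClosed_iff (FractionRing (R p k))]
  intro x hx
  obtain ⟨α, β, hβ, rfl⟩ := IsFractionRing.div_surjective (A := R p k) x
  have hβ0 : β ≠ 0 := nonZeroDivisors.ne_zero hβ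
  have hinj : Function.Injective (algebraMap (R p k) (FractionRing (D k))) := by
    rw [IsScalarTower.algebraMap_eq (R p k) (D k) (FractionRing (D k))]
    exact (IsFractionRing.injective (D k) (FractionRing (D k))).comp Subtype.val_injective
  let φ : FractionRing (R p k) →ₐ[R p k] FractionRing (D k) :=
    IsFractionRing.liftAlgHom (K := FractionRing (R p k))
      (g := Algebra.ofId (R p k) (FractionRing (D k))) hinj
  have h1 : IsIntegral (R p k) (φ (algebraMap (R p k) (FractionRing (R p k)) α /
      algebraMap (R p k) (FractionRing (R p k)) β)) := hx.map φ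
  have h2 : IsIntegral (D k) (φ (algebraMap (R p k) (FractionRing (R p k)) α /
      algebraMap (R p k) (FractionRing (R p k)) β)) := h1.tower_top
  obtain ⟨z, hz⟩ := IsIntegrallyClosed.isIntegral_iff.1 h2
  rw [map_div₀, AlgHom.commutes, AlgHom.commutes] at hz
  have hβ' : algebraMap (R p k) (FractionRing (D k)) β ≠ 0 := by
    intro h
    exact hβ0 (hinj (h.trans (map_zero _).symm))
  rw [eq_div_iff hβ'] at hz
  have hz' : (α : D k) = β * z := by
    apply IsFractionRing.injective (D k) (FractionRing (D k))
    rw [map_mul, mul_comm]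
    exact hz.symm
  have hβD : (β : D k) ≠ 0 := fun h => hβ0 (Subtype.ext h)
  have hzR : z ∈ R p k := R_div β.2 hβD (by rw [← hz']; exact α.2)
  refine ⟨⟨z, hzR⟩, ?_⟩
  have hβ'' : algebraMap (R p k) (FractionRing (R p k)) β ≠ 0 := by
    intro h
    exact hβ0 (IsFractionRing.injective (R p k) (FractionRing (R p k)) (h.trans (map_zero _).symm))
  rw [eq_div_iff hβ'', ← map_mul]
  congr 1
  apply Subtype.ext
  show z * (β : D k) = α
  rw [hz', mul_comm]

end Pool.Agent.KS6_68.BF
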