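import Pool.Agent.KS6_68.BF.Adj

/-! Maps `R → R` which are linear over the `p`-th powers. -/

set_option autoImplicit false
set_option maxHeartbeats 400000

open MvPolynomial

namespace Pool.Agent.KS6_68.BF

attribute [-instance] ZMod.instField

section iter

variable {k : Type} [Field k]

open Finset in
theorem iter_leibniz (δ : Derivation k (D k) (D k)) (n : ℕ) (a b : D k) :
    δ^[n] (a * b) = ∑ ij ∈ antidiagonal n, Nat.choose n ij.1 • (δ^[ij.1] a * δ^[ij.2] b) := by
  induction n with
  | zero => simp
  | succ n ih =>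
    rw [sum_antidiagonal_choose_succ_nsmul (M := D k) (fun i j => δ^[i] a * δ^[j] b) n]
    simp only [Function.iterate_succ_apply', ih, map_sum, map_nsmul, Derivation.leibniz,
      smul_eq_mul, smul_add, sum_add_distrib]
    congr 1
    refine sum_congr rfl fun ⟨i, j⟩ hij ↦ ?_
    rw [n.choose_symm_of_eq_add (List.Nat.mem_antidiagonal.1 hij).symm]
    simp only [mul_comm]

open Finset in
theorem iter_p {p : ℕ} [Fact p.Prime] [CharP k p] (δ : Derivation k (D k) (D k)) (a b : D k) :
    δ^[p] (a * b) = a * δ^[p] b + b * δ^[p] a := by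
  have hp : p.Prime := Fact.out
  rw [iter_leibniz, Finset.Nat.sum_antidiagonal_eq_sum_range_succ_mk, Finset.sum_range_succ,
    Nat.choose_self, one_smul, Nat.sub_self]
  obtain ⟨q, hq⟩ : ∃ q, p = q + 1 := ⟨p - 1, by have := hp.pos; omega⟩
  have h1 : ∑ x ∈ range p, Nat.choose p x • (δ^[x] a * δ^[p - x] b) = a * δ^[p] b := by
    conv_lhs => rw [show range p = range (q + 1) by rw [← hq]]
    rw [Finset.sum_range_succ', Nat.choose_zero_right, one_smul, Nat.sub_zero]
    rw [Finset.sum_eq_zero, zero_add]
    · rfl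
    · intro x hx
      rw [Finset.mem_range] at hx
      have h2 : p ∣ Nat.choose p (x + 1) := hp.dvd_choose_self (Nat.succ_ne_zero x) (by omega)
      rw [← Nat.cast_smul_eq_nsmul (D k), (CharP.cast_eq_zero_iff (D k) p _).2 h2, zero_smul]
  rw [h1]
  simp only [Function.iterate_zero, id_eq]
  ring

end iter

section

variable {p : ℕ} {k : Type} [Field k]

theorem th_iter_mul_left {s : D k} (hs : th p k s = 0) (n : ℕ) (x : D k) :
    (th p k)^[n] (s * x) = s * (th p k)^[n] x := by
  induction n with
  | zero => rfl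
  | succ n ih =>
    rw [Function.iterate_succ_apply', ih, th_mul, hs, mul_zero, add_zero,
      Function.iterate_succ_apply']

theorem th_iter_add (n : ℕ) (f g : D k) :
    (th p k)^[n] (f + g) = (th p k)^[n] f + (th p k)^[n] g := by
  induction n with
  | zero => rfl
  | succ n ih => simp only [Function.iterate_succ_apply', ih, map_add]

theorem th_iter_gam [CharP k p] (n : ℕ) :
    (th p k)^[n] (gam p k) = (X 2 ^ p) ^ n * gam p k := by
  induction n with
  | zero => simp
  | succ n ih =>
    rw [Function.iterate_succ_apply', ih, th_mul, th_gam,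
      th_pow (th_pow (th_X2 p k) p) n]
    ring

theorem th_iter_X1 [CharP k p] (n : ℕ) :
    (th p k)^[n] (X 1) = (- (X 2 ^ p : D k)) ^ n * X 1 := by
  induction n with
  | zero => simp
  | succ n ih =>
    have h : th p k (- (X 2 ^ p : D k)) = 0 := by rw [map_neg, th_pow (th_X2 p k), neg_zero]
    rw [Function.iterate_succ_apply', ih, th_mul, th_X1, th_pow h]
    ring

theorem th_iter_p [Fact p.Prime] [CharP k p] (f : D k) :
    (th p k)^[p] f = X 2 ^ (p * (p - 1)) * th p k f := by
  have hp : p.Prime := Fact.out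
  obtain ⟨q, hq⟩ : ∃ q, p = q + 1 := ⟨p - 1, by have := hp.pos; omega⟩
  have hX : ∀ i : Fin 3, (th p k)^[p] (X i) = X 2 ^ (p * (p - 1)) * th p k (X i) := by
    intro i
    fin_cases i
    · change (th p k)^[p] (X 0) = X 2 ^ (p * (p - 1)) * th p k (X 0)
      rw [th_X0]
      conv_lhs => rw [show (th p k)^[p] (X 0) = (th p k)^[p - 1] (th p k (X 0)) by
        rw [← Function.iterate_succ_apply, Nat.succ_eq_add_one, Nat.sub_add_cancel hp.pos]]
      rw [th_X0, th_iter_gam, pow_mul]
    · change (th p k)^[p] (X 1) = X 2 ^ (p * (p - 1)) * th p k (X 1)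
      rw [th_X1, th_iter_X1]
      have h1 : (- (X 2 ^ p : D k)) ^ p = - (X 2 ^ p) ^ p := by
        rw [neg_pow]
        have h2 : (-1 : D k) ^ p = -1 := by
          rcases hp.eq_two_or_odd' with h | h
          · subst h
            have h3 : (2 : D k) = 0 := by exact_mod_cast CharP.cast_eq_zero (D k) 2
            linear_combination h3
          · exact h.neg_one_pow
        rw [h2]
        ring
      have h4 : (X 2 ^ p : D k) ^ p = X 2 ^ (p * (p - 1)) * X 2 ^ p := by
        rw [← pow_mul, ← pow_add]
        congr 1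
        rw [hq]
        simp only [Nat.add_sub_cancel]
        ring
      rw [h1, h4]
      ring
    · change (th p k)^[p] (X 2) = X 2 ^ (p * (p - 1)) * th p k (X 2)
      have h1 : ∀ n, (th p k)^[n + 1] (X 2) = 0 := by
        intro n
        induction n with
        | zero => exact th_X2 p k
        | succ n ih => rw [Function.iterate_succ_apply', ih, map_zero]
      conv_lhs => rw [hq]
      conv_lhs => rw [show (th (q + 1) k)^[q + 1] (X 2) = (th p k)^[q + 1] (X 2) by rw [hq]]
      rw [h1 q, th_X2, mul_zero]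
  induction f using MvPolynomial.induction_on with
  | C c =>
    have h1 : th p k (C c) = 0 := Derivation.map_algebraMap _ _
    have h2 : ∀ n, (th p k)^[n + 1] (C c) = 0 := by
      intro n
      induction n with
      | zero => exact h1
      | succ n ih => rw [Function.iterate_succ_apply', ih, map_zero]
    have h3 := h2 (p - 1)
    rw [Nat.sub_add_cancel hp.pos] at h3
    rw [h3, h1, mul_zero]
  | add f g hf hg =>
    rw [th_iter_add, hf, hg, map_add, mul_add]
  | mul_X f i hf =>
    rw [iter_p, hf, hX, th_mul]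
    ring

/-- the map into the kernel of `θ` -/
noncomputable def Psi (p : ℕ) (k : Type) [Field k] (h : D k) (v : D k) : D k :=
  (th p k)^[p - 1] (h * cmp (W1 p) 0 v) - X 2 ^ (p * (p - 1)) * (h * cmp (W1 p) 0 v)

theorem Psi_add (h a b : D k) : Psi p k h (a + b) = Psi p k h a + Psi p k h b := by
  unfold Psi
  rw [map_add, mul_add, th_iter_add]
  ring

theorem Psi_mul {h s : D k} (hs : s ∈ RK p k) (v : D k) :
    Psi p k h (s * v) = s * Psi p k h v := by
  unfold Psi
  rw [cmp_mul' hs.1, show h * (s * cmp (W1 p) 0 v) = s * (h * cmp (W1 p) 0 v) by ring,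
    th_iter_mul_left hs.2]
  ring

theorem th_iter_homog {f : D k} {b : ZMod (p ^ 2)} (hf : IsWeightedHomogeneous (W1 p) f b)
    (n : ℕ) : IsWeightedHomogeneous (W1 p) ((th p k)^[n] f) (b + n * p) := by
  induction n with
  | zero => simpa using hf
  | succ n ih =>
    rw [Function.iterate_succ_apply']
    have h1 := th_homog_1 ih
    have e : b + n * p + p = b + ((n + 1 : ℕ) : ZMod (p ^ 2)) * p := by push_cast; ring
    rwa [e] at h1

theorem Psi_mem [Fact p.Prime] [CharP k p] {h : D k} (hh : IsWeightedHomogeneous (W1 p) h p)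
    (v : D k) : Psi p k h v ∈ RK p k := by
  have hp : p.Prime := Fact.out
  have hx : IsWeightedHomogeneous (W1 p) (h * cmp (W1 p) 0 v) p := by
    have h1 := hh.mul (cmp_homog (w := W1 p) 0 v)
    rwa [add_zero] at h1
  have hc : ((p - 1 : ℕ) : ZMod (p ^ 2)) = p - 1 := by
    rw [Nat.cast_sub hp.pos, Nat.cast_one]
  refine ⟨?_, ?_⟩
  · have h1 := th_iter_homog hx (p - 1)
    have h2 := ((hW1_X2 p k).pow (p * (p - 1))).mul hx
    have e1 : (p : ZMod (p ^ 2)) + ((p - 1 : ℕ) : ZMod (p ^ 2)) * p = 0 := by
      rw [hc]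
      linear_combination wp2 p
    have e2 : (p * (p - 1)) • (1 : ZMod (p ^ 2)) + p = 0 := by
      rw [nsmul_eq_mul, Nat.cast_mul, hc]
      linear_combination wp2 p
    rw [e1] at h1
    rw [e2] at h2
    exact h1.sub h2
  · unfold Psi
    rw [map_sub, th_mul, th_pow (th_X2 p k), mul_zero, add_zero]
    rw [show th p k ((th p k)^[p - 1] (h * cmp (W1 p) 0 v)) =
      (th p k)^[p] (h * cmp (W1 p) 0 v) by
        rw [← Function.iterate_succ_apply' (th p k), Nat.succ_eq_add_one,
          Nat.sub_add_cancel hp.pos]]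
    rw [th_iter_p, sub_self]

end

end Pool.Agent.KS6_68.BF
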