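import Pool.Agent.KS6_68.BF.Coord

/-! The ring of the example and its description as the kernel of a derivation. -/

set_option autoImplicit false

open MvPolynomial

namespace Pool.Agent.KS6_68.BF

attribute [-instance] ZMod.instField

/-- `γ = (X 1) ^ p + X 0 * (X 2) ^ p`. -/
noncomputable def gam (p : ℕ) (k : Type) [Field k] : D k := X 1 ^ p + X 0 * X 2 ^ p

/-- `w_j = (X 1 * γ) ^ j * (X 2) ^ (p - j)`. -/
noncomputable def ww (p : ℕ) (k : Type) [Field k] (j : ℕ) : D k :=
  (X 1 * gam p k) ^ j * X 2 ^ (p - j)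

/-- The generators: `(X 0) ^ p`, `(X 1) ^ (p ^ 2)` and
`w_j * (X 1) ^ (p * i) * (X 2) ^ (p * (p - 1 - i))` for `0 ≤ i, j < p`. -/
noncomputable def gen (p : ℕ) (k : Type) [Field k] : Fin 2 ⊕ Fin p × Fin p → D k
  | Sum.inl i => ![X 0 ^ p, X 1 ^ p ^ 2] i
  | Sum.inr (j, i) => ww p k j * (X 1 ^ (p * i) * X 2 ^ (p * (p - 1 - i)))

/-- The ring of the example: the subalgebra of `k[X 0, X 1, X 2]` generated by the elements
`gen p k i`. -/
noncomputable abbrev R (p : ℕ) (k : Type) [Field k] : Subalgebra k (D k) :=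
  Algebra.adjoin k (Set.range (gen p k))

/-- The generators as elements of `R p k`. -/
noncomputable def r (p : ℕ) (k : Type) [Field k] (i : Fin 2 ⊕ Fin p × Fin p) : R p k :=
  ⟨gen p k i, Algebra.subset_adjoin ⟨i, rfl⟩⟩

/-- The affine linear function `a none + ∑ i, a i * r i`. -/
noncomputable def hyp (p : ℕ) (k : Type) [Field k] (a : Option (Fin 2 ⊕ Fin p × Fin p) → k) :
    R p k :=
  algebraMap k (R p k) (a none) + ∑ i, algebraMap k (R p k) (a (some i)) * r p k i

/-! ### weights -/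

/-- weights modulo `p ^ 2` -/
def W1 (p : ℕ) : Fin 3 → ZMod (p ^ 2) := ![0, 1 - p, 1]

/-- exponent of `X 1` modulo `p` -/
def Wb (p : ℕ) : Fin 3 → ZMod p := ![0, 1, 0]

/-- degree in `X 1`, `X 2` modulo `p` -/
def Wc (p : ℕ) : Fin 3 → ZMod p := ![0, 1, 1]

section weights

variable (p : ℕ) (k : Type) [Field k]

theorem wp2 : (p : ZMod (p ^ 2)) * p = 0 := by
  have h : ((p ^ 2 : ℕ) : ZMod (p ^ 2)) = 0 := ZMod.natCast_self _
  rw [← h]; push_cast; ring

theorem W1_0 : W1 p 0 = 0 := rfl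
theorem W1_1 : W1 p 1 = 1 - p := rfl
theorem W1_2 : W1 p 2 = 1 := rfl

theorem hW1_X0 : IsWeightedHomogeneous (W1 p) (X 0 : D k) 0 := isWeightedHomogeneous_X k (W1 p) 0
theorem hW1_X1 : IsWeightedHomogeneous (W1 p) (X 1 : D k) (1 - p) :=
  isWeightedHomogeneous_X k (W1 p) 1
theorem hW1_X2 : IsWeightedHomogeneous (W1 p) (X 2 : D k) 1 := isWeightedHomogeneous_X k (W1 p) 2

theorem hW1_gam : IsWeightedHomogeneous (W1 p) (gam p k) p := by
  have h1 := (hW1_X1 p k).pow p
  have h2 := (hW1_X0 p k).mul ((hW1_X2 p k).pow p)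
  have e1 : p • (1 - p : ZMod (p ^ 2)) = p := by
    rw [nsmul_eq_mul]
    linear_combination -(wp2 p)
  have e2 : (0 : ZMod (p ^ 2)) + p • 1 = p := by rw [nsmul_eq_mul]; ring
  rw [e1] at h1
  rw [e2] at h2
  exact h1.add h2

theorem hWb_gam : IsWeightedHomogeneous (Wb p) (gam p k) 0 := by
  have h1 := (isWeightedHomogeneous_X k (Wb p) 1).pow p
  have h2 := (isWeightedHomogeneous_X k (Wb p) 0).mul ((isWeightedHomogeneous_X k (Wb p) 2).pow p)
  have e1 : p • Wb p 1 = 0 := by
    rw [nsmul_eq_mul, ZMod.natCast_self, zero_mul]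
  have e2 : Wb p 0 + p • Wb p 2 = 0 := by simp [Wb]
  rw [e1] at h1
  rw [e2] at h2
  exact h1.add h2

end weights

/-! ### the derivation -/

/-- `θ = γ ∂₀ - X 1 (X 2) ^ p ∂₁` -/
noncomputable def th (p : ℕ) (k : Type) [Field k] : Derivation k (D k) (D k) :=
  gam p k • pderiv 0 - (X 1 * X 2 ^ p : D k) • pderiv 1

section der

variable (p : ℕ) (k : Type) [Field k]

theorem th_apply (f : D k) : th p k f = gam p k * pderiv 0 f - X 1 * X 2 ^ p * pderiv 1 f := rfl

theorem th_X0 : th p k (X 0) = gam p k := by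
  rw [th_apply, pderiv_X_self, pderiv_X_of_ne (by decide)]
  ring

theorem th_X1 : th p k (X 1) = - (X 1 * X 2 ^ p) := by
  rw [th_apply, pderiv_X_self, pderiv_X_of_ne (by decide)]
  ring

theorem th_X2 : th p k (X 2) = 0 := by
  rw [th_apply, pderiv_X_of_ne (by decide), pderiv_X_of_ne (by decide)]
  ring

variable {p k}

theorem der_pow_p [CharP k p] (δ : Derivation k (D k) (D k)) (f : D k) : δ (f ^ p) = 0 := by
  rw [Derivation.leibniz_pow]
  rw [← Nat.cast_smul_eq_nsmul (D k), CharP.cast_eq_zero (D k) p, zero_smul]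

theorem th_mul (f g : D k) : th p k (f * g) = f * th p k g + g * th p k f := by
  rw [Derivation.leibniz, smul_eq_mul, smul_eq_mul]

theorem th_gam [CharP k p] : th p k (gam p k) = X 2 ^ p * gam p k := by
  rw [gam, map_add, der_pow_p, th_mul, der_pow_p, th_X0, gam]
  ring

theorem th_E [CharP k p] [Fact p.Prime] (a : D k) : th p k (E p k a) = 0 := by
  induction a using MvPolynomial.induction_on with
  | C r => rw [show E p k (C r) = C r from MvPolynomial.expand_C p r]; exact Derivation.map_algebraMap _ _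
  | add f g hf hg => rw [map_add, map_add, hf, hg, add_zero]
  | mul_X f i hf =>
    rw [map_mul, th_mul, hf, show E p k (X i) = X i ^ p from MvPolynomial.expand_X p i, der_pow_p]
    ring

theorem th_X1gam [CharP k p] : th p k (X 1 * gam p k) = 0 := by
  rw [th_mul, th_gam, th_X1]
  ring

theorem th_pow {f : D k} (hf : th p k f = 0) (n : ℕ) : th p k (f ^ n) = 0 := by
  rw [Derivation.leibniz_pow, hf, smul_zero, smul_zero]

theorem th_ww [CharP k p] (j : ℕ) : th p k (ww p k j) = 0 := by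
  rw [ww, th_mul, th_pow th_X1gam, th_pow (th_X2 p k)]
  ring

theorem ww_weight {j : ℕ} (hj : j ≤ p) : IsWeightedHomogeneous (W1 p) (ww p k j) p := by
  have h := (((hW1_X1 p k).mul (hW1_gam p k)).pow j).mul ((hW1_X2 p k).pow (p - j))
  have e : j • ((1 - p : ZMod (p ^ 2)) + p) + (p - j) • 1 = p := by
    rw [nsmul_eq_mul, nsmul_eq_mul, Nat.cast_sub hj]
    ring
  rw [e] at h
  exact h

theorem gen_weight (hp : 0 < p) (i : Fin 2 ⊕ Fin p × Fin p) :
    IsWeightedHomogeneous (W1 p) (gen p k i) 0 := by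
  rcases i with i | ⟨j, i⟩
  · fin_cases i
    · have h := (hW1_X0 p k).pow p
      rw [smul_zero] at h
      exact h
    · have h := (hW1_X1 p k).pow (p ^ 2)
      have e : (p ^ 2) • (1 - p : ZMod (p ^ 2)) = 0 := by
        rw [nsmul_eq_mul, ZMod.natCast_self, zero_mul]
      rw [e] at h
      exact h
  · have h := (ww_weight (k := k) j.2.le).mul
      (((hW1_X1 p k).pow (p * i)).mul ((hW1_X2 p k).pow (p * (p - 1 - i))))
    have e : (p : ZMod (p ^ 2)) + ((p * i : ℕ) • (1 - p : ZMod (p ^ 2)) +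
        (p * (p - 1 - i) : ℕ) • (1 : ZMod (p ^ 2))) = 0 := by
      have hi := i.2
      rw [nsmul_eq_mul, nsmul_eq_mul, Nat.cast_mul, Nat.cast_mul, Nat.sub_sub,
        Nat.cast_sub (by omega)]
      push_cast
      linear_combination (1 - (i : ZMod (p ^ 2))) * (wp2 p)
    rw [e] at h
    exact h

theorem gen_th [CharP k p] (i : Fin 2 ⊕ Fin p × Fin p) : th p k (gen p k i) = 0 := by
  rcases i with i | ⟨j, i⟩
  · fin_cases i
    · exact der_pow_p _ _
    · change th p k (X 1 ^ p ^ 2) = 0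
      rw [pow_two, pow_mul]
      exact der_pow_p _ _
  · change th p k (ww p k j * (X 1 ^ (p * i) * X 2 ^ (p * (p - 1 - i)))) = 0
    rw [th_mul, th_mul, th_ww, pow_mul, pow_mul]
    rw [th_pow (der_pow_p _ _), th_pow (der_pow_p _ _)]
    ring

variable (p k)

/-- the kernel of `θ` in weight zero -/
noncomputable def RK : Subalgebra k (D k) where
  carrier := {z | IsWeightedHomogeneous (W1 p) z 0 ∧ th p k z = 0}
  mul_mem' := by
    rintro a b ⟨ha, ha'⟩ ⟨hb, hb'⟩
    refine ⟨?_, ?_⟩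
    · have := ha.mul hb
      rwa [add_zero] at this
    · rw [th_mul, ha', hb']; ring
  add_mem' := by
    rintro a b ⟨ha, ha'⟩ ⟨hb, hb'⟩
    exact ⟨ha.add hb, by rw [map_add, ha', hb', add_zero]⟩
  algebraMap_mem' := fun c => ⟨isWeightedHomogeneous_C _ c, Derivation.map_algebraMap _ _⟩

variable {p k}

theorem mem_RK {z : D k} : z ∈ RK p k ↔ IsWeightedHomogeneous (W1 p) z 0 ∧ th p k z = 0 := Iff.rfl

theorem R_le_RK [CharP k p] (hp : 0 < p) : R p k ≤ RK p k := by
  rw [Algebra.adjoin_le_iff]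
  rintro _ ⟨i, rfl⟩
  exact ⟨gen_weight hp i, gen_th i⟩

/-- `D ∩ Frac RK = RK` -/
theorem RK_div {z s : D k} (hs : s ∈ RK p k) (hs0 : s ≠ 0) (h : s * z ∈ RK p k) : z ∈ RK p k := by
  refine ⟨?_, ?_⟩
  · have := homog_of_mul hs0 hs.1 h.1
    rwa [sub_zero] at this
  · have h1 := h.2
    rw [th_mul, hs.2, mul_zero, add_zero] at h1
    exact (mul_eq_zero.1 h1).resolve_left hs0

end der

end Pool.Agent.KS6_68.BF
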