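import Pool.Agent.KS6_68.BF.Psi
import Pool.Agent.KS6_68.BF.GStmts

/-! Frobenius splittings away from the singular point of the fibres (the extension of splittings
to localisations follows the library modules `H503R3.FI.TaskC2`, `H71R3.NF.Split`). -/

set_option autoImplicit false
set_option maxHeartbeats 400000

open MvPolynomial

namespace Pool.Agent.KS6_68.BF

attribute [-instance] ZMod.instField

section Ext

variable {p : ℕ} {B : Type} [CommRing B] {φ : B → B} {S : Submonoid B} {B' : Type}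
    [CommRing B'] [Algebra B B'] [IsLocalization S B']

/-- `w` is the value of the extended map at `z`. -/
def Val (p : ℕ) (φ : B → B) (S : Submonoid B) (z w : B') : Prop :=
  ∃ (s : S) (a : B), z * algebraMap B B' s ^ p = algebraMap B B' a ∧
    w * algebraMap B B' s = algebraMap B B' (φ a)

theorem val_unique (hp : 0 < p) (hsmul : ∀ r a, φ (r ^ p * a) = r * φ a) {z w w' : B'}
    (h1 : Val p φ S z w) (h2 : Val p φ S z w') : w = w' := by
  obtain ⟨s, a, hs1, hs2⟩ := h1
  obtain ⟨t, b, ht1, ht2⟩ := h2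
  have hsu : IsUnit (algebraMap B B' s) := IsLocalization.map_units B' s
  have htu : IsUnit (algebraMap B B' t) := IsLocalization.map_units B' t
  have heq : algebraMap B B' (a * (t : B) ^ p) = algebraMap B B' (b * (s : B) ^ p) := by
    rw [map_mul, map_mul, map_pow, map_pow, ← hs1, ← ht1]
    ring
  obtain ⟨u, hu⟩ := (IsLocalization.eq_iff_exists S B').1 heq
  have huu : IsUnit (algebraMap B B' u) := IsLocalization.map_units B' u
  obtain ⟨q, rfl⟩ : ∃ q, p = q + 1 := ⟨p - 1, by omega⟩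
  have h3 : ((u : B) * t) ^ (q + 1) * a = ((u : B) * s) ^ (q + 1) * b := by
    calc ((u : B) * t) ^ (q + 1) * a = (u : B) ^ q * (u * (a * (t : B) ^ (q + 1))) := by ring
      _ = (u : B) ^ q * (u * (b * (s : B) ^ (q + 1))) := by rw [hu]
      _ = ((u : B) * s) ^ (q + 1) * b := by ring
  have h4 : (u : B) * t * φ a = (u : B) * s * φ b := by
    rw [← hsmul, ← hsmul, h3]
  have h5 := congrArg (algebraMap B B') h4
  simp only [map_mul] at h5
  rw [← hs2, ← ht2] at h5
  have h6 : (algebraMap B B' u * (algebraMap B B' s * algebraMap B B' t)) * w =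
      (algebraMap B B' u * (algebraMap B B' s * algebraMap B B' t)) * w' := by
    linear_combination h5
  exact (huu.mul (hsu.mul htu)).mul_left_cancel h6

theorem val_of {z : B'} (s : S) (a : B)
    (hz : z * algebraMap B B' s ^ p = algebraMap B B' a) :
    Val p φ S z (IsLocalization.mk' B' (φ a) s) :=
  ⟨s, a, hz, IsLocalization.mk'_spec B' (φ a) s⟩

theorem exists_den (hp : 0 < p) (S : Submonoid B) [IsLocalization S B'] (z : B') :
    ∃ (s : S) (a : B), z * algebraMap B B' s ^ p = algebraMap B B' a := by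
  obtain ⟨a, s, rfl⟩ := IsLocalization.exists_mk'_eq S z
  obtain ⟨q, rfl⟩ : ∃ q, p = q + 1 := ⟨p - 1, by omega⟩
  refine ⟨s, a * (s : B) ^ q, ?_⟩
  rw [pow_succ', ← mul_assoc, IsLocalization.mk'_spec, map_mul, map_pow]

theorem ext_loc (hp : 0 < p) (S : Submonoid B) [IsLocalization S B']
    (hadd : ∀ a b, φ (a + b) = φ a + φ b)
    (hsmul : ∀ r a, φ (r ^ p * a) = r * φ a) :
    ∃ φ' : B' → B', (∀ a b, φ' (a + b) = φ' a + φ' b) ∧ (∀ r a, φ' (r ^ p * a) = r * φ' a) ∧
      ∀ b, φ' (algebraMap B B' b) = algebraMap B B' (φ b) := by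
  have hex : ∀ z : B', ∃ w : B', Val p φ S z w := by
    intro z
    obtain ⟨s, a, hz⟩ := exists_den hp S z
    exact ⟨_, val_of s a hz⟩
  choose φ' hφ' using hex
  have key : ∀ (z : B') (s : S) (a : B), z * algebraMap B B' s ^ p = algebraMap B B' a →
      φ' z * algebraMap B B' s = algebraMap B B' (φ a) := by
    intro z s a hz
    rw [val_unique hp hsmul (hφ' z) (val_of s a hz)]
    exact IsLocalization.mk'_spec B' (φ a) s
  refine ⟨φ', ?_, ?_, ?_⟩
  · intro z1 z2
    obtain ⟨s, a, ha⟩ := exists_den hp S z1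
    obtain ⟨t, b, hb⟩ := exists_den hp S z2
    have h1 := key z1 s a ha
    have h2 := key z2 t b hb
    have h3 := key (z1 + z2) (s * t) ((t : B) ^ p * a + (s : B) ^ p * b) (by
      rw [Submonoid.coe_mul, map_mul, map_add, map_mul, map_mul, map_pow, map_pow, ← ha, ← hb]
      ring)
    rw [hadd, hsmul, hsmul, Submonoid.coe_mul, map_mul, map_add, map_mul, map_mul,
      ← h1, ← h2] at h3
    have hu : IsUnit (algebraMap B B' s * algebraMap B B' t) :=
      (IsLocalization.map_units B' s).mul (IsLocalization.map_units B' t)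
    apply hu.mul_right_cancel
    linear_combination h3
  · intro r z
    obtain ⟨b, t, rfl⟩ := IsLocalization.exists_mk'_eq S r
    obtain ⟨s, a, ha⟩ := exists_den hp S z
    have h1 := key z s a ha
    have hr : IsLocalization.mk' B' b t * algebraMap B B' t = algebraMap B B' b :=
      IsLocalization.mk'_spec B' b t
    have h3 := key (IsLocalization.mk' B' b t ^ p * z) (t * s) (b ^ p * a) (by
      rw [Submonoid.coe_mul, map_mul, map_mul, map_pow, ← ha, ← hr]
      ring)
    rw [hsmul, Submonoid.coe_mul, map_mul, map_mul, ← h1, ← hr] at h3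
    have hu : IsUnit (algebraMap B B' t * algebraMap B B' s) :=
      (IsLocalization.map_units B' t).mul (IsLocalization.map_units B' s)
    apply hu.mul_right_cancel
    linear_combination h3
  · intro b
    have h1 := key (algebraMap B B' b) 1 b (by simp)
    simpa using h1

end Ext

section els

variable (p : ℕ) (k : Type) [Field k]

/-- `(X 0) ^ p` -/
noncomputable def tt : R p k := ⟨X 0 ^ p, gen_mem (Sum.inl 0)⟩

/-- `(X 1) ^ (p ^ 2)` -/
noncomputable def uu : R p k := ⟨X 1 ^ p ^ 2, gen_mem (Sum.inl 1)⟩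

/-- `(X 2) ^ (p ^ 2)` -/
noncomputable def vv [hp : Fact p.Prime] : R p k := ⟨X 2 ^ p ^ 2, by
  have h := mem_gen0 (p := p) (k := k) hp.out.pos (i := 0) (Nat.zero_le _)
  rwa [Nat.mul_zero, pow_zero, one_mul, Nat.sub_zero, ← pow_two] at h⟩

end els

section

variable {p : ℕ} [Fact p.Prime] {k : Type} [Field k] [CharP k p]

theorem exists_phi0 [IsAlgClosed k] {h : D k} (hh : IsWeightedHomogeneous (W1 p) h p) :
    ∃ φ : R p k → R p k, (∀ a b, φ (a + b) = φ a + φ b) ∧ (∀ r a, φ (r ^ p * a) = r * φ a) ∧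
      (φ 1 : D k) = Psi p k h 1 := by
  obtain ⟨g, hg, -⟩ := exists_sig_inv (p := p) (k := k)
  have hp : 0 < p := (Fact.out : p.Prime).pos
  refine ⟨fun z => ⟨Psi p k h (g (cc p k ![0, 0, 0] (z : D k))), ?_⟩, ?_, ?_, ?_⟩
  · exact mem_R.2 (mem_RK.1 (Psi_mem hh _))
  · intro a b
    apply Subtype.ext
    change Psi p k h (g (cc p k ![0, 0, 0] ((a : D k) + b))) = _
    rw [map_add, map_add, Psi_add]
    rfl
  · intro s z
    apply Subtype.ext
    change Psi p k h (g (cc p k ![0, 0, 0] ((s : D k) ^ p * z))) = (s : D k) * _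
    rw [pow_eq_E, cc_mul hp, map_mul, hg]
    have hs : (s : D k) ∈ RK p k := by rw [← R_eq_RK]; exact s.2
    rw [Psi_mul hs]
  · change Psi p k h (g (cc p k ![0, 0, 0] 1)) = _
    rw [cc_one hp, map_one]

theorem cmp_one : cmp (W1 p) 0 (1 : D k) = 1 := cmp_self (isWeightedHomogeneous_one k (W1 p))

theorem hh_X2 : IsWeightedHomogeneous (W1 p) (X 2 ^ p : D k) p := by
  have h := (hW1_X2 p k).pow p
  rwa [nsmul_eq_mul, mul_one] at h

theorem hh_X01 : IsWeightedHomogeneous (W1 p) (X 0 ^ (p - 1) * X 1 ^ p : D k) p := by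
  have h := ((hW1_X0 p k).pow (p - 1)).mul ((hW1_X1 p k).pow p)
  have e : (p - 1) • (0 : ZMod (p ^ 2)) + p • (1 - p : ZMod (p ^ 2)) = p := by
    rw [smul_zero, nsmul_eq_mul]
    linear_combination -(wp2 p)
  rwa [e] at h

theorem Psi_X2 : Psi p k (X 2 ^ p) 1 = - X 2 ^ p ^ 2 := by
  have hp : p.Prime := Fact.out
  unfold Psi
  rw [cmp_one, mul_one]
  have h1 : (th p k)^[p - 1] (X 2 ^ p) = 0 := by
    obtain ⟨m, hm⟩ : ∃ m, p - 1 = m + 1 := ⟨p - 2, by have := hp.two_le; omega⟩
    rw [hm]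
    clear hm
    induction m with
    | zero => exact th_pow (th_X2 p k) p
    | succ m ih => rw [Function.iterate_succ_apply', ih, map_zero]
  rw [h1, zero_sub, ← pow_add]
  congr 2
  obtain ⟨q, hq⟩ : ∃ q, p = q + 1 := ⟨p - 1, by have := hp.pos; omega⟩
  rw [hq, Nat.add_sub_cancel]
  ring

theorem th_mod (f g : D k) (h : X 2 ∣ f - g) : X 2 ∣ th p k f - th p k g := by
  obtain ⟨d, hd⟩ := h
  rw [← map_sub, hd, th_mul, th_X2, mul_zero, add_zero]
  exact dvd_mul_right _ _

theorem th_iter_X0 (n : ℕ) (i : ℕ) : X 2 ∣ (th p k)^[i] (X 0 ^ n) -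
    (n.descFactorial i : D k) * (X 0 ^ (n - i) * X 1 ^ (p * i)) := by
  have hp : p.Prime := Fact.out
  induction i with
  | zero => simp
  | succ i ih =>
    rw [Function.iterate_succ_apply']
    have h1 := th_mod (p := p) _ _ ih
    have h2 : X 2 ∣ th p k ((n.descFactorial i : D k) * (X 0 ^ (n - i) * X 1 ^ (p * i))) -
      (n.descFactorial (i + 1) : D k) * (X 0 ^ (n - (i + 1)) * X 1 ^ (p * (i + 1))) := by
      have h3 : th p k (n.descFactorial i : D k) = 0 := Derivation.map_natCast _ _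
      have h4 : th p k (X 1 ^ (p * i)) = 0 := by rw [pow_mul]; exact th_pow (der_pow_p _ _) i
      rw [th_mul, h3, mul_zero, add_zero, th_mul, h4, mul_zero, zero_add,
        Derivation.leibniz_pow, th_X0, Nat.descFactorial_succ, smul_eq_mul, nsmul_eq_mul, gam]
      have h5 : (X 1 : D k) ^ (p * (i + 1)) = X 1 ^ (p * i) * X 1 ^ p := by
        rw [Nat.mul_add, Nat.mul_one, pow_add]
      have h6 : (X 2 : D k) ^ p = X 2 * X 2 ^ (p - 1) := by
        rw [← pow_succ', Nat.sub_add_cancel hp.pos]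
      rw [h5, Nat.sub_sub, h6]
      push_cast
      refine ⟨(n.descFactorial i : D k) * (X 1 ^ (p * i) * (((n - i : ℕ) : D k) *
        (X 0 ^ (n - (i + 1)) * (X 0 * X 2 ^ (p - 1))))), ?_⟩
      ring
    have := dvd_add h1 h2
    rwa [sub_add_sub_cancel] at this

theorem Psi_X01 : X 2 ∣ Psi p k (X 0 ^ (p - 1) * X 1 ^ p) 1 -
    ((p - 1).factorial : D k) * X 1 ^ p ^ 2 := by
  have hp : p.Prime := Fact.out
  unfold Psi
  rw [cmp_one, mul_one]
  have h1 : (th p k)^[p - 1] (X 0 ^ (p - 1) * X 1 ^ p) =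
      X 1 ^ p * (th p k)^[p - 1] (X 0 ^ (p - 1)) := by
    rw [mul_comm, th_iter_mul_left (der_pow_p _ _)]
  obtain ⟨d, hd⟩ := th_iter_X0 (p := p) (k := k) (p - 1) (p - 1)
  rw [Nat.descFactorial_self, Nat.sub_self, pow_zero, one_mul] at hd
  have h2 : (X 1 : D k) ^ p ^ 2 = X 1 ^ p * X 1 ^ (p * (p - 1)) := by
    rw [← pow_add]
    congr 1
    obtain ⟨q, hq⟩ : ∃ q, p = q + 1 := ⟨p - 1, by have := hp.pos; omega⟩
    rw [hq, Nat.add_sub_cancel]
    ring
  have h6 : (X 2 : D k) ^ (p * (p - 1)) = X 2 * X 2 ^ (p * (p - 1) - 1) := by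
    rw [← pow_succ', Nat.sub_add_cancel]
    have := hp.two_le
    exact Nat.mul_pos hp.pos (by omega)
  refine ⟨X 1 ^ p * d - X 2 ^ (p * (p - 1) - 1) * (X 0 ^ (p - 1) * X 1 ^ p), ?_⟩
  rw [h1, h2, h6]
  linear_combination X 1 ^ p * hd

/-- elements of `R` divisible by `X i` in `D` lie in all primes containing `X i ^ (p ^ 2)` -/
theorem mem_prime_of_dvd {P : Ideal (R p k)} [P.IsPrime] {i : Fin 3} (s : R p k)
    (hs : (s : D k) = X i ^ p ^ 2) (hsP : s ∈ P) {ρ : R p k} (h : X i ∣ (ρ : D k)) : ρ ∈ P := by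
  obtain ⟨d, hd⟩ := h
  have hX : (X i : D k) ^ p ^ 2 ≠ 0 := pow_ne_zero _ (X_ne_zero i)
  have h1 : d ^ p ^ 2 ∈ R p k := by
    refine R_div (s := X i ^ p ^ 2) (by rw [← hs]; exact s.2) hX ?_
    rw [← mul_pow, ← hd]
    exact pow_mem ρ.2 _
  have h2 : ρ ^ p ^ 2 = s * ⟨d ^ p ^ 2, h1⟩ := by
    apply Subtype.ext
    rw [Subalgebra.coe_mul, Subalgebra.coe_pow, hs, hd, mul_pow]
  have h3 : ρ ^ p ^ 2 ∈ P := by
    rw [h2]
    exact P.mul_mem_right _ hsP
  exact Ideal.IsPrime.mem_of_pow_mem inferInstance _ h3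

theorem split [IsAlgClosed k] (P : Ideal (R p k)) [P.IsPrime] (hP : uu p k ∉ P ∨ vv p k ∉ P) :
    ∃ φ, FSplit p (Localization.AtPrime P) φ := by
  have hp : p.Prime := Fact.out
  obtain ⟨φ0, hadd, hsmul, hone⟩ : ∃ φ : R p k → R p k, (∀ a b, φ (a + b) = φ a + φ b) ∧
      (∀ r a, φ (r ^ p * a) = r * φ a) ∧ φ 1 ∉ P := by
    by_cases hv : vv p k ∈ P
    · have hu : uu p k ∉ P := hP.resolve_right (fun h => h hv)
      obtain ⟨φ0, hadd, hsmul, hone⟩ := exists_phi0 (p := p) (k := k) hh_X01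
      refine ⟨φ0, hadd, hsmul, fun h => hu ?_⟩
      have h1 : X 2 ∣ ((φ0 1 - ((p - 1).factorial : R p k) * uu p k : R p k) : D k) := by
        have := Psi_X01 (p := p) (k := k)
        rw [← hone] at this
        simpa [uu] using this
      have h2 := mem_prime_of_dvd (P := P) (vv p k) rfl hv h1
      have h3 : ((p - 1).factorial : R p k) * uu p k ∈ P := by
        have := P.sub_mem h h2
        rwa [sub_sub_cancel] at this
      refine (Ideal.IsPrime.mem_or_mem inferInstance h3).resolve_left fun h4 => ?_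
      have h5 : (((p - 1).factorial : ℕ) : k) ≠ 0 := by
        intro h0
        rw [CharP.cast_eq_zero_iff k p, hp.dvd_factorial] at h0
        have := hp.pos
        omega
      have h6 : (1 : R p k) ∈ P := by
        have h7 : algebraMap k (R p k) ((((p - 1).factorial : ℕ) : k)⁻¹) *
            ((p - 1).factorial : R p k) = 1 := by
          rw [← map_natCast (algebraMap k (R p k)), ← map_mul, inv_mul_cancel₀ h5, map_one]
        rw [← h7]
        exact P.mul_mem_left _ h4
      exact Ideal.IsPrime.ne_top inferInstance ((Ideal.eq_top_iff_one P).2 h6)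
    · obtain ⟨φ0, hadd, hsmul, hone⟩ := exists_phi0 (p := p) (k := k) hh_X2
      refine ⟨φ0, hadd, hsmul, fun h => hv ?_⟩
      have h1 : φ0 1 = - vv p k := by
        apply Subtype.ext
        rw [hone, Psi_X2]
        rfl
      rw [h1] at h
      exact neg_mem_iff.1 h
  obtain ⟨φ', hadd', hsmul', hmap⟩ := ext_loc (B' := Localization.AtPrime P) hp.pos
    P.primeCompl hadd hsmul
  have hu : IsUnit (algebraMap (R p k) (Localization.AtPrime P) (φ0 1)) :=
    IsLocalization.map_units (Localization.AtPrime P) (⟨φ0 1, hone⟩ : P.primeCompl)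
  obtain ⟨v, hv⟩ := hu.exists_left_inv
  refine ⟨fun z => v * φ' z, ⟨?_, ?_, ?_⟩⟩
  · intro a b
    rw [hadd', mul_add]
  · intro r a
    rw [hsmul']
    ring
  · have : φ' 1 = algebraMap (R p k) (Localization.AtPrime P) (φ0 1) := by
      rw [← map_one (algebraMap (R p k) (Localization.AtPrime P)), hmap]
    rw [this, hv]

end

end Pool.Agent.KS6_68.BF
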