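import Pool.Agent.KS6_68.BF.Ring

/-! The structure of the ring of the example. -/

set_option autoImplicit false
set_option maxHeartbeats 400000

open MvPolynomial

namespace Pool.Agent.KS6_68.BF

attribute [-instance] ZMod.instField

section euler

variable {k : Type} [Field k]

theorem coeff_euler (i : Fin 3) (f : D k) (m : Fin 3 →₀ ℕ) :
    coeff m (X i * pderiv i f) = (m i : k) * coeff m f := by
  classical
  induction f using MvPolynomial.induction_on' with
  | monomial m' c =>
    rw [X_mul_pderiv_monomial, coeff_smul, coeff_monomial]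
    by_cases h : m' = m
    · rw [if_pos h, h, nsmul_eq_mul]
    · rw [if_neg h, smul_zero, mul_zero]
  | add f g hf hg => rw [map_add, mul_add, coeff_add, hf, hg, coeff_add, mul_add]

theorem euler_homog {A : Type} [AddCommGroup A] {w : Fin 3 → A} {f : D k} {a : A} (i : Fin 3)
    (hf : IsWeightedHomogeneous w f a) : IsWeightedHomogeneous w (X i * pderiv i f) a := by
  intro m hm
  rw [coeff_euler] at hm
  exact hf (right_ne_zero_of_mul hm)

theorem pderiv_homog {A : Type} [AddCommGroup A] {w : Fin 3 → A} {f : D k} {a : A} (i : Fin 3)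
    (hf : IsWeightedHomogeneous w f a) : IsWeightedHomogeneous w (pderiv i f) (a - w i) := by
  intro m hm
  rw [coeff_pderiv] at hm
  have h1 := hf (left_ne_zero_of_mul hm)
  rw [← h1, map_add, Finsupp.weight_single, one_smul]
  abel

end euler

section

variable {p : ℕ} {k : Type} [Field k]

theorem th_homog_b {f : D k} {b : ZMod p} (hf : IsWeightedHomogeneous (Wb p) f b) :
    IsWeightedHomogeneous (Wb p) (th p k f) b := by
  have h1 := (hWb_gam p k).mul (pderiv_homog 0 hf)
  have h2 := ((isWeightedHomogeneous_X k (Wb p) 2).pow p).mul (euler_homog 1 hf)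
  have e1 : (0 : ZMod p) + (b - Wb p 0) = b := by simp [Wb]
  have e2 : p • Wb p 2 + b = b := by simp [Wb]
  rw [e1] at h1
  rw [e2] at h2
  have h3 := h1.sub h2
  have e3 : th p k f = gam p k * pderiv 0 f - X 2 ^ p * (X 1 * pderiv 1 f) := by
    rw [th_apply]; ring
  rw [e3]
  exact h3

theorem th_homog_1 {f : D k} {b : ZMod (p ^ 2)} (hf : IsWeightedHomogeneous (W1 p) f b) :
    IsWeightedHomogeneous (W1 p) (th p k f) (b + p) := by
  have h1 := (hW1_gam p k).mul (pderiv_homog 0 hf)
  have h2 := ((isWeightedHomogeneous_X k (W1 p) 2).pow p).mul (euler_homog 1 hf)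
  have e1 : (p : ZMod (p ^ 2)) + (b - W1 p 0) = b + p := by rw [W1_0]; ring
  have e2 : p • W1 p 2 + b = b + p := by rw [W1_2, nsmul_eq_mul]; ring
  rw [e1] at h1
  rw [e2] at h2
  have h3 := h1.sub h2
  have e3 : th p k f = gam p k * pderiv 0 f - X 2 ^ p * (X 1 * pderiv 1 f) := by
    rw [th_apply]; ring
  rw [e3]
  exact h3

theorem euler_b [CharP k p] {f : D k} (j : ℕ) (hf : IsWeightedHomogeneous (Wb p) f (j : ZMod p)) :
    X 1 * pderiv 1 f = (j : D k) * f := by
  ext m
  rw [coeff_euler]
  have e : (j : D k) = C (j : k) := by simp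
  rw [e, coeff_C_mul]
  by_cases h : coeff m f = 0
  · rw [h, mul_zero, mul_zero]
  · congr 1
    have h1 := hf h
    rw [weight_three] at h1
    have h2 : ((m 1 : ℕ) : ZMod p) = (j : ZMod p) := by
      rw [← h1]; simp [Wb]
    rw [ZMod.natCast_eq_natCast_iff] at h2
    exact (CharP.natCast_eq_natCast' k p h2)

theorem gam_ne_zero : gam p k ≠ 0 := by
  intro h
  have h1 := congrArg (aeval (![0, 1, 0] : Fin 3 → k)) h
  simp only [gam, map_add, map_pow, map_mul, aeval_X, map_zero] at h1
  simp at h1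

theorem X2_not_dvd_gam : ¬ (X 2 : D k) ∣ gam p k := by
  rintro ⟨c, hc⟩
  have h1 := congrArg (aeval (![0, 1, 0] : Fin 3 → k)) hc
  rcases Nat.eq_zero_or_pos p with rfl | hp
  · simp [gam] at h1
  · simp [gam] at h1

theorem gam_dvd (n : ℕ) {z : D k} (h : gam p k ∣ X 2 ^ n * z) : gam p k ∣ z := by
  have h1 : IsRelPrime (X 2 : D k) (gam p k) :=
    (X_prime (R := k) (i := (2 : Fin 3))).irreducible.isRelPrime_iff_not_dvd.2 X2_not_dvd_gam
  exact (h1.symm.pow_right (n := n)).dvd_of_dvd_mul_left h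

theorem peel [CharP k p] (hp : 0 < p) (c : ℕ) (hc : c < p) (z : D k)
    (h : gam p k * pderiv 0 z = (c : D k) * (X 2 ^ p * z)) :
    ∃ y, z = gam p k ^ c * y ∧ pderiv 0 y = 0 := by
  induction c generalizing z with
  | zero =>
    refine ⟨z, by ring, ?_⟩
    rw [Nat.cast_zero, zero_mul] at h
    exact (mul_eq_zero.1 h).resolve_left gam_ne_zero
  | succ c ih =>
    have hu : ((c + 1 : ℕ) : k) ≠ 0 := by
      intro h0
      rw [CharP.cast_eq_zero_iff k p] at h0
      exact absurd (Nat.le_of_dvd (Nat.succ_pos c) h0) (by omega)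
    have h1 : gam p k ∣ X 2 ^ p * z := by
      refine ⟨C (((c + 1 : ℕ) : k)⁻¹) * pderiv 0 z, ?_⟩
      have e : ((c + 1 : ℕ) : D k) = C ((c + 1 : ℕ) : k) := by simp
      rw [e] at h
      calc X 2 ^ p * z = C (((c + 1 : ℕ) : k)⁻¹) * (C ((c + 1 : ℕ) : k) * (X 2 ^ p * z)) := by
            rw [← mul_assoc, ← C_mul, inv_mul_cancel₀ hu, C_1, one_mul]
        _ = _ := by rw [← h]; ring
    obtain ⟨z1, rfl⟩ := gam_dvd p h1
    have hg : pderiv 0 (gam p k) = X 2 ^ p := by
      rw [gam, map_add, pderiv_mul, pderiv_X_self, der_pow_p, der_pow_p]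
      ring
    rw [pderiv_mul, hg] at h
    have h2 : gam p k * pderiv 0 z1 = (c : D k) * (X 2 ^ p * z1) := by
      apply mul_left_cancel₀ (gam_ne_zero (p := p) (k := k))
      push_cast at h
      linear_combination h
    obtain ⟨y, hy, hy'⟩ := ih (by omega) z1 h2
    exact ⟨y, by rw [hy]; ring, hy'⟩

theorem dvd_exp [CharP k p] {y : D k} (i : Fin 3) (h : pderiv i y = 0) (m : Fin 3 →₀ ℕ)
    (hm : m ∈ y.support) : p ∣ m i := by
  have h1 := coeff_euler i y m
  rw [h, mul_zero, coeff_zero] at h1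
  have h2 := (mul_eq_zero.1 h1.symm).resolve_right (mem_support_iff.1 hm)
  rwa [CharP.cast_eq_zero_iff k p] at h2

/-- the basis elements -/
noncomputable def Wd (p : ℕ) (k : Type) [Field k] (b : ZMod p) : D k :=
  if b = 0 then 1 else ww p k b.val

/-- the classes of the coefficients -/
def cl (p : ℕ) (b : ZMod p) : ZMod p := if b = 0 then 0 else -1

/-- the exponents of the elements of weight zero and of `y` in `γ ^ j * y` -/
theorem exps (j : ℕ) (m : Fin 3 →₀ ℕ) (h1 : ((m 1 : ℕ) : ZMod p) = (j : ZMod p))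
    (hj : j < p)
    (h2 : m 1 • (1 - p : ZMod (p ^ 2)) + m 2 • (1 : ZMod (p ^ 2)) = - (j * p)) :
    ∃ a e : ℕ, m 1 = p * a + j ∧ m 2 + j = p * e ∧ ((a + e : ℕ) : ZMod p) = 0 := by
  have hp : 0 < p := by omega
  rw [ZMod.natCast_eq_natCast_iff] at h1
  have h3 : m 1 % p = j := by rw [h1, Nat.mod_eq_of_lt hj]
  refine ⟨m 1 / p, (m 2 + j) / p, ?_, ?_, ?_⟩
  · have := Nat.div_add_mod (m 1) p
    omega
  all_goals
    have ha : m 1 = p * (m 1 / p) + j := by
      have := Nat.div_add_mod (m 1) p
      omega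
    generalize m 1 / p = a at ha
    rw [nsmul_eq_mul, nsmul_eq_mul, ha] at h2
    push_cast at h2
    have h4 : ((p * a + j + m 2 : ℕ) : ZMod (p ^ 2)) = 0 := by
      push_cast
      linear_combination h2 + (a : ZMod (p ^ 2)) * wp2 p
    rw [ZMod.natCast_eq_zero_iff] at h4
    obtain ⟨c, hc⟩ := h4
    have h5 : m 2 + j = p * (p * c - a) := by
      rw [Nat.mul_sub]
      have : p * (p * c) = p ^ 2 * c := by ring
      rw [this]
      omega
  · rw [h5, Nat.mul_div_cancel_left _ hp]
  · rw [h5, Nat.mul_div_cancel_left _ hp]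
    have h6 : a ≤ p * c := by
      have : p * a ≤ p * (p * c) := by
        have : p * (p * c) = p ^ 2 * c := by ring
        rw [this, ← hc]
        omega
      exact Nat.le_of_mul_le_mul_left this hp
    rw [Nat.add_sub_cancel' h6]
    simp

theorem monomial_three (m : Fin 3 →₀ ℕ) (c : k) :
    (monomial m c : D k) = C c * (X 0 ^ m 0 * X 1 ^ m 1 * X 2 ^ m 2) := by
  rw [monomial_eq, Finsupp.prod_fintype _ _ (by simp), Fin.prod_univ_three]

/-- polynomials all whose monomials are of the form `X 1 ^ j * X 2 ^ l * E _` -/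
theorem exists_E' (j l : ℕ) (Q : (Fin 3 →₀ ℕ) → Prop) {f : D k}
    (h : ∀ m ∈ f.support, ∃ m' : Fin 3 →₀ ℕ, m 0 = p * m' 0 ∧ m 1 = p * m' 1 + j ∧
      m 2 = p * m' 2 + l ∧ Q m') :
    ∃ a : D k, f = X 1 ^ j * X 2 ^ l * E p k a ∧ ∀ m ∈ a.support, Q m := by
  classical
  choose! g hg0 hg1 hg2 hgQ using h
  refine ⟨∑ m ∈ f.support, monomial (g m) (coeff m f), ?_, ?_⟩
  · rw [map_sum, Finset.mul_sum]
    conv_lhs => rw [f.as_sum]
    refine Finset.sum_congr rfl fun m hm => ?_
    rw [E, MvPolynomial.expand_monomial, monomial_three, monomial_three, hg0 m hm, hg1 m hm,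
      hg2 m hm]
    simp only [Finsupp.smul_apply, smul_eq_mul]
    ring
  · intro m hm
    obtain ⟨m', hm', hm2⟩ := Finset.mem_biUnion.1 (MvPolynomial.support_sum hm)
    have h3 := support_monomial_subset hm2
    rw [Finset.mem_singleton] at h3
    rw [h3]
    exact hgQ m' hm'

theorem struct [Fact p.Prime] [CharP k p] {z : D k} (hz : z ∈ RK p k) (b : ZMod p) :
    ∃ B : D k, IsWeightedHomogeneous (Wc p) B (cl p b) ∧ cmp (Wb p) b z = E p k B * Wd p k b := by
  have hp : p.Prime := Fact.out
  have hp0 : 0 < p := hp.pos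
  -- the components
  set y := cmp (Wb p) b z with hy
  have hyb : IsWeightedHomogeneous (Wb p) y b := cmp_homog b z
  have hy1 : IsWeightedHomogeneous (W1 p) y 0 := by
    classical
    intro m hm
    rw [hy, cmp, coeff_weightedHomogeneousComponent] at hm
    split_ifs at hm
    · exact hz.1 hm
    · exact absurd rfl hm
  have hth : th p k y = 0 := by
    have h1 : ∑ a : ZMod p, th p k (cmp (Wb p) a z) = 0 := by
      rw [← map_sum, sum_cmp]
      exact hz.2
    have h2 := congrArg (cmp (Wb p) b) h1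
    rw [map_sum, map_zero, Finset.sum_eq_single b] at h2
    · have h3 : IsWeightedHomogeneous (Wb p) (th p k (cmp (Wb p) b z)) b :=
        th_homog_b (cmp_homog b z)
      rwa [cmp_self h3] at h2
    · intro a _ ha
      have h3 : IsWeightedHomogeneous (Wb p) (th p k (cmp (Wb p) a z)) a :=
        th_homog_b (cmp_homog a z)
      exact cmp_ne h3 ha
    · intro h
      exact absurd (Finset.mem_univ b) h
  set j := b.val with hj
  have hjb : ((j : ℕ) : ZMod p) = b := ZMod.natCast_zmod_val b
  have hjp : j < p := ZMod.val_lt b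
  have hE : gam p k * pderiv 0 y = (j : D k) * (X 2 ^ p * y) := by
    have h1 := euler_b (k := k) j (by rw [hjb]; exact hyb)
    rw [th_apply] at hth
    linear_combination hth + X 2 ^ p * h1
  obtain ⟨u, hu, hu'⟩ := peel hp0 j hjp y hE
  have hg0 : gam p k ^ j ≠ 0 := pow_ne_zero _ gam_ne_zero
  have hub : IsWeightedHomogeneous (Wb p) u (j : ZMod p) := by
    have h1 := (hWb_gam p k).pow j
    rw [smul_zero] at h1
    have h2 := homog_of_mul hg0 h1 (by rw [← hu]; exact hyb)
    rwa [sub_zero, ← hjb] at h2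
  have hu1 : IsWeightedHomogeneous (W1 p) u (-(j * p)) := by
    have h2 := homog_of_mul hg0 ((hW1_gam p k).pow j) (by rw [← hu]; exact hy1)
    rwa [nsmul_eq_mul, zero_sub] at h2
  have hexp : ∀ m ∈ u.support, ∃ a e : ℕ, m 1 = p * a + j ∧ m 2 + j = p * e ∧
      ((a + e : ℕ) : ZMod p) = 0 := by
    intro m hm
    have h1 := hub (mem_support_iff.1 hm)
    have h2 := hu1 (mem_support_iff.1 hm)
    rw [weight_three] at h1 h2
    refine exps j m ?_ hjp ?_
    · rw [← h1]; simp [Wb]
    · rw [← h2, W1_0, W1_1, W1_2, smul_zero, zero_add]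
  by_cases hb : b = 0
  · have hj0 : j = 0 := by rw [hj, hb, ZMod.val_zero]
    obtain ⟨a, ha, ha'⟩ := exists_E' (p := p) 0 0
      (fun m => ((m 1 + m 2 : ℕ) : ZMod p) = 0) (f := u) (by
        intro m hm
        obtain ⟨a, e, h1, h2, h3⟩ := hexp m hm
        obtain ⟨c, hc⟩ := dvd_exp 0 hu' m hm
        refine ⟨Finsupp.single 0 c + Finsupp.single 1 a + Finsupp.single 2 e, ?_, ?_, ?_, ?_⟩
        · simp [hc]
        · simp [h1, hj0]
        · simpa [hj0] using h2
        · simpa using h3)
    refine ⟨a, ?_, ?_⟩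
    · intro m hm
      have := ha' m (mem_support_iff.2 hm)
      rw [weight_three, cl, if_pos hb]
      simpa [Wc] using this
    · rw [Wd, if_pos hb, hu, ha, hj0]
      ring
  · have hj0 : j ≠ 0 := by
      intro h
      apply hb
      rw [← hjb, h, Nat.cast_zero]
    obtain ⟨a, ha, ha'⟩ := exists_E' (p := p) j (p - j)
      (fun m => ((m 1 + m 2 : ℕ) : ZMod p) = -1) (f := u) (by
        intro m hm
        obtain ⟨a, e, h1, h2, h3⟩ := hexp m hm
        obtain ⟨c, hc⟩ := dvd_exp 0 hu' m hm
        have he : 0 < e := by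
          rcases Nat.eq_zero_or_pos e with h | h
          · rw [h] at h2; omega
          · exact h
        refine ⟨Finsupp.single 0 c + Finsupp.single 1 a + Finsupp.single 2 (e - 1), ?_, ?_, ?_, ?_⟩
        · simp [hc]
        · simp [h1]
        · have h4 : p * e = p * (e - 1) + p := by
            conv_lhs => rw [show e = (e - 1) + 1 by omega]
            ring
          simp
          omega
        · have h5 : a + (e - 1) + 1 = a + e := by omega
          have h6 : ((a + (e - 1) : ℕ) : ZMod p) + 1 = 0 := by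
            rw [← h3, ← h5]; push_cast; ring
          simpa using eq_neg_of_add_eq_zero_left h6)
    refine ⟨a, ?_, ?_⟩
    · intro m hm
      have := ha' m (mem_support_iff.2 hm)
      rw [weight_three, cl, if_neg hb]
      simpa [Wc] using this
    · rw [Wd, if_neg hb, hu, ha, ww, ← hj, mul_pow]
      ring

end

end Pool.Agent.KS6_68.BF
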