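import Pool.Agent.KS6_68.BF.GStmts

/-!
# Vanishing of the Cech cohomology below the length of a regular sequence
(the library module `H503R3.NF.VanC_helper700`, with signs)
-/

set_option autoImplicit false

namespace Pool.Agent.KS6_68.BF.VanCx

section basic

variable {B : Type} [CommRing B] {n : ℕ}

theorem hom_ext_L {x : Fin n → B} {S : Finset (Fin n)} {A : Type} [CommRing A]
    {f g : L x S →+* A} (h : ∀ b, f (algebraMap B (L x S) b) = g (algebraMap B (L x S) b)) :
    f = g :=
  IsLocalization.ringHom_ext (Submonoid.powers (∏ l ∈ S, x l)) (RingHom.ext h)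

@[simp] theorem res_algebraMap (x : Fin n → B) {S' S : Finset (Fin n)} (h : S' ⊆ S) (b : B) :
    res x h (algebraMap B (L x S') b) = algebraMap B (L x S) b :=
  IsLocalization.Away.lift_eq _ _ b

theorem res_res (x : Fin n → B) {S'' S' S : Finset (Fin n)} (h1 : S'' ⊆ S') (h2 : S' ⊆ S)
    (c : L x S'') : res x h2 (res x h1 c) = res x (h1.trans h2) c := by
  have : (res x h2).comp (res x h1) = res x (h1.trans h2) := by
    apply hom_ext_L
    intro b
    simp
  exact RingHom.congr_fun this c

theorem res_self (x : Fin n → B) {S : Finset (Fin n)} (h : S ⊆ S) (c : L x S) :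
    res x h c = c := by
  have : res x h = RingHom.id _ := by
    apply hom_ext_L
    intro b
    simp
  rw [this]
  rfl

/-- families of elements of all localisations -/
abbrev Fam (x : Fin n → B) : Type := ∀ S : Finset (Fin n), L x S

theorem res_congr (x : Fin n → B) (f : Fam x) {S₁ S₂ T : Finset (Fin n)} (e : S₁ = S₂)
    (h1 : S₁ ⊆ T) (h2 : S₂ ⊆ T) : res x h1 (f S₁) = res x h2 (f S₂) := by
  subst e
  rfl

theorem res_smul (x : Fin n → B) {S' S : Finset (Fin n)} (h : S' ⊆ S) (b : B) (y : L x S') :
    res x h (b • y) = b • res x h y := by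
  rw [Algebra.smul_def, Algebra.smul_def, map_mul, res_algebraMap]

/-- the number of smaller elements -/
def ct (l : Fin n) (S : Finset (Fin n)) : ℕ := (S.filter (fun m => m < l)).card

omit [CommRing B] in
theorem ct_erase_self (l : Fin n) (S : Finset (Fin n)) : ct l (S.erase l) = ct l S := by
  unfold ct
  congr 1
  ext m
  simp only [Finset.mem_filter, Finset.mem_erase]
  constructor
  · rintro ⟨⟨-, h⟩, h'⟩
    exact ⟨h, h'⟩
  · rintro ⟨h, h'⟩
    exact ⟨⟨h'.ne, h⟩, h'⟩

theorem ct_insert_self (l : Fin n) (S : Finset (Fin n)) : ct l (insert l S) = ct l S := by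
  unfold ct
  congr 1
  ext m
  simp only [Finset.mem_filter, Finset.mem_insert]
  constructor
  · rintro ⟨h | h, h'⟩
    · exact absurd h' (by rw [h]; exact lt_irrefl _)
    · exact ⟨h, h'⟩
  · rintro ⟨h, h'⟩
    exact ⟨Or.inr h, h'⟩

theorem ct_erase_lt {l m : Fin n} {S : Finset (Fin n)} (hl : l ∈ S) (h : l < m) :
    ct m S = ct m (S.erase l) + 1 := by
  unfold ct
  have h1 : (S.filter (fun x => x < m)).erase l = (S.erase l).filter (fun x => x < m) := by
    ext x
    simp only [Finset.mem_filter, Finset.mem_erase]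
    tauto
  rw [← h1, Finset.card_erase_add_one (Finset.mem_filter.2 ⟨hl, h⟩)]

theorem ct_erase_gt {l m : Fin n} {S : Finset (Fin n)} (h : m < l) :
    ct m S = ct m (S.erase l) := by
  unfold ct
  congr 1
  ext x
  simp only [Finset.mem_filter, Finset.mem_erase]
  constructor
  · rintro ⟨h1, h2⟩
    exact ⟨⟨(h2.trans h).ne, h1⟩, h2⟩
  · rintro ⟨⟨-, h1⟩, h2⟩
    exact ⟨h1, h2⟩

/-- the sign rule -/
theorem ct_swap {l m : Fin n} {S : Finset (Fin n)} (hl : l ∈ S) (hm : m ∈ S) (h : l ≠ m)
    (A : Type) [CommRing A] :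
    (-1 : A) ^ ct l S * (-1) ^ ct m (S.erase l) = - ((-1) ^ ct m S * (-1) ^ ct l (S.erase m)) := by
  rcases lt_or_gt_of_ne h with h | h
  · rw [ct_erase_lt hl h, ← ct_erase_gt h, pow_succ]
    ring
  · rw [ct_erase_lt hm h, ← ct_erase_gt h, pow_succ]
    ring

theorem neg_one_pow_sq (A : Type) [CommRing A] (j : ℕ) : (-1 : A) ^ j * (-1) ^ j = 1 := by
  rw [← pow_add, ← two_mul, pow_mul]
  simp

/-- the differential on families -/
noncomputable def D (x : Fin n → B) (f : Fam x) : Fam x :=
  fun S => ∑ l ∈ S, (-1) ^ ct l S * res x (Finset.erase_subset l S) (f (S.erase l))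

theorem D_add (x : Fin n → B) (f g : Fam x) : D x (f + g) = D x f + D x g := by
  funext S
  simp only [D, Pi.add_apply, map_add, mul_add, Finset.sum_add_distrib]

theorem D_sub (x : Fin n → B) (f g : Fam x) : D x (f - g) = D x f - D x g := by
  funext S
  simp only [D, Pi.sub_apply, map_sub, mul_sub, Finset.sum_sub_distrib]

theorem D_smul (x : Fin n → B) (b : B) (f : Fam x) : D x (b • f) = b • D x f := by
  funext S
  simp only [D, Pi.smul_apply, res_smul, Finset.smul_sum, mul_smul_comm]

theorem D_D (x : Fin n → B) (f : Fam x) : D x (D x f) = 0 := by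
  funext S
  have h1 : D x (D x f) S = ∑ a ∈ S.sigma (fun l => S.erase l),
      ((-1) ^ ct a.1 S * (-1) ^ ct a.2 (S.erase a.1)) *
      res x ((Finset.erase_subset a.2 _).trans (Finset.erase_subset a.1 S))
        (f ((S.erase a.1).erase a.2)) := by
    rw [Finset.sum_sigma]
    unfold D
    refine Finset.sum_congr rfl fun l _ => ?_
    rw [map_sum, Finset.mul_sum]
    refine Finset.sum_congr rfl fun m _ => ?_
    rw [map_mul, map_pow, map_neg, map_one, res_res, mul_assoc]
  rw [h1]
  change _ = (0 : L x S)
  refine Finset.sum_involution (fun a _ => ⟨a.2, a.1⟩) ?_ ?_ ?_ ?_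
  · rintro ⟨l, m⟩ h
    simp only [Finset.mem_sigma, Finset.mem_erase] at h
    have h3 := res_congr x f (Finset.erase_right_comm (a := l) (b := m) (s := S))
      ((Finset.erase_subset m _).trans (Finset.erase_subset l S))
      ((Finset.erase_subset l _).trans (Finset.erase_subset m S))
    change ((-1) ^ ct l S * (-1) ^ ct m (S.erase l)) * _ +
      ((-1) ^ ct m S * (-1) ^ ct l (S.erase m)) * res x _ (f ((S.erase m).erase l)) = 0
    rw [← h3, ct_swap h.1 h.2.2 (fun e => h.2.1 e.symm)]
    ring
  · rintro ⟨l, m⟩ h _ heq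
    simp only [Finset.mem_sigma, Finset.mem_erase] at h
    exact h.2.1 (congrArg Sigma.fst heq)
  · rintro ⟨l, m⟩ h
    simp only [Finset.mem_sigma, Finset.mem_erase] at h ⊢
    exact ⟨h.2.2, fun e => h.2.1 e.symm, h.1⟩
  · rintro ⟨l, m⟩ _
    rfl

/-- multiplication by the denominator -/
theorem exists_den (x : Fin n → B) {S : Finset (Fin n)} (z : L x S) :
    ∃ (m : ℕ) (b : B), algebraMap B (L x S) (∏ k ∈ S, x k) ^ m * z = algebraMap B (L x S) b := by
  obtain ⟨m, b, hb⟩ := IsLocalization.Away.surj (∏ k ∈ S, x k) z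
  exact ⟨m, b, by rw [mul_comm]; exact hb⟩

theorem eq_zero_iff (x : Fin n → B) {S : Finset (Fin n)} (b : B) :
    algebraMap B (L x S) b = 0 ↔ ∃ k : ℕ, (∏ l ∈ S, x l) ^ k * b = 0 := by
  constructor
  · intro h
    rw [← map_zero (algebraMap B (L x S))] at h
    obtain ⟨k, hk⟩ := IsLocalization.Away.exists_of_eq (∏ l ∈ S, x l) h
    exact ⟨k, by rw [hk, mul_zero]⟩
  · rintro ⟨k, hk⟩
    have h1 := congrArg (algebraMap B (L x S)) hk
    rw [map_mul, map_pow, map_zero] at h1
    exact (((isUnit_prod x subset_rfl).pow k).mul_right_eq_zero).1 h1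

theorem K1 (x : Fin n → B) {S : Finset (Fin n)} {l : Fin n} (hl : l ∉ S) (z : L x (insert l S)) :
    ∃ M : ℕ, ∀ M' ≥ M, ∃ y : L x S, res x (Finset.subset_insert l S) y = x l ^ M' • z := by
  obtain ⟨m, b, hb⟩ := exists_den x z
  obtain ⟨u, hu⟩ := (isUnit_prod x (subset_rfl : S ⊆ S)).pow m
  have hy0 : res x (Finset.subset_insert l S) (↑(u⁻¹) * algebraMap B (L x S) b) =
      x l ^ m • z := by
    have hv : IsUnit (algebraMap B (L x (insert l S)) (∏ k ∈ S, x k) ^ m) :=
      (isUnit_prod x (Finset.subset_insert l S)).pow m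
    have e1 : algebraMap B (L x S) (∏ k ∈ S, x k) ^ m * (↑(u⁻¹) * algebraMap B (L x S) b) =
        algebraMap B (L x S) b := by
      rw [← hu, Units.mul_inv_cancel_left]
    have e2 := congrArg (res x (Finset.subset_insert l S)) e1
    have e3 : algebraMap B (L x (insert l S)) (∏ k ∈ insert l S, x k) =
        algebraMap B (L x (insert l S)) (x l) *
          algebraMap B (L x (insert l S)) (∏ k ∈ S, x k) := by
      rw [← map_mul]
      exact congrArg _ (Finset.prod_insert hl)
    rw [map_mul, map_pow, res_algebraMap, res_algebraMap, ← hb, e3, mul_pow] at e2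
    refine hv.mul_left_cancel ?_
    rw [e2, Algebra.smul_def, map_pow]
    ring
  refine ⟨m, fun M' hM' => ⟨x l ^ (M' - m) • (↑(u⁻¹) * algebraMap B (L x S) b), ?_⟩⟩
  rw [res_smul, hy0, smul_smul, ← pow_add]
  congr 2
  omega

theorem K2 (x : Fin n → B) {S : Finset (Fin n)} {l : Fin n} (hl : l ∉ S) (y : L x S)
    (hy : res x (Finset.subset_insert l S) y = 0) : ∃ M : ℕ, ∀ M' ≥ M, x l ^ M' • y = 0 := by
  obtain ⟨m, b, hb⟩ := exists_den x y
  have e1 := congrArg (res x (Finset.subset_insert l S)) hb
  rw [map_mul, hy, mul_zero, res_algebraMap, eq_comm, eq_zero_iff] at e1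
  obtain ⟨k, hk⟩ := e1
  rw [Finset.prod_insert hl, mul_pow] at hk
  have e2 : x l ^ k • algebraMap B (L x S) b = 0 := by
    rw [Algebra.smul_def, ← map_mul, eq_zero_iff]
    exact ⟨k, by rw [← hk]; ring⟩
  rw [← hb, ← mul_smul_comm] at e2
  have e3 : x l ^ k • y = 0 := (((isUnit_prod x subset_rfl).pow m).mul_right_eq_zero).1 e2
  refine ⟨k, fun M' hM' => ?_⟩
  have : x l ^ M' = x l ^ (M' - k) * x l ^ k := by
    rw [← pow_add]
    congr 1
    omega
  rw [this, mul_smul, e3, smul_zero]

/-- `f` is supported in degree `i` -/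
def Hom (x : Fin n → B) (i : ℕ) (f : Fam x) : Prop := ∀ S, S.card ≠ i → f S = 0

/-- `f` is the boundary of a family supported in degree `i - 1` -/
def CoB (x : Fin n → B) (i : ℕ) (f : Fam x) : Prop :=
  ∃ g : Fam x, (∀ S, S.card + 1 ≠ i → g S = 0) ∧ D x g = f

theorem exists_lift (x : Fin n → B) (f : Fam x) (l : Fin n) : ∃ (M : ℕ) (h : Fam x),
    (∀ S, l ∈ S → h S = 0) ∧ (∀ S, f (insert l S) = 0 → h S = 0) ∧
    ∀ S T (hT : insert l S ⊆ T), l ∉ S →
      res x ((Finset.subset_insert l S).trans hT) (h S) = x l ^ M • res x hT (f (insert l S)) := by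
  classical
  have h1 : ∀ S : Finset (Fin n), ∃ M : ℕ, ∀ M' ≥ M, l ∉ S →
      ∃ y : L x S, res x (Finset.subset_insert l S) y = x l ^ M' • f (insert l S) := by
    intro S
    by_cases hl : l ∈ S
    · exact ⟨0, fun _ _ h => absurd hl h⟩
    · obtain ⟨M, hM⟩ := K1 x hl (f (insert l S))
      exact ⟨M, fun M' hM' _ => hM M' hM'⟩
  choose M hM using h1
  have h2 : ∀ S : Finset (Fin n), ∃ y : L x S, l ∉ S →
      res x (Finset.subset_insert l S) y = x l ^ (Finset.univ.sup M) • f (insert l S) := by
    intro S
    by_cases hl : l ∈ S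
    · exact ⟨0, fun h => absurd hl h⟩
    · obtain ⟨y, hy⟩ := hM S (Finset.univ.sup M) (Finset.le_sup (Finset.mem_univ S)) hl
      exact ⟨y, fun _ => hy⟩
  choose y hy using h2
  refine ⟨Finset.univ.sup M, fun S => if l ∈ S ∨ f (insert l S) = 0 then 0 else y S,
    fun S hS => if_pos (Or.inl hS), fun S hS => if_pos (Or.inr hS), fun S T hT hl => ?_⟩
  by_cases h0 : f (insert l S) = 0
  · simp only [h0, or_true, if_true, map_zero, smul_zero]
  · simp only [h0, hl, or_self, if_false]
    rw [← res_res x (Finset.subset_insert l S) hT, hy S hl, res_smul]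

theorem res_neg_one (x : Fin n → B) {S' S : Finset (Fin n)} (h : S' ⊆ S) (j : ℕ) (y : L x S') :
    res x h ((-1) ^ j * y) = (-1) ^ j * res x h y := by
  rw [map_mul, map_pow, map_neg, map_one]

theorem torsion (x : Fin n → B) (i : ℕ) (f : Fam x) (hf : Hom x i f)
    (hD : D x f = 0) (l : Fin n) : ∃ M : ℕ, CoB x i (x l ^ M • f) := by
  classical
  obtain ⟨M, h0, ha0, hb0, hc0⟩ := exists_lift x f l
  obtain ⟨h, hh⟩ : ∃ h : Fam x, ∀ S, h S = (-1) ^ ct l S * h0 S := ⟨_, fun _ => rfl⟩
  have ha : ∀ S, l ∈ S → h S = 0 := fun S hS => by rw [hh, ha0 S hS, mul_zero]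
  have hb : ∀ S, f (insert l S) = 0 → h S = 0 := fun S hS => by rw [hh, hb0 S hS, mul_zero]
  have hc : ∀ S T (hT : insert l S ⊆ T), l ∉ S →
      res x ((Finset.subset_insert l S).trans hT) (h S) =
        (-1) ^ ct l S * (x l ^ M • res x hT (f (insert l S))) := by
    intro S T hT hl
    rw [hh, res_neg_one, hc0 S T hT hl]
  have hin : ∀ S, l ∈ S → D x h S = x l ^ M • f S := by
    intro S hS
    have e1 : D x h S = (-1) ^ ct l S * res x (Finset.erase_subset l S) (h (S.erase l)) := by
      refine Finset.sum_eq_single_of_mem l hS fun m _ hml => ?_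
      rw [ha (S.erase m) (Finset.mem_erase.2 ⟨fun e => hml e.symm, hS⟩), map_zero, mul_zero]
    have e2 : insert l (S.erase l) = S := Finset.insert_erase hS
    rw [e1, hc (S.erase l) S e2.subset (Finset.notMem_erase l S),
      res_congr x f e2 e2.subset subset_rfl, res_self, ct_erase_self, ← mul_assoc,
      neg_one_pow_sq, one_mul]
  have hnot : ∀ S, l ∉ S → res x (Finset.subset_insert l S) (D x h S - x l ^ M • f S) = 0 := by
    intro S hS
    have e1 : res x (Finset.subset_insert l S) (D x h S) = x l ^ M • ∑ m ∈ S,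
        ((-1) ^ ct m S * (-1) ^ ct l (S.erase m)) *
          res x (Finset.erase_subset m (insert l S)) (f ((insert l S).erase m)) := by
      unfold D
      rw [map_sum, Finset.smul_sum]
      refine Finset.sum_congr rfl fun m hm => ?_
      have hml : l ≠ m := fun e => hS (e ▸ hm)
      have e3 : (insert l S).erase m = insert l (S.erase m) := Finset.erase_insert_of_ne hml
      have e4 : insert l (S.erase m) ⊆ insert l S := e3 ▸ Finset.erase_subset m (insert l S)
      rw [res_neg_one, res_res, res_congr x f e3 _ e4,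
        hc (S.erase m) (insert l S) e4 fun e => hS (Finset.mem_of_mem_erase e),
        mul_smul_comm, mul_smul_comm, mul_assoc]
    have e5 : D x f (insert l S) = 0 := by rw [hD]; rfl
    have e6 : D x f (insert l S) = (-1) ^ ct l S * res x (Finset.subset_insert l S) (f S) +
        ∑ m ∈ S, (-1) ^ ct m (insert l S) *
          res x (Finset.erase_subset m (insert l S)) (f ((insert l S).erase m)) := by
      unfold D
      rw [Finset.sum_insert hS, ct_insert_self,
        res_congr x f (Finset.erase_insert hS) _ (Finset.subset_insert l S)]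
    have e7 : ∑ m ∈ S, ((-1) ^ ct m S * (-1) ^ ct l (S.erase m)) *
          res x (Finset.erase_subset m (insert l S)) (f ((insert l S).erase m)) =
        res x (Finset.subset_insert l S) (f S) := by
      have e8 : ∑ m ∈ S, ((-1) ^ ct m S * (-1) ^ ct l (S.erase m)) *
          res x (Finset.erase_subset m (insert l S)) (f ((insert l S).erase m)) =
          - ((-1) ^ ct l S * ∑ m ∈ S, (-1) ^ ct m (insert l S) *
          res x (Finset.erase_subset m (insert l S)) (f ((insert l S).erase m))) := by
        rw [Finset.mul_sum, ← Finset.sum_neg_distrib]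
        refine Finset.sum_congr rfl fun m hm => ?_
        have hml : l ≠ m := fun e => hS (e ▸ hm)
        have hl' : l ∈ insert l S := Finset.mem_insert_self l S
        have hm' : m ∈ insert l S := Finset.mem_insert_of_mem hm
        have e9 := ct_swap hl' hm' hml (L x (insert l S))
        rw [ct_insert_self, Finset.erase_insert hS] at e9
        have e10 : ct l ((insert l S).erase m) = ct l (S.erase m) := by
          rw [Finset.erase_insert_of_ne hml, ct_insert_self]
        rw [e10] at e9
        have e11 := neg_one_pow_sq (L x (insert l S)) (ct l S)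
        have e12 := neg_one_pow_sq (L x (insert l S)) (ct l (S.erase m))
        -- a * b = -(c * d), a ^ 2 = 1, d ^ 2 = 1 ⟹ b * d = -(a * c)
        have e13 : ((-1 : L x (insert l S)) ^ ct m S * (-1) ^ ct l (S.erase m)) =
            - ((-1) ^ ct l S * (-1) ^ ct m (insert l S)) := by
          linear_combination ((-1 : L x (insert l S)) ^ ct l S * (-1) ^ ct l (S.erase m)) * e9 -
            ((-1 : L x (insert l S)) ^ ct m S * (-1) ^ ct l (S.erase m)) * e11 -
            ((-1 : L x (insert l S)) ^ ct l S * (-1) ^ ct m (insert l S)) * e12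
        rw [e13]
        ring
      rw [e8]
      rw [e6] at e5
      have e11 := neg_one_pow_sq (L x (insert l S)) (ct l S)
      linear_combination (- (-1 : L x (insert l S)) ^ ct l S) * e5 +
        (res x (Finset.subset_insert l S) (f S)) * e11
    rw [map_sub, e1, e7, res_smul, sub_self]
  have hK : ∀ S : Finset (Fin n), ∃ K : ℕ, ∀ K' ≥ K, x l ^ K' • (D x h S - x l ^ M • f S) = 0 := by
    intro S
    by_cases hS : l ∈ S
    · exact ⟨0, fun K' _ => by rw [hin S hS, sub_self, smul_zero]⟩
    · exact K2 x hS _ (hnot S hS)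
  choose K hK using hK
  refine ⟨Finset.univ.sup K + M, x l ^ (Finset.univ.sup K) • h, fun S hS => ?_, ?_⟩
  · rw [Pi.smul_apply]
    by_cases hl : l ∈ S
    · rw [ha S hl, smul_zero]
    · rw [hb S (hf _ (by rw [Finset.card_insert_of_notMem hl]; exact hS)), smul_zero]
  · rw [D_smul, pow_add, mul_smul, ← sub_eq_zero, ← smul_sub]
    funext S
    exact hK S _ (Finset.le_sup (Finset.mem_univ S))

theorem CoB.add {x : Fin n → B} {i : ℕ} {f g : Fam x} (hf : CoB x i f) (hg : CoB x i g) :
    CoB x i (f + g) := by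
  obtain ⟨f', hf1, hf2⟩ := hf
  obtain ⟨g', hg1, hg2⟩ := hg
  exact ⟨f' + g', fun S hS => by rw [Pi.add_apply, hf1 S hS, hg1 S hS, add_zero],
    by rw [D_add, hf2, hg2]⟩

theorem CoB.smul {x : Fin n → B} {i : ℕ} {f : Fam x} (hf : CoB x i f) (b : B) :
    CoB x i (b • f) := by
  obtain ⟨f', hf1, hf2⟩ := hf
  exact ⟨b • f', fun S hS => by rw [Pi.smul_apply, hf1 S hS, smul_zero], by rw [D_smul, hf2]⟩

theorem CoB.zero (x : Fin n → B) (i : ℕ) : CoB x i (0 : Fam x) := by
  refine ⟨0, fun S _ => rfl, ?_⟩
  have := D_smul x (0 : B) (0 : Fam x)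
  simpa using this

/-- the ideal of the elements which make `f` a coboundary -/
def annI (x : Fin n → B) (i : ℕ) (f : Fam x) : Ideal B where
  carrier := {b | CoB x i (b • f)}
  add_mem' := fun {a b} ha hb => by
    change CoB x i ((a + b) • f)
    rw [add_smul]
    exact CoB.add ha hb
  zero_mem' := by
    change CoB x i ((0 : B) • f)
    rw [zero_smul]
    exact CoB.zero x i
  smul_mem' := fun a b hb => by
    change CoB x i ((a • b) • f)
    rw [smul_eq_mul, mul_smul]
    exact CoB.smul hb a

theorem radical_torsion (x : Fin n → B) (i : ℕ) (f : Fam x)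
    (hf : Hom x i f) (hD : D x f = 0) (z : B) (hz : z ∈ (Ideal.span (Set.range x)).radical) :
    ∃ N : ℕ, CoB x i (z ^ N • f) := by
  have h1 : Ideal.span (Set.range x) ≤ (annI x i f).radical := by
    rw [Ideal.span_le]
    rintro _ ⟨l, rfl⟩
    exact torsion x i f hf hD l
  have h3 : (Ideal.span (Set.range x)).radical ≤ (annI x i f).radical := by
    have := Ideal.radical_mono h1
    rwa [Ideal.radical_idem] at this
  exact h3 hz

theorem regL (x : Fin n → B) {z : B} (hz : IsSMulRegular B z) {S : Finset (Fin n)} {y : L x S}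
    (hy : z • y = 0) : y = 0 := by
  obtain ⟨m, b, hb⟩ := exists_den x y
  have h1 : algebraMap B (L x S) (z * b) = 0 := by
    rw [map_mul, ← hb, mul_left_comm, ← Algebra.smul_def, hy, mul_zero]
  obtain ⟨k, hk⟩ := (eq_zero_iff x _).1 h1
  have h3 : z • ((∏ l ∈ S, x l) ^ k * b) = z • (0 : B) := by
    rw [smul_eq_mul, smul_zero, ← hk]
    ring
  have h4 := hz h3
  have h5 : algebraMap B (L x S) b = 0 := (eq_zero_iff x _).2 ⟨k, h4⟩
  rw [h5] at hb
  exact (((isUnit_prod x subset_rfl).pow m).mul_right_eq_zero).1 hb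

end basic

section functor

variable {B B' : Type} [CommRing B] [CommRing B'] {n : ℕ}

theorem isUnit_map (f : B →+* B') (x : Fin n → B) (S : Finset (Fin n)) :
    IsUnit (((algebraMap B' (L (fun l => f (x l)) S)).comp f) (∏ l ∈ S, x l)) := by
  rw [RingHom.comp_apply, map_prod]
  exact IsLocalization.Away.algebraMap_isUnit _

/-- The map of localisations induced by a ring hom. -/
noncomputable def mapL (f : B →+* B') (x : Fin n → B) (S : Finset (Fin n)) :
    L x S →+* L (fun l => f (x l)) S :=
  IsLocalization.Away.lift (∏ l ∈ S, x l) (isUnit_map f x S)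

@[simp] theorem mapL_algebraMap (f : B →+* B') (x : Fin n → B) (S : Finset (Fin n)) (b : B) :
    mapL f x S (algebraMap B (L x S) b) = algebraMap B' (L (fun l => f (x l)) S) (f b) :=
  IsLocalization.Away.lift_eq _ _ b

theorem mapL_res (f : B →+* B') (x : Fin n → B) {S' S : Finset (Fin n)} (h : S' ⊆ S)
    (c : L x S') : mapL f x S (res x h c) = res (fun l => f (x l)) h (mapL f x S' c) := by
  have : (mapL f x S).comp (res x h) = (res (fun l => f (x l)) h).comp (mapL f x S') := by
    apply hom_ext_L
    intro b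
    simp
  exact RingHom.congr_fun this c

/-- the map of families -/
noncomputable def mapF (f : B →+* B') (x : Fin n → B) (c : Fam x) : Fam (fun l => f (x l)) :=
  fun S => mapL f x S (c S)

theorem mapF_D (f : B →+* B') (x : Fin n → B) (c : Fam x) :
    mapF f x (D x c) = D (fun l => f (x l)) (mapF f x c) := by
  funext S
  unfold mapF D
  rw [map_sum]
  refine Finset.sum_congr rfl fun l _ => ?_
  rw [map_mul, map_pow, map_neg, map_one, mapL_res]

theorem mapL_surjective (f : B →+* B') (hf : Function.Surjective f) (x : Fin n → B)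
    (S : Finset (Fin n)) : Function.Surjective (mapL f x S) := by
  intro z
  obtain ⟨m, b, hb⟩ := exists_den (fun l => f (x l)) z
  obtain ⟨a, rfl⟩ := hf b
  obtain ⟨u, hu⟩ := (isUnit_prod x (subset_rfl : S ⊆ S)).pow m
  refine ⟨↑(u⁻¹) * algebraMap B (L x S) a, ?_⟩
  have hv : IsUnit (algebraMap B' (L (fun l => f (x l)) S) (∏ k ∈ S, f (x k)) ^ m) :=
    (isUnit_prod (fun l => f (x l)) subset_rfl).pow m
  refine hv.mul_left_cancel ?_
  rw [hb]
  have e1 : algebraMap B (L x S) (∏ k ∈ S, x k) ^ m * (↑(u⁻¹) * algebraMap B (L x S) a) =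
      algebraMap B (L x S) a := by
    rw [← hu, Units.mul_inv_cancel_left]
  have e2 := congrArg (mapL f x S) e1
  rw [map_mul, map_pow, mapL_algebraMap, mapL_algebraMap, map_prod f] at e2
  exact e2

theorem mapL_ker (x : Fin n → B) (z : B) (S : Finset (Fin n)) (y : L x S)
    (hy : mapL (Ideal.Quotient.mk (Ideal.span {z})) x S y = 0) : ∃ y' : L x S, y = z • y' := by
  obtain ⟨m, b, hb⟩ := exists_den x y
  have e1 := congrArg (mapL (Ideal.Quotient.mk (Ideal.span {z})) x S) hb
  rw [map_mul, hy, mul_zero, mapL_algebraMap, eq_comm, eq_zero_iff] at e1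
  obtain ⟨k, hk⟩ := e1
  rw [← map_prod, ← map_pow, ← map_mul, Ideal.Quotient.eq_zero_iff_mem,
    Ideal.mem_span_singleton] at hk
  obtain ⟨a, ha⟩ := hk
  obtain ⟨u, hu⟩ := (isUnit_prod x (subset_rfl : S ⊆ S)).pow (k + m)
  refine ⟨↑(u⁻¹) * algebraMap B (L x S) a, ?_⟩
  have e2 : (u : L x S) * y = z • algebraMap B (L x S) a := by
    rw [hu, Algebra.smul_def, ← map_mul, ← ha, map_mul, map_pow, ← hb]
    ring
  rw [← mul_smul_comm, ← e2, Units.inv_mul_cancel_left]

/-- division of a family by `z` modulo a boundary -/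
theorem exists_div (x : Fin n → B) (z : B) (u : Fam x)
    (hu : mapF (Ideal.Quotient.mk (Ideal.span {z})) x u = 0) :
    ∃ v : Fam x, (∀ S, u S = 0 → v S = 0) ∧ u = z • v := by
  classical
  have h1 : ∀ S, ∃ y : L x S, u S = z • y := fun S => mapL_ker x z S (u S) (congrFun hu S)
  choose v hv using h1
  refine ⟨fun S => if u S = 0 then 0 else v S, fun S hS => if_pos hS, ?_⟩
  funext S
  rw [Pi.smul_apply]
  by_cases h0 : u S = 0
  · simp only [h0, if_true, smul_zero]
  · simp only [h0, if_false]
    exact hv S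

theorem exists_liftF (x : Fin n → B) (f : B →+* B') (hf : Function.Surjective f)
    (e' : Fam (fun l => f (x l))) :
    ∃ e : Fam x, (∀ S, e' S = 0 → e S = 0) ∧ mapF f x e = e' := by
  classical
  have h1 : ∀ S, ∃ y : L x S, mapL f x S y = e' S := fun S => mapL_surjective f hf x S (e' S)
  choose v hv using h1
  refine ⟨fun S => if e' S = 0 then 0 else v S, fun S hS => if_pos hS, ?_⟩
  funext S
  unfold mapF
  by_cases h0 : e' S = 0
  · simp only [h0, if_true, map_zero]
  · simp only [h0, if_false]
    exact hv S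

end functor

theorem regQuot {B : Type} [CommRing B] {z : B} {zs : List B}
    (h : RingTheory.Sequence.IsWeaklyRegular B (z :: zs)) : IsSMulRegular B z ∧
    RingTheory.Sequence.IsWeaklyRegular (B ⧸ Ideal.span {z})
      (zs.map (Ideal.Quotient.mk (Ideal.span {z}))) := by
  rw [RingTheory.Sequence.isWeaklyRegular_cons_iff] at h
  refine ⟨h.1, ?_⟩
  have e : QuotSMulTop z B ≃ₗ[B] (B ⧸ Ideal.span {z}) :=
    Submodule.quotEquivOfEq _ _ (by
      ext b
      rw [Submodule.mem_smul_pointwise_iff_exists, Ideal.mem_span_singleton]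
      constructor
      · rintro ⟨a, -, rfl⟩
        exact ⟨a, rfl⟩
      · rintro ⟨a, rfl⟩
        exact ⟨a, Submodule.mem_top, rfl⟩)
  have h1 := (e.isWeaklyRegular_congr zs).1 h.2
  exact (RingTheory.Sequence.isWeaklyRegular_map_algebraMap_iff (B ⧸ Ideal.span {z}) _ zs).2 h1

theorem main (k : ℕ) : ∀ (B : Type) [CommRing B] (n : ℕ)
    (x : Fin n → B) (zs : List B), zs.length = k → RingTheory.Sequence.IsWeaklyRegular B zs →
    (∀ z ∈ zs, z ∈ (Ideal.span (Set.range x)).radical) → ∀ i < k, ∀ f : Fam x,
    Hom x i f → D x f = 0 → CoB x i f := by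
  induction k with
  | zero =>
    intro B _ n x zs _ _ _ i hi
    exact absurd hi (Nat.not_lt_zero i)
  | succ k ih =>
    intro B _ n x zs hlen hreg hrad i hi f hf hD
    match zs, hlen with
    | z :: zs, hlen =>
      obtain ⟨hz, hreg'⟩ := regQuot hreg
      let q : B →+* B ⧸ Ideal.span {z} := Ideal.Quotient.mk (Ideal.span {z})
      have hq : Function.Surjective q := Ideal.Quotient.mk_surjective
      have hqz : q z = 0 :=
        Ideal.Quotient.eq_zero_iff_mem.2 (Ideal.mem_span_singleton_self z)
      have hlen' : (zs.map q).length = k := by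
        rw [List.length_map]
        simpa using hlen
      have hrad' : ∀ w ∈ zs.map q,
          w ∈ (Ideal.span (Set.range fun l => q (x l))).radical := by
        intro w hw
        obtain ⟨v, hv, rfl⟩ := List.mem_map.1 hw
        obtain ⟨N, hN⟩ := hrad v (List.mem_cons_of_mem z hv)
        refine ⟨N, ?_⟩
        have h3 := Ideal.mem_map_of_mem q hN
        rw [Ideal.map_span, ← Set.range_comp, map_pow] at h3
        exact h3
      have key : ∀ g : Fam x, CoB x i (z • g) → CoB x i g := by
        rintro g ⟨a, ha, hag⟩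
        rcases Nat.eq_zero_or_pos i with rfl | hi0
        · have ha0 : a = 0 := funext fun S => ha S (Nat.succ_ne_zero _)
          have hz0 : z • g = 0 := by
            rw [← hag, ha0]
            have := D_smul x (0 : B) (0 : Fam x)
            simpa using this
          have hg0 : g = 0 := funext fun S => regL x hz (congrFun hz0 S)
          rw [hg0]
          exact CoB.zero x 0
        · obtain ⟨j, rfl⟩ : ∃ j, i = j + 1 := ⟨i - 1, by omega⟩
          have hmap : D (fun l => q (x l)) (mapF q x a) = 0 := by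
            rw [← mapF_D, hag]
            funext S
            change mapL q x S (z • g S) = 0
            rw [Algebra.smul_def, map_mul, mapL_algebraMap, hqz, map_zero, zero_mul]
          have hhom : Hom (fun l => q (x l)) j (mapF q x a) := by
            intro S hS
            change mapL q x S (a S) = 0
            rw [ha S (by omega), map_zero]
          obtain ⟨e', he', heD⟩ := ih (B ⧸ Ideal.span {z}) n (fun l => q (x l))
            (zs.map q) hlen' hreg' hrad' j (by omega) (mapF q x a) hhom hmap
          obtain ⟨e, he, hee⟩ := exists_liftF x q hq e'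
          have hu : mapF q x (a - D x e) = 0 := by
            have h3 : mapF q x (a - D x e) = mapF q x a - mapF q x (D x e) :=
              funext fun S => map_sub _ _ _
            rw [h3, mapF_D, hee, heD, sub_self]
          obtain ⟨v, hv, huv⟩ := exists_div x z _ hu
          refine ⟨v, fun S hS => hv S ?_, ?_⟩
          · rw [Pi.sub_apply, ha S hS, zero_sub, neg_eq_zero]
            refine Finset.sum_eq_zero fun l hl => ?_
            have hc := Finset.card_erase_add_one hl
            rw [he _ (he' _ (by omega)), map_zero, mul_zero]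
          · have h4 : z • (g - D x v) = 0 := by
              rw [smul_sub, ← D_smul, ← huv, D_sub, D_D, sub_zero, hag, sub_self]
            have h5 : g - D x v = 0 := funext fun S => regL x hz (congrFun h4 S)
            exact (sub_eq_zero.1 h5).symm
      obtain ⟨N, hN⟩ := radical_torsion x i f hf hD z (hrad z List.mem_cons_self)
      have key2 : ∀ N : ℕ, CoB x i (z ^ N • f) → CoB x i f := by
        intro N
        induction N with
        | zero => intro h; simpa using h
        | succ N ihN =>
          intro h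
          apply ihN
          apply key
          rwa [smul_smul, ← pow_succ']
      exact key2 N hN

/-! ### transfer -/

section transfer

variable {B : Type} [CommRing B] {n : ℕ}

theorem d_eq (x : Fin n → B) (i : ℕ) (c : Cochain x i) (f : Fam x)
    (hf : ∀ S : {S : Finset (Fin n) // S.card = i}, f S.1 = c S)
    (S : {S : Finset (Fin n) // S.card = i + 1}) : d x i c S = D x f S.1 := by
  unfold d D
  rw [← Finset.sum_coe_sort S.1]
  refine Finset.sum_congr rfl fun l _ => ?_
  rw [← hf (del S l)]
  rfl

end transfer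

theorem vanC : S_VanC := by
  classical
  intro B _ n x zs hreg hrad i hi c hc
  let f : Fam x := fun S => if h : S.card = i then c ⟨S, h⟩ else 0
  have hf : ∀ S : {S : Finset (Fin n) // S.card = i}, f S.1 = c S := fun S => dif_pos S.2
  have hhom : Hom x i f := fun S hS => dif_neg hS
  have hD : D x f = 0 := by
    funext S
    by_cases hS : S.card = i + 1
    · have h1 := d_eq x i c f hf ⟨S, hS⟩
      rw [hc] at h1
      exact h1.symm
    · refine Finset.sum_eq_zero fun l hl => ?_
      have hcard := Finset.card_erase_add_one hl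
      rw [hhom _ (by omega), map_zero, mul_zero]
  obtain ⟨g, hg, hgf⟩ := main zs.length B n x zs rfl hreg hrad i hi f hhom hD
  cases i with
  | zero =>
    change c = 0
    have hg0 : g = 0 := funext fun S => hg S (Nat.succ_ne_zero _)
    have h3 : f = 0 := by
      rw [← hgf, hg0]
      have := D_smul x (0 : B) (0 : Fam x)
      simpa using this
    funext S
    rw [← hf S, h3]
    rfl
  | succ j =>
    refine ⟨fun S => g S.1, ?_⟩
    funext S
    rw [d_eq x j (fun S => g S.1) g (fun _ => rfl) S, hgf, hf]

end Pool.Agent.KS6_68.BF.VanCx
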