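import Pool.Agent.KS6_68.BF.Split

/-! The heart of the argument at the vertex (compare the library module `H980R3.FR.TaskVertex`
for `p = 2`). -/

set_option autoImplicit false
set_option maxHeartbeats 400000

open MvPolynomial

namespace Pool.Agent.KS6_68.BF

attribute [-instance] ZMod.instField

section

variable {p : ℕ} {k : Type} [Field k]

theorem W1_Wc {z : D k} (hz : IsWeightedHomogeneous (W1 p) z 0) :
    IsWeightedHomogeneous (Wc p) z 0 := by
  intro m hm
  have h1 := hz hm
  rw [weight_three, W1_0, W1_1, W1_2, nsmul_eq_mul, nsmul_eq_mul, nsmul_eq_mul] at h1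
  rw [weight_three]
  have h2 := congrArg (ZMod.castHom (dvd_pow_self p two_ne_zero) (ZMod p)) h1
  simp only [map_add, map_mul, map_natCast, map_zero, map_one, map_sub, ZMod.natCast_self,
    mul_zero, zero_add, sub_zero, mul_one] at h2
  simpa [Wc] using h2

theorem E_mem_R [Fact p.Prime] {v : D k} (hv : IsWeightedHomogeneous (Wc p) v 0) :
    E p k v ∈ R p k := by
  have h := mem_of_class (b := (0 : ZMod p)) (B := v) (by rw [cl, if_pos rfl]; exact hv)
  rwa [Wd, if_pos rfl, mul_one] at h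

theorem E_homog_b (a : D k) : IsWeightedHomogeneous (Wb p) (E p k a) 0 := by
  intro m hm
  rw [weight_three]
  by_cases h : ∀ i, p ∣ m i
  · obtain ⟨c, hc⟩ := h 1
    rw [hc]
    simp [Wb]
  · push Not at h
    obtain ⟨i, hi⟩ := h
    exact absurd (coeff_expand_of_not_dvd a hi) hm

theorem class_split {e : ZMod p} (he : e ≠ 0) (f : D k) (hf : IsWeightedHomogeneous (Wc p) f e) :
    ∃ a b : D k, f = X 1 * a + X 2 * b := by
  have h : f ∈ Ideal.span ((X : Fin 3 → D k) '' {1, 2}) := by
    rw [mem_ideal_span_X_image]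
    intro m hm
    have h1 := hf (mem_support_iff.1 hm)
    by_contra hc
    push Not at hc
    have h2 : m 1 = 0 := hc 1 (by simp)
    have h3 : m 2 = 0 := hc 2 (by simp)
    rw [weight_three, h2, h3] at h1
    apply he
    rw [← h1]
    simp [Wc]
  rw [Set.image_pair, Ideal.mem_span_pair] at h
  obtain ⟨a, b, hab⟩ := h
  exact ⟨a, b, by rw [← hab]; ring⟩

theorem hWc_X1 : IsWeightedHomogeneous (Wc p) (X 1 : D k) 1 := isWeightedHomogeneous_X k (Wc p) 1
theorem hWc_X2 : IsWeightedHomogeneous (Wc p) (X 2 : D k) 1 := isWeightedHomogeneous_X k (Wc p) 2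

variable [Fact p.Prime]

/-- the elements of class `0` outside a prime of `R` -/
def MP (P : Ideal (R p k)) : Set (D k) :=
  {v | IsWeightedHomogeneous (Wc p) v 0 ∧ ∃ h : E p k v ∈ R p k, (⟨E p k v, h⟩ : R p k) ∉ P}

/-- the same as a submonoid -/
noncomputable def SP (P : Ideal (R p k)) [hP : P.IsPrime] : Submonoid (D k) where
  carrier := MP P
  one_mem' := by
    refine ⟨isWeightedHomogeneous_one k (Wc p), ?_, ?_⟩
    · rw [map_one]; exact one_mem _
    · intro h
      apply hP.ne_top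
      rw [Ideal.eq_top_iff_one]
      convert h using 1
      exact Subtype.ext (by simp)
  mul_mem' := by
    rintro a b ⟨ha, ha1, ha2⟩ ⟨hb, hb1, hb2⟩
    refine ⟨?_, ?_, ?_⟩
    · have := ha.mul hb
      rwa [add_zero] at this
    · rw [map_mul]; exact mul_mem ha1 hb1
    · intro h
      have h' : (⟨E p k a, ha1⟩ : R p k) * ⟨E p k b, hb1⟩ ∈ P := by
        convert h using 1
        exact Subtype.ext (by simp)
      rcases hP.mem_or_mem h' with h | h
      · exact ha2 h
      · exact hb2 h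

theorem mem_SP {P : Ideal (R p k)} [P.IsPrime] {v : D k} : v ∈ SP P ↔ v ∈ MP P := Iff.rfl

theorem SP_le (P : Ideal (R p k)) [P.IsPrime] : SP P ≤ nonZeroDivisors (D k) := by
  intro v hv
  rw [mem_nonZeroDivisors_iff_ne_zero]
  rintro rfl
  obtain ⟨_, h1, h2⟩ := mem_SP.1 hv
  apply h2
  convert P.zero_mem using 1
  exact Subtype.ext (by simp)

/-- Local vanishing of the first Koszul homology of `y` on `D`. -/
def H1loc (S : Submonoid (D k)) {n : ℕ} (y : Fin n → D k) : Prop :=
  ∀ c : Fin n → D k, ∑ l, y l * c l = 0 →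
    ∃ v ∈ S, ∃ t : Fin n → Fin n → D k, (∀ l, t l l = 0) ∧ (∀ l m, t l m = - t m l) ∧
      ∀ l, v * c l = ∑ m, y m * t l m

omit [Fact p.Prime] in
theorem double_sum {A : Type} [CommRing A] {n : ℕ} (f : Fin n → Fin n → A)
    (h0 : ∀ l, f l l = 0) (hs : ∀ l m, f l m = - f m l) : ∑ l, ∑ m, f l m = 0 := by
  classical
  rw [← Fintype.sum_prod_type' (f := f)]
  refine Finset.sum_involution (fun p _ => (p.2, p.1)) ?_ ?_ ?_ ?_
  · rintro ⟨l, m⟩ _
    show f l m + f m l = 0
    rw [hs m l, add_neg_cancel]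
  · rintro ⟨l, m⟩ _ h hc
    apply h
    have h1 : m = l := congrArg Prod.fst hc
    show f l m = 0
    rw [h1]
    exact h0 l
  · intros; simp
  · intros; simp

theorem V1 {S : Submonoid (D k)} (hS : ∀ v ∈ S, IsWeightedHomogeneous (Wc p) v 0) {n : ℕ}
    {y : Fin n → D k}
    (hy : ∀ l, IsWeightedHomogeneous (Wc p) (y l) 0) (hH : H1loc S y) {e : ZMod p}
    (he : e + 2 ≠ 0) {g : D k} (hg : IsWeightedHomogeneous (Wc p) g e) {v : D k} (hv : v ∈ S)
    (h1 : v * (X 1 * g) ∈ Ideal.span (Set.range y))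
    (h2 : v * (X 2 * g) ∈ Ideal.span (Set.range y)) :
    ∃ v' ∈ S, v' * g ∈ Ideal.span (Set.range y) := by
  classical
  have hgv1 : IsWeightedHomogeneous (Wc p) (v * (X 1 * g)) (0 + (1 + e)) :=
    (hS v hv).mul (hWc_X1.mul hg)
  have hgv2 : IsWeightedHomogeneous (Wc p) (v * (X 2 * g)) (0 + (1 + e)) :=
    (hS v hv).mul (hWc_X2.mul hg)
  obtain ⟨U, hU, hUs⟩ := mem_span_homog hy hgv1 h1
  obtain ⟨V, hV, hVs⟩ := mem_span_homog hy hgv2 h2
  -- the relation
  have hrel : ∑ l, y l * (X 2 * U l - X 1 * V l) = 0 := by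
    have e1 : ∑ l, y l * (X 2 * U l - X 1 * V l)
        = X 2 * ∑ l, y l * U l - X 1 * ∑ l, y l * V l := by
      rw [Finset.mul_sum, Finset.mul_sum, ← Finset.sum_sub_distrib]
      exact Finset.sum_congr rfl fun l _ => by ring
    rw [e1, ← hUs, ← hVs]
    ring
  obtain ⟨v2, hv2, t0, ht0, hts, htc⟩ := hH _ hrel
  have hcl : ∀ l, IsWeightedHomogeneous (Wc p) (v2 * (X 2 * U l - X 1 * V l)) (e + 2) := by
    intro l
    have h3 := (hS v2 hv2).mul ((hWc_X2.mul (hU l)).sub (hWc_X1.mul (hV l)))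
    have e1 : (0 : ZMod p) + (1 + (0 + (1 + e))) = e + 2 := by ring
    rwa [e1] at h3
  have htc1 : ∀ l, v2 * (X 2 * U l - X 1 * V l) = ∑ m, y m * cmp (Wc p) (e + 2) (t0 l m) := by
    intro l
    have h := congrArg (cmp (Wc p) (e + 2)) (htc l)
    rw [cmp_self (hcl l), map_sum] at h
    rw [h]
    exact Finset.sum_congr rfl fun m _ => cmp_mul' (hy m) _ _
  have hsp : ∀ l m, ∃ a b' : D k, cmp (Wc p) (e + 2) (t0 l m) = X 1 * a + X 2 * b' :=
    fun l m => class_split he _ (cmp_homog _ _)
  choose al be hab using hsp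
  -- antisymmetrise
  obtain ⟨al', hal'⟩ : ∃ al' : Fin n → Fin n → D k,
      al' = fun l m => if l < m then al l m else if m < l then - al m l else 0 := ⟨_, rfl⟩
  obtain ⟨be', hbe'⟩ : ∃ be' : Fin n → Fin n → D k,
      be' = fun l m => if l < m then be l m else if m < l then - be m l else 0 := ⟨_, rfl⟩
  have hbe0 : ∀ l, be' l l = 0 := fun l => by rw [hbe']; simp
  have hbes : ∀ l m, be' l m = - be' m l := by
    intro l m
    rw [hbe']
    rcases lt_trichotomy l m with h | h | h
    · simp [h, not_lt_of_gt h]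
    · simp [h]
    · simp [h, not_lt_of_gt h]
  have hsplit : ∀ l m, cmp (Wc p) (e + 2) (t0 l m) = X 1 * al' l m + X 2 * be' l m := by
    intro l m
    rw [hal', hbe']
    rcases lt_trichotomy l m with h | h | h
    · simp only [h, if_true]
      exact hab l m
    · subst h
      simp [ht0 l]
    · simp only [h, not_lt_of_gt h, if_true, if_false]
      rw [hts l m, map_neg, hab m l]
      ring
  have hdiv : ∀ l, ∃ u : D k, v2 * U l - ∑ m, y m * be' l m = X 1 * u := by
    intro l
    have e4 : X 2 * (v2 * U l - ∑ m, y m * be' l m)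
        = X 1 * (∑ m, y m * al' l m + v2 * V l) := by
      have e5 := htc1 l
      have e6 : ∑ m, y m * cmp (Wc p) (e + 2) (t0 l m)
          = X 1 * ∑ m, y m * al' l m + X 2 * ∑ m, y m * be' l m := by
        rw [Finset.mul_sum, Finset.mul_sum, ← Finset.sum_add_distrib]
        exact Finset.sum_congr rfl fun m _ => by rw [hsplit l m]; ring
      rw [e6] at e5
      linear_combination e5
    have hp : Prime (X 1 : D k) := X_prime
    have hd : (X 1 : D k) ∣ X 2 * (v2 * U l - ∑ m, y m * be' l m) := ⟨_, e4⟩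
    rcases hp.dvd_or_dvd hd with h | h
    · exfalso
      rw [X_dvd_X] at h
      exact absurd h (by decide)
    · exact h
  choose u hu using hdiv
  refine ⟨v2 * v, S.mul_mem hv2 hv, ?_⟩
  rw [mem_span_range']
  refine ⟨u, ?_⟩
  have hX : (X 1 : D k) ≠ 0 := X_prime.ne_zero
  apply mul_left_cancel₀ hX
  have e7 : X 1 * (v2 * v * g) = v2 * (v * (X 1 * g)) := by ring
  rw [e7, hUs, Finset.mul_sum, Finset.mul_sum]
  have e8 : ∀ l, v2 * (y l * U l) = X 1 * (y l * u l) + ∑ m, y l * y m * be' l m := by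
    intro l
    have e9 := hu l
    have e10 : ∑ m, y l * y m * be' l m = y l * ∑ m, y m * be' l m := by
      rw [Finset.mul_sum]
      exact Finset.sum_congr rfl fun m _ => by ring
    rw [e10]
    linear_combination y l * e9
  rw [Finset.sum_congr rfl fun l _ => e8 l, Finset.sum_add_distrib,
    double_sum (fun l m => y l * y m * be' l m) (fun l => by rw [hbe0 l, mul_zero])
      (fun l m => by rw [hbes l m]; ring), add_zero]

/-- common multipliers -/
theorem common {S : Submonoid (D k)} {ι : Type} [Fintype ι] (I : Ideal (D k))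
    (g : ι → D k) (h : ∀ i, ∃ v ∈ S, v * g i ∈ I) : ∃ v ∈ S, ∀ i, v * g i ∈ I := by
  classical
  choose v hv hvg using h
  refine ⟨∏ i, v i, S.prod_mem fun i _ => hv i, fun i => ?_⟩
  rw [← Finset.mul_prod_erase _ _ (Finset.mem_univ i)]
  have e' : (v i * ∏ j ∈ Finset.univ.erase i, v j) * g i =
      (∏ j ∈ Finset.univ.erase i, v j) * (v i * g i) := by ring
  rw [e']
  exact I.mul_mem_left _ (hvg i)

theorem V2 {S : Submonoid (D k)} (hS : ∀ v ∈ S, IsWeightedHomogeneous (Wc p) v 0) {n : ℕ}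
    {y : Fin n → D k}
    (hy : ∀ l, IsWeightedHomogeneous (Wc p) (y l) 0) (hH : H1loc S y) {b : D k}
    (hb : IsWeightedHomogeneous (Wc p) b (-1)) (j : ℕ) (hj : j < p) : ∀ v ∈ S,
    (∀ i ≤ j, v * (b * (X 1 ^ (j - i) * X 2 ^ i)) ∈ Ideal.span (Set.range y)) →
    ∃ v' ∈ S, v' * b ∈ Ideal.span (Set.range y) := by
  induction j with
  | zero =>
    intro v hv h
    refine ⟨v, hv, ?_⟩
    have := h 0 le_rfl
    simpa using this
  | succ j ih =>
    intro v hv h
    have h1 : ∀ i : Fin (j + 1), ∃ v' ∈ S,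
        v' * (b * (X 1 ^ (j - i) * X 2 ^ (i : ℕ))) ∈ Ideal.span (Set.range y) := by
      intro i
      have hi : (i : ℕ) ≤ j := Nat.lt_succ_iff.1 i.2
      have hg : IsWeightedHomogeneous (Wc p) (b * (X 1 ^ (j - i) * X 2 ^ (i : ℕ)) : D k)
          (-1 + j) := by
        have h3 := hb.mul ((hWc_X1.pow (j - i)).mul (hWc_X2.pow (i : ℕ)))
        have e : (-1 : ZMod p) + ((j - i) • (1 : ZMod p) + (i : ℕ) • (1 : ZMod p)) = -1 + j := by
          rw [nsmul_eq_mul, nsmul_eq_mul, Nat.cast_sub hi]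
          ring
        rwa [e] at h3
      refine V1 hS hy hH (e := -1 + j) ?_ hg hv ?_ ?_
      · intro h0
        have h4 : ((j + 1 : ℕ) : ZMod p) = 0 := by
          rw [← h0]; push_cast; ring
        rw [ZMod.natCast_eq_zero_iff] at h4
        exact absurd (Nat.le_of_dvd (Nat.succ_pos j) h4) (by omega)
      · have h5 := h i (by omega)
        have e : (j + 1 - i : ℕ) = (j - i) + 1 := by omega
        rw [e, pow_succ] at h5
        convert h5 using 2
        ring
      · have h5 := h (i + 1) (by omega)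
        have e : (j + 1 - (i + 1) : ℕ) = j - i := by omega
        rw [e, pow_succ (X 2 : D k)] at h5
        convert h5 using 2
        ring
    obtain ⟨v', hv', h2⟩ := common (Ideal.span (Set.range y))
      (fun i : Fin (j + 1) => b * (X 1 ^ (j - i) * X 2 ^ (i : ℕ))) h1
    exact ih (by omega) v' hv' fun i hi => h2 ⟨i, by omega⟩

variable [CharP k p]

theorem ww_sum (j : ℕ) : ww p k j = ∑ m ∈ Finset.range (j + 1),
    E p k ((j.choose m : D k) * (X 1 ^ (j - m) * X 2 ^ m)) *
      (X 0 ^ m * X 1 ^ j * X 2 ^ (p - j)) := by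
  have h1 : gam p k ^ j = ∑ m ∈ Finset.range (j + 1), (X 0 * X 2 ^ p) ^ m * (X 1 ^ p) ^ (j - m) *
      (j.choose m : D k) := by
    rw [gam, add_comm, add_pow]
  rw [ww, mul_pow, h1, Finset.mul_sum, Finset.sum_mul]
  refine Finset.sum_congr rfl fun m _ => ?_
  rw [map_mul, map_mul, map_pow, map_pow, map_natCast,
    show E p k (X 1) = X 1 ^ p from MvPolynomial.expand_X p 1,
    show E p k (X 2) = X 2 ^ p from MvPolynomial.expand_X p 2]
  ring

theorem X3_eq (a b c : ℕ) : (X 0 ^ a * X 1 ^ b * X 2 ^ c : D k) =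
    monomial (Finsupp.single 0 a + Finsupp.single 1 b + Finsupp.single 2 c) 1 := by
  rw [X_pow_eq_monomial, X_pow_eq_monomial, X_pow_eq_monomial, monomial_mul, monomial_mul,
    one_mul, one_mul]

theorem cc_ww {j i : ℕ} (hj0 : 0 < j) (hj : j < p) (hi : i ≤ j) :
    cc p k ![i, j, p - j] (ww p k j) = (j.choose i : D k) * (X 1 ^ (j - i) * X 2 ^ i) := by
  have hp : 0 < p := by omega
  rw [ww_sum, map_sum, Finset.sum_eq_single i]
  · rw [cc_mul hp, X3_eq, cc_mono, if_pos, mul_one]
    · intro l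
      fin_cases l <;> simp
    · intro l
      fin_cases l <;> simp <;> omega
  · intro m hm hmi
    rw [Finset.mem_range] at hm
    rw [cc_mul hp, X3_eq, cc_mono, if_neg, mul_zero]
    · intro h
      have := h 0
      simp at this
      exact hmi this
    · intro l
      fin_cases l <;> simp <;> omega
  · intro h
    exact absurd (Finset.mem_range.2 (by omega)) h

theorem KL {S : Submonoid (D k)} (hS : ∀ v ∈ S, IsWeightedHomogeneous (Wc p) v 0) {n : ℕ}
    {y : Fin n → D k}
    (hy : ∀ l, IsWeightedHomogeneous (Wc p) (y l) 0) (hH : H1loc S y) {x : D k}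
    (hx : x ∈ R p k) (hxy : x ∈ Ideal.span (Set.range fun l => E p k (y l))) :
    ∃ v ∈ S, ∃ c : Fin n → D k, (∀ l, c l ∈ R p k) ∧
      E p k v * x = ∑ l, E p k (y l) * c l := by
  have hp : 0 < p := (Fact.out : p.Prime).pos
  have hxK : x ∈ RK p k := by rw [← R_eq_RK]; exact hx
  choose B hB hBx using fun b : ZMod p => struct hxK b
  obtain ⟨d, hd⟩ := (mem_span_range' _ x).1 hxy
  have h1 : ∀ b : ZMod p, E p k (B b) * Wd p k b = ∑ l, E p k (y l) * cmp (Wb p) b (d l) := by
    intro b
    rw [← hBx, hd, map_sum]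
    exact Finset.sum_congr rfl fun l _ => cmp_mul' (E_homog_b _) b _
  have h2 : ∀ b : ZMod p, ∃ v ∈ S, v * B b ∈ Ideal.span (Set.range y) := by
    intro b
    by_cases hb : b = 0
    · refine ⟨1, S.one_mem, ?_⟩
      have h3 := congrArg (cc p k ![0, 0, 0]) (h1 b)
      rw [Wd, if_pos hb, cc_mul hp, cc_one hp, mul_one, map_sum] at h3
      rw [one_mul, h3, mem_span_range']
      exact ⟨fun l => cc p k ![0, 0, 0] (cmp (Wb p) b (d l)),
        Finset.sum_congr rfl fun l _ => cc_mul hp _ _ _⟩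
    · have hj : b.val < p := ZMod.val_lt b
      have hj0 : 0 < b.val := by
        rcases Nat.eq_zero_or_pos b.val with h | h
        · exact absurd ((ZMod.val_eq_zero b).1 h) hb
        · exact h
      have hBb := hB b
      rw [cl, if_neg hb] at hBb
      refine V2 hS hy hH hBb b.val hj 1 S.one_mem fun i hi => ?_
      have h3 := congrArg (cc p k ![i, b.val, p - b.val]) (h1 b)
      rw [Wd, if_neg hb, cc_mul hp, cc_ww hj0 hj hi, map_sum] at h3
      have h4 : B b * (((b.val.choose i : ℕ) : D k) * (X 1 ^ (b.val - i) * X 2 ^ i)) ∈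
          Ideal.span (Set.range y) := by
        rw [h3, mem_span_range']
        exact ⟨fun l => cc p k ![i, b.val, p - b.val] (cmp (Wb p) b (d l)),
          Finset.sum_congr rfl fun l _ => cc_mul hp _ _ _⟩
      have hu : ((b.val.choose i : ℕ) : k) ≠ 0 := by
        intro h0
        rw [CharP.cast_eq_zero_iff k p] at h0
        have h6 : p ∣ b.val.factorial := by
          rw [← Nat.choose_mul_factorial_mul_factorial hi]
          exact (h0.mul_right _).mul_right _
        rw [(Fact.out : p.Prime).dvd_factorial] at h6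
        omega
      have h5 := Ideal.mul_mem_left _ (C (((b.val.choose i : ℕ) : k)⁻¹)) h4
      have e : C (((b.val.choose i : ℕ) : k)⁻¹) * (B b * (((b.val.choose i : ℕ) : D k) *
          (X 1 ^ (b.val - i) * X 2 ^ i))) = B b * (X 1 ^ (b.val - i) * X 2 ^ i) := by
        have e1 : C (((b.val.choose i : ℕ) : k)⁻¹) * ((b.val.choose i : ℕ) : D k) = 1 := by
          rw [← map_natCast (C : k →+* D k), ← C_mul, inv_mul_cancel₀ hu, C_1]
        calc _ = (C (((b.val.choose i : ℕ) : k)⁻¹) * ((b.val.choose i : ℕ) : D k)) *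
            (B b * (X 1 ^ (b.val - i) * X 2 ^ i)) := by ring
          _ = _ := by rw [e1, one_mul]
      rw [e] at h5
      rwa [one_mul]
  obtain ⟨v, hv, hvB⟩ := common (Ideal.span (Set.range y)) B h2
  have h3 : ∀ b : ZMod p, ∃ β : Fin n → D k,
      (∀ l, IsWeightedHomogeneous (Wc p) (β l) (cl p b)) ∧ v * B b = ∑ l, y l * β l := by
    intro b
    have h4 := (hS v hv).mul (hB b)
    rw [zero_add] at h4
    exact mem_span_homog hy h4 (hvB b)
  choose β hβ hvβ using h3
  refine ⟨v, hv, fun l => ∑ b : ZMod p, E p k (β b l) * Wd p k b, fun l => ?_, ?_⟩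
  · exact sum_mem fun b _ => mem_of_class (hβ b l)
  · have h5 : x = ∑ b : ZMod p, E p k (B b) * Wd p k b := by
      conv_lhs => rw [← sum_cmp (w := Wb p) x]
      exact Finset.sum_congr rfl fun b _ => hBx b
    conv_lhs => rw [h5]
    simp only [Finset.mul_sum]
    rw [Finset.sum_comm]
    refine Finset.sum_congr rfl fun b _ => ?_
    rw [← mul_assoc, ← map_mul, hvβ, map_sum, Finset.sum_mul]
    refine Finset.sum_congr rfl fun l _ => ?_
    rw [map_mul, mul_assoc]

end

end Pool.Agent.KS6_68.BF
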