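import Pool.Agent.KS6_68.BF.Case2
import Pool.Agent.KS6_68.BF.FS

/-! Regular sequences and the primes at the vertex (compare the library modules
`H66R3.FR.ZsReg`, `H3R3.FR.ZsPrime`, `H503R3.FR.TaskZsDim_helper62` for `p = 2`). -/

set_option autoImplicit false
set_option maxHeartbeats 400000

open MvPolynomial

namespace Pool.Agent.KS6_68.BF

attribute [-instance] ZMod.instField

theorem wr {A : Type} [CommRing A] (rs : List A)
    (h : ∀ (i : ℕ) (hi : i < rs.length), ∀ a, rs[i] * a ∈ Ideal.ofList (rs.take i) →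
      a ∈ Ideal.ofList (rs.take i)) : RingTheory.Sequence.IsWeaklyRegular A rs := by
  refine ⟨fun i hi => ?_⟩
  rw [isSMulRegular_quotient_iff_mem_of_smul_mem]
  intro x hx
  rw [smul_eq_mul, Ideal.mul_top] at hx ⊢
  exact h i hi x hx

theorem wr2 {A : Type} [CommRing A] (x y : A)
    (h1 : ∀ a, x * a = 0 → a = 0) (h2 : ∀ a, y * a ∈ Ideal.span {x} → a ∈ Ideal.span {x}) :
    RingTheory.Sequence.IsWeaklyRegular A [x, y] := by
  apply wr
  intro i hi a ha
  match i, hi with
  | 0, _ =>
    simp only [List.take_zero, Ideal.ofList_nil, Ideal.mem_bot, List.getElem_cons_zero] at ha ⊢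
    exact h1 a ha
  | 1, _ =>
    simp only [List.take_succ_cons, List.take_zero, Ideal.ofList_singleton,
      List.getElem_cons_succ, List.getElem_cons_zero] at ha ⊢
    exact h2 a ha

theorem wr3 {A : Type} [CommRing A] (x y z : A)
    (h1 : ∀ a, x * a = 0 → a = 0) (h2 : ∀ a, y * a ∈ Ideal.span {x} → a ∈ Ideal.span {x})
    (h3 : ∀ a, z * a ∈ Ideal.span {x, y} → a ∈ Ideal.span {x, y}) :
    RingTheory.Sequence.IsWeaklyRegular A [x, y, z] := by
  apply wr
  intro i hi a ha
  match i, hi with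
  | 0, _ =>
    simp only [List.take_zero, Ideal.ofList_nil, Ideal.mem_bot, List.getElem_cons_zero] at ha ⊢
    exact h1 a ha
  | 1, _ =>
    simp only [List.take_succ_cons, List.take_zero, Ideal.ofList_singleton,
      List.getElem_cons_succ, List.getElem_cons_zero] at ha ⊢
    exact h2 a ha
  | 2, _ =>
    have e : Ideal.ofList [x, y] = Ideal.span {x, y} := by
      rw [Ideal.ofList_cons, Ideal.ofList_singleton, Ideal.span_insert]
    simp only [List.take_succ_cons, List.take_zero, e,
      List.getElem_cons_succ, List.getElem_cons_zero] at ha ⊢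
    exact h3 a ha

section D

variable {k : Type} [Field k]

/-- The polynomial `f(X 0)`. -/
noncomputable def polyX0 (f : Polynomial k) : D k := Polynomial.aeval (X 0 : D k) f

/-- only `X 0` occurs -/
def OnlyX0 (g : D k) : Prop := ∀ m ∈ g.support, m 1 = 0 ∧ m 2 = 0

def G2 (N : ℕ) (a : D k) : Prop := ∀ m ∈ a.support, N ≤ m 1 ∨ N ≤ m 2

theorem supp_add {T : (Fin 3 →₀ ℕ) → Prop} {a b : D k} (ha : ∀ m ∈ a.support, T m)
    (hb : ∀ m ∈ b.support, T m) : ∀ m ∈ (a + b).support, T m := by
  classical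
  intro m hm
  rcases Finset.mem_union.1 (MvPolynomial.support_add hm) with h | h
  · exact ha m h
  · exact hb m h

theorem supp_monomial {T : (Fin 3 →₀ ℕ) → Prop} {s : Fin 3 →₀ ℕ} (hs : T s) (c : k) :
    ∀ m ∈ (monomial s c : D k).support, T m := by
  intro m hm
  have h := MvPolynomial.support_monomial_subset hm
  rw [Finset.mem_singleton] at h
  rw [h]
  exact hs

theorem G2_iff (N : ℕ) (a : D k) : G2 N a ↔ a ∈ Ideal.span {(X 1 ^ N : D k), X 2 ^ N} := by
  have e : ({(X 1 ^ N : D k), X 2 ^ N} : Set (D k)) =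
      (fun s => monomial s (1 : k)) '' {Finsupp.single 1 N, Finsupp.single 2 N} := by
    rw [Set.image_pair, X_pow_eq_monomial, X_pow_eq_monomial]
  rw [e, mem_ideal_span_monomial_image]
  refine forall₂_congr fun m _ => ?_
  simp only [Set.mem_insert_iff, Set.mem_singleton_iff, exists_eq_or_imp, exists_eq_left,
    Finsupp.single_le_iff]

theorem G2_cancel {N : ℕ} (g a : D k) (hg0 : g ≠ 0) (hg : OnlyX0 g) (h : G2 N (g * a)) :
    G2 N a := by
  classical
  let a' : D k := ∑ m ∈ a.support.filter (fun m => m 1 < N ∧ m 2 < N), monomial m (coeff m a)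
  have hc : ∀ m, coeff m a' = if m 1 < N ∧ m 2 < N then coeff m a else 0 := by
    intro m
    change coeff m (∑ m ∈ a.support.filter (fun m => m 1 < N ∧ m 2 < N),
      monomial m (coeff m a)) = _
    rw [coeff_sum]
    simp only [coeff_monomial]
    rw [Finset.sum_ite_eq' _ m]
    by_cases h1 : m 1 < N ∧ m 2 < N
    · by_cases h2 : coeff m a = 0
      · simp [h2]
      · rw [if_pos (Finset.mem_filter.2 ⟨mem_support_iff.2 h2, h1⟩), if_pos h1]
    · have hh : m ∉ a.support.filter (fun m => m 1 < N ∧ m 2 < N) :=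
        fun hh => h1 (Finset.mem_filter.1 hh).2
      rw [if_neg hh, if_neg h1]
  have h0 : g * a' = 0 := by
    ext m
    rw [coeff_zero, coeff_mul]
    by_cases h1 : m 1 < N ∧ m 2 < N
    · have h2 : coeff m (g * a) = 0 := by
        by_contra h3
        rcases h m (mem_support_iff.2 h3) with h4 | h4 <;> omega
      rw [coeff_mul] at h2
      rw [← h2]
      refine Finset.sum_congr rfl fun x hx => ?_
      rw [hc]
      by_cases h3 : coeff x.1 g = 0
      · rw [h3, zero_mul, zero_mul]
      · have h4 := hg x.1 (mem_support_iff.2 h3)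
        have h5 := Finset.HasAntidiagonal.mem_antidiagonal.1 hx
        have h6 := DFunLike.congr_fun h5 1
        have h7 := DFunLike.congr_fun h5 2
        rw [Finsupp.add_apply] at h6 h7
        rw [if_pos (by omega)]
    · refine Finset.sum_eq_zero fun x hx => ?_
      rw [hc]
      by_cases h3 : coeff x.1 g = 0
      · rw [h3, zero_mul]
      · have h4 := hg x.1 (mem_support_iff.2 h3)
        have h5 := Finset.HasAntidiagonal.mem_antidiagonal.1 hx
        have h6 := DFunLike.congr_fun h5 1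
        have h7 := DFunLike.congr_fun h5 2
        rw [Finsupp.add_apply] at h6 h7
        rw [if_neg (by omega), mul_zero]
  have h1 : a' = 0 := (mul_eq_zero.1 h0).resolve_left hg0
  intro m hm
  by_contra h2
  push Not at h2
  have h3 := hc m
  rw [h1, coeff_zero, if_pos (by omega)] at h3
  exact mem_support_iff.1 hm h3.symm

theorem onlyX0_poly (f : Polynomial k) : OnlyX0 (polyX0 f) := by
  refine Polynomial.induction_on' f ?_ ?_
  · intro p q hp hq
    have e : polyX0 (p + q) = polyX0 p + polyX0 q := map_add _ _ _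
    rw [e]
    exact supp_add (T := fun m => m 1 = 0 ∧ m 2 = 0) hp hq
  · intro n c
    have e : polyX0 (Polynomial.monomial n c) = (monomial (Finsupp.single 0 n) c : D k) := by
      rw [polyX0, Polynomial.aeval_monomial, X_pow_eq_monomial, MvPolynomial.algebraMap_eq,
        C_mul_monomial, mul_one]
    rw [e]
    refine supp_monomial (T := fun m => m 1 = 0 ∧ m 2 = 0) ?_ _
    constructor
    · exact Finsupp.single_eq_of_ne (by decide)
    · exact Finsupp.single_eq_of_ne (by decide)

theorem poly_ne (f : Polynomial k) (hf : f ≠ 0) : polyX0 f ≠ 0 := by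
  intro h
  apply hf
  have h1 := congrArg (MvPolynomial.aeval (fun _ : Fin 3 => (Polynomial.X : Polynomial k))) h
  rw [map_zero, polyX0, ← Polynomial.aeval_algHom_apply, aeval_X,
    Polynomial.aeval_X_left_apply] at h1
  exact h1

theorem mem_span1 {A : Type} [CommRing A] (x a : A) : a ∈ Ideal.span {x} ↔ ∃ c, a = x * c := by
  rw [Ideal.mem_span_singleton]
  exact Iff.rfl

theorem mem_span2 {A : Type} [CommRing A] (x y a : A) :
    a ∈ Ideal.span {x, y} ↔ ∃ c d, a = x * c + y * d := by
  rw [Ideal.mem_span_pair]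
  constructor
  · rintro ⟨c, d, h⟩
    exact ⟨c, d, by rw [← h]; ring⟩
  · rintro ⟨c, d, h⟩
    exact ⟨c, d, by rw [h]; ring⟩

theorem X1_dvd {N M : ℕ} {z c : D k} (h : X 2 ^ M * z = X 1 ^ N * c) : X 1 ^ N ∣ z := by
  have h0 : ¬ (X 1 : D k) ∣ X 2 := by
    rw [X_dvd_X]
    decide
  have h1 : IsRelPrime (X 1 : D k) (X 2) :=
    (X_prime (R := k) (i := (1 : Fin 3))).irreducible.isRelPrime_iff_not_dvd.2 h0
  have h2 : (X 1 ^ N : D k) ∣ X 2 ^ M * z := ⟨c, h⟩
  exact (h1.pow (m := N) (n := M)).dvd_of_dvd_mul_left h2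

theorem regD2 (N : ℕ) : RingTheory.Sequence.IsWeaklyRegular (D k) [(X 1 ^ N : D k), X 2 ^ N] := by
  apply wr2
  · intro a ha
    exact (mul_eq_zero.1 ha).resolve_left (pow_ne_zero _ (X_ne_zero 1))
  · intro a ha
    rw [mem_span1] at ha
    obtain ⟨c, hc⟩ := ha
    rw [Ideal.mem_span_singleton]
    exact X1_dvd hc

theorem regD3 (N : ℕ) (f : Polynomial k) (hf : f ≠ 0) :
    RingTheory.Sequence.IsWeaklyRegular (D k) [(X 1 ^ N : D k), X 2 ^ N, polyX0 f] := by
  apply wr3
  · intro a ha
    exact (mul_eq_zero.1 ha).resolve_left (pow_ne_zero _ (X_ne_zero 1))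
  · intro a ha
    rw [mem_span1] at ha
    obtain ⟨c, hc⟩ := ha
    rw [Ideal.mem_span_singleton]
    exact X1_dvd hc
  · intro a ha
    rw [← G2_iff] at ha ⊢
    exact G2_cancel _ a (poly_ne f hf) (onlyX0_poly f) ha

end D

section R

variable {p : ℕ} [Fact p.Prime] {k : Type} [Field k]

theorem class_poly (f : Polynomial k) : IsWeightedHomogeneous (Wc p) (polyX0 f) 0 := by
  intro m hm
  have h := onlyX0_poly f m (mem_support_iff.2 hm)
  rw [weight_three, h.1, h.2]
  simp [Wc]

theorem E_poly (f : Polynomial k) : E p k (polyX0 f) = polyX0 (Polynomial.expand k p f) := by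
  unfold polyX0
  rw [← Polynomial.aeval_algHom_apply, show E p k (X 0) = X 0 ^ p from MvPolynomial.expand_X p 0,
    Polynomial.expand_aeval]

theorem EX1 : E p k (X 1 ^ p) = X 1 ^ p ^ 2 := by
  rw [map_pow, show E p k (X 1) = X 1 ^ p from MvPolynomial.expand_X p 1, ← pow_mul, pow_two]

theorem EX2 : E p k (X 2 ^ p) = X 2 ^ p ^ 2 := by
  rw [map_pow, show E p k (X 2) = X 2 ^ p from MvPolynomial.expand_X p 2, ← pow_mul, pow_two]

theorem uuE : (uu p k : D k) = E p k (X 1 ^ p) := EX1.symm
theorem vvE : (vv p k : D k) = E p k (X 2 ^ p) := EX2.symm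

theorem classX1 : IsWeightedHomogeneous (Wc p) (X 1 ^ p : D k) 0 := by
  have h := (hWc_X1 (p := p) (k := k)).pow p
  rwa [nsmul_eq_mul, ZMod.natCast_self, zero_mul] at h

theorem classX2 : IsWeightedHomogeneous (Wc p) (X 2 ^ p : D k) 0 := by
  have h := (hWc_X2 (p := p) (k := k)).pow p
  rwa [nsmul_eq_mul, ZMod.natCast_self, zero_mul] at h

theorem H1loc_bot : H1loc (⊥ : Submonoid (D k)) ![(X 1 ^ p : D k), X 2 ^ p] := by
  intro c hc
  obtain ⟨t, h1, h2, h3⟩ := KV.kv (D k) (D k) 2 ![(X 1 ^ p : D k), X 2 ^ p]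
    [(X 1 ^ p : D k), X 2 ^ p] (regD2 p) (by
      intro z hz
      apply Ideal.le_radical
      apply Ideal.subset_span
      simp only [List.mem_cons, List.not_mem_nil, or_false] at hz
      rcases hz with rfl | rfl
      · exact ⟨0, rfl⟩
      · exact ⟨1, rfl⟩) le_rfl c (by simpa only [smul_eq_mul] using hc)
  exact ⟨1, Submonoid.mem_bot.2 rfl, t, h1, h2, fun l => by
    rw [one_mul, h3 l]
    exact Finset.sum_congr rfl fun m _ => smul_eq_mul _ _⟩

variable [CharP k p]

/-- `(X 1 ^ (p ^ 2), X 2 ^ (p ^ 2)) D ∩ R = (uu, vv) R` -/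
theorem contract (z : R p k) (hz : (z : D k) ∈ Ideal.span {(X 1 ^ p ^ 2 : D k), X 2 ^ p ^ 2}) :
    z ∈ Ideal.span {uu p k, vv p k} := by
  have hy : ∀ l : Fin 2, IsWeightedHomogeneous (Wc p) (![(X 1 ^ p : D k), X 2 ^ p] l) 0 := by
    intro l
    fin_cases l
    · exact classX1
    · exact classX2
  have hrange : Set.range (fun l : Fin 2 => E p k (![(X 1 ^ p : D k), X 2 ^ p] l)) =
      {(X 1 ^ p ^ 2 : D k), X 2 ^ p ^ 2} := by
    rw [← EX1, ← EX2]
    ext w
    simp only [Set.mem_range, Fin.exists_fin_two, Set.mem_insert_iff, Set.mem_singleton_iff]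
    simp [eq_comm]
  obtain ⟨v, hv, c, hcR, hc⟩ := KL (S := (⊥ : Submonoid (D k)))
    (fun v hv => by rw [Submonoid.mem_bot.1 hv]; exact isWeightedHomogeneous_one k (Wc p))
    hy H1loc_bot z.2 (by rw [hrange]; exact hz)
  rw [Submonoid.mem_bot.1 hv, map_one, one_mul, Fin.sum_univ_two] at hc
  rw [mem_span2]
  refine ⟨⟨c 0, hcR 0⟩, ⟨c 1, hcR 1⟩, ?_⟩
  apply Subtype.ext
  rw [hc]
  simp only [Subalgebra.coe_add, Subalgebra.coe_mul, uuE, vvE]
  rfl

theorem uu_ne : (uu p k : D k) ≠ 0 := pow_ne_zero _ (X_ne_zero 1)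
theorem vv_ne : (vv p k : D k) ≠ 0 := pow_ne_zero _ (X_ne_zero 2)

theorem regR1 (a : R p k) (h : uu p k * a = 0) : a = 0 := by
  apply Subtype.ext
  have h1 := congrArg Subtype.val h
  exact (mul_eq_zero.1 h1).resolve_left uu_ne

theorem regR2 (a : R p k) (h : vv p k * a ∈ Ideal.span {uu p k}) : a ∈ Ideal.span {uu p k} := by
  rw [mem_span1] at h ⊢
  obtain ⟨c, hc⟩ := h
  have h1 := congrArg Subtype.val hc
  change (X 2 ^ p ^ 2 : D k) * (a : D k) = X 1 ^ p ^ 2 * (c : D k) at h1
  obtain ⟨d, hd⟩ := X1_dvd h1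
  have hdR : d ∈ R p k := R_div (uu p k).2 uu_ne (by
    change (X 1 ^ p ^ 2 : D k) * d ∈ R p k
    rw [← hd]
    exact a.2)
  exact ⟨⟨d, hdR⟩, Subtype.ext hd⟩

theorem regR3 (f : Polynomial k) (hf : f ≠ 0) (h : E p k (polyX0 f) ∈ R p k) (a : R p k)
    (ha : (⟨E p k (polyX0 f), h⟩ : R p k) * a ∈ Ideal.span {uu p k, vv p k}) :
    a ∈ Ideal.span {uu p k, vv p k} := by
  apply contract
  rw [← G2_iff]
  apply G2_cancel (E p k (polyX0 f))
  · rw [E_poly]
    apply poly_ne
    intro h0
    exact hf ((Polynomial.expand_eq_zero (Fact.out : p.Prime).pos).1 h0)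
  · rw [E_poly]
    exact onlyX0_poly _
  · rw [G2_iff, mem_span2]
    rw [mem_span2] at ha
    obtain ⟨c, d, hcd⟩ := ha
    exact ⟨c, d, congrArg Subtype.val hcd⟩

theorem regR : RingTheory.Sequence.IsWeaklyRegular (R p k) [uu p k, vv p k] :=
  wr2 _ _ regR1 regR2

theorem regRf (f : Polynomial k) (hf : f ≠ 0) (h : E p k (polyX0 f) ∈ R p k) :
    RingTheory.Sequence.IsWeaklyRegular (R p k) [uu p k, vv p k, ⟨E p k (polyX0 f), h⟩] :=
  wr3 _ _ _ regR1 regR2 (regR3 f hf h)

/-! ### primes -/

/-- evaluation of a polynomial at `tt` has value `E (f (X 0))`. -/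
theorem coe_aeval (f : Polynomial k) :
    ((Polynomial.aeval (tt p k) f : R p k) : D k) = E p k (polyX0 f) := by
  have h1 : ((Polynomial.aeval (tt p k) f : R p k) : D k)
      = Polynomial.aeval ((tt p k : R p k) : D k) f := by
    have := Polynomial.aeval_algHom_apply (R p k).val (tt p k) f
    simpa using this.symm
  have h2 : E p k (polyX0 f) = Polynomial.aeval (E p k (X 0 : D k)) f := by
    unfold polyX0
    exact (Polynomial.aeval_algHom_apply (E p k) (X 0 : D k) f).symm
  rw [h1, h2, show E p k (X 0) = X 0 ^ p from MvPolynomial.expand_X p 0]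
  rfl

theorem rad_of_dvd {i : Fin 3} (s : R p k)
    (hs : (s : D k) = X i ^ p ^ 2) {ρ : R p k} (h : X i ∣ (ρ : D k)) :
    ρ ^ p ^ 2 ∈ Ideal.span {s} := by
  obtain ⟨d, hd⟩ := h
  have hX : (X i : D k) ^ p ^ 2 ≠ 0 := pow_ne_zero _ (X_ne_zero i)
  have h1 : d ^ p ^ 2 ∈ R p k := by
    refine R_div (s := X i ^ p ^ 2) (by rw [← hs]; exact s.2) hX ?_
    rw [← mul_pow, ← hd]
    exact pow_mem ρ.2 _
  rw [mem_span1]
  refine ⟨⟨d ^ p ^ 2, h1⟩, ?_⟩
  apply Subtype.ext
  rw [Subalgebra.coe_mul, Subalgebra.coe_pow, hs, hd, mul_pow]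

theorem gen_dvd (j i : Fin p) : X 2 ∣ gen p k (Sum.inr (j, i)) := by
  change X 2 ∣ ww p k j * (X 1 ^ (p * i) * X 2 ^ (p * (p - 1 - i)))
  have hj := j.2
  have e : (p - j : ℕ) = (p - 1 - j) + 1 := by omega
  rw [ww, e, pow_succ]
  exact Dvd.intro_left ((X 1 * gam p k) ^ (j : ℕ) * X 2 ^ (p - 1 - j : ℕ) *
    (X 1 ^ (p * i) * X 2 ^ (p * (p - 1 - i)))) (by ring)

theorem exists_poly (z : R p k) : ∃ f : Polynomial k,
    z - Polynomial.aeval (tt p k) f ∈ (Ideal.span {uu p k, vv p k}).radical := by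
  have hu : uu p k ∈ Ideal.span {uu p k, vv p k} := Ideal.subset_span (by simp)
  have hv : Ideal.span {vv p k} ≤ Ideal.span {uu p k, vv p k} :=
    Ideal.span_mono (by simp)
  obtain ⟨z, hz⟩ := z
  induction hz using Algebra.adjoin_induction with
  | mem x hx =>
    obtain ⟨i, rfl⟩ := hx
    rcases i with i | ⟨j, i⟩
    · fin_cases i
      · refine ⟨Polynomial.X, ?_⟩
        rw [Polynomial.aeval_X]
        have : (⟨gen p k (Sum.inl 0), Algebra.subset_adjoin ⟨_, rfl⟩⟩ : R p k) - tt p k = 0 :=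
          sub_self (tt p k)
        exact this ▸ Ideal.zero_mem _
      · refine ⟨0, ?_⟩
        rw [map_zero, sub_zero]
        exact Ideal.le_radical hu
    · refine ⟨0, ?_⟩
      rw [map_zero, sub_zero]
      exact ⟨p ^ 2, hv (rad_of_dvd (vv p k) rfl (gen_dvd j i))⟩
  | algebraMap c =>
    refine ⟨Polynomial.C c, ?_⟩
    rw [Polynomial.aeval_C]
    have : (⟨algebraMap k (D k) c, (R p k).algebraMap_mem c⟩ : R p k) -
      algebraMap k (R p k) c = 0 := sub_self _
    exact this ▸ Ideal.zero_mem _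
  | add x y hx hy ihx ihy =>
    obtain ⟨f, hf⟩ := ihx
    obtain ⟨g, hg⟩ := ihy
    refine ⟨f + g, ?_⟩
    rw [map_add]
    have := Ideal.add_mem _ hf hg
    convert this using 1
    have h : (⟨x + y, add_mem hx hy⟩ : R p k) = ⟨x, hx⟩ + ⟨y, hy⟩ := rfl
    rw [h]
    ring
  | mul x y hx hy ihx ihy =>
    obtain ⟨f, hf⟩ := ihx
    obtain ⟨g, hg⟩ := ihy
    refine ⟨f * g, ?_⟩
    rw [map_mul]
    have := Ideal.add_mem _ (Ideal.mul_mem_left _ (⟨x, hx⟩ : R p k) hg)
      (Ideal.mul_mem_left _ (Polynomial.aeval (tt p k) g) hf)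
    convert this using 1
    have h : (⟨x * y, mul_mem hx hy⟩ : R p k) = ⟨x, hx⟩ * ⟨y, hy⟩ := rfl
    rw [h]
    ring

theorem zsPrime (P : Ideal (R p k)) [hP : P.IsPrime] (h1 : uu p k ∈ P) (h3 : vv p k ∈ P) :
    P ≤ (Ideal.span {uu p k, vv p k}).radical ∨
    ∃ f : Polynomial k, f ≠ 0 ∧ ∃ h : E p k (polyX0 f) ∈ R p k,
      (⟨E p k (polyX0 f), h⟩ : R p k) ∈ P ∧
      P ≤ (Ideal.span {uu p k, vv p k, ⟨E p k (polyX0 f), h⟩}).radical := by
  have hspan : Ideal.span {uu p k, vv p k} ≤ P := by
    rw [Ideal.span_le]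
    intro x hx
    rcases hx with rfl | hx
    · exact h1
    · rw [Set.mem_singleton_iff] at hx
      rw [hx]
      exact h3
  have hJ : (Ideal.span {uu p k, vv p k}).radical ≤ P := by
    have := Ideal.radical_mono hspan
    rwa [hP.radical] at this
  let φ : Polynomial k →ₐ[k] R p k := Polynomial.aeval (tt p k)
  let Q : Ideal (Polynomial k) := P.comap φ
  by_cases hQ : Q = ⊥
  · left
    intro z hz
    obtain ⟨f, hf⟩ := exists_poly z
    have hfP : Polynomial.aeval (tt p k) f ∈ P := by
      have := P.sub_mem hz (hJ hf)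
      simpa using this
    have hfQ : f ∈ Q := hfP
    rw [hQ, Ideal.mem_bot] at hfQ
    rw [hfQ, map_zero, sub_zero] at hf
    exact hf
  · right
    have hg : Ideal.span {Submodule.IsPrincipal.generator Q} = Q := Ideal.span_singleton_generator Q
    set g := Submodule.IsPrincipal.generator Q with hgdef
    have hg0 : g ≠ 0 := by
      intro h
      apply hQ
      rw [← hg, h]
      simp
    have hmem : E p k (polyX0 g) ∈ R p k := by
      rw [← coe_aeval]
      exact (Polynomial.aeval (tt p k) g : R p k).2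
    have heq : (⟨E p k (polyX0 g), hmem⟩ : R p k) = Polynomial.aeval (tt p k) g :=
      Subtype.ext (coe_aeval g).symm
    refine ⟨g, hg0, hmem, ?_, ?_⟩
    · rw [heq]
      have : g ∈ Q := Submodule.IsPrincipal.generator_mem Q
      exact this
    · rw [heq]
      intro z hz
      obtain ⟨f, hf⟩ := exists_poly z
      have hfP : Polynomial.aeval (tt p k) f ∈ P := by
        have := P.sub_mem hz (hJ hf)
        simpa using this
      have hfQ : f ∈ Q := hfP
      rw [← hg, Ideal.mem_span_singleton] at hfQ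
      obtain ⟨q, rfl⟩ := hfQ
      have hle : (Ideal.span {uu p k, vv p k}).radical ≤
          (Ideal.span {uu p k, vv p k, Polynomial.aeval (tt p k) g}).radical := by
        apply Ideal.radical_mono
        apply Ideal.span_mono
        intro x hx
        rcases hx with rfl | hx
        · simp
        · rw [Set.mem_singleton_iff] at hx
          simp [hx]
      have h4 : Polynomial.aeval (tt p k) (g * q) ∈
          (Ideal.span {uu p k, vv p k, Polynomial.aeval (tt p k) g}).radical := by
        apply Ideal.le_radical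
        rw [map_mul]
        apply Ideal.mul_mem_right
        exact Ideal.subset_span (by simp)
      have := Ideal.add_mem _ (hle hf) h4
      simpa using this

/-! ### dimension -/

omit [Fact p.Prime] [CharP k p] in
theorem noethR : IsNoetherianRing (R p k) := by
  have h1 : (R p k).FG := by
    have := Subalgebra.fg_adjoin_finset (R := k) (Set.finite_range (gen p k)).toFinset
    rwa [Set.Finite.coe_toFinset] at this
  have h2 : Algebra.FiniteType k (R p k) := (Subalgebra.fg_iff_finiteType _).1 h1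
  exact Algebra.FiniteType.isNoetherianRing k (R p k)

omit [Fact p.Prime] [CharP k p] in
theorem dim_le {A : Type} [CommRing A] [IsNoetherianRing A] (P : Ideal A) [hP : P.IsPrime]
    (s : Finset A) (n : ℕ) (hs : s.card ≤ n) (h1 : ∀ z ∈ s, z ∈ P)
    (h2 : P ≤ (Ideal.span (s : Set A)).radical) :
    ringKrullDim (Localization.AtPrime P) ≤ (n : WithBot ℕ∞) := by
  rw [IsLocalization.AtPrime.ringKrullDim_eq_height P (Localization.AtPrime P)]
  have hmin : P ∈ (Ideal.span (s : Set A)).minimalPrimes := by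
    refine ⟨⟨hP, Ideal.span_le.2 h1⟩, ?_⟩
    rintro Q ⟨hQ, hQ2⟩ _
    exact h2.trans (hQ.radical_le_iff.2 hQ2)
  have := Ideal.height_le_card_of_mem_minimalPrimes_span_finset hmin
  have h3 : P.height ≤ (n : ℕ∞) := this.trans (by exact_mod_cast hs)
  exact_mod_cast h3

theorem vertex [IsAlgClosed k] (P : Ideal (R p k)) [hP : P.IsPrime] (h1 : uu p k ∈ P)
    (h3 : vv p k ∈ P) : FInjectiveLocal p (Localization.AtPrime P) := by
  classical
  have := noethR (p := p) (k := k)
  rcases zsPrime P h1 h3 with h | ⟨f, hf, hmem, hin, hle⟩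
  · refine case2 P [X 1 ^ p, X 2 ^ p] [uu p k, vv p k] (regD2 p) ?_ regR ?_ ?_
    · simp only [List.map_cons, List.map_nil]
      rw [uuE, vvE]
    · intro z hz
      simp only [List.mem_cons, List.not_mem_nil, or_false] at hz
      rcases hz with rfl | rfl
      · exact h1
      · exact h3
    · refine dim_le P {uu p k, vv p k} _ (Finset.card_le_two) ?_ ?_
      · intro z hz
        simp only [Finset.mem_insert, Finset.mem_singleton] at hz
        rcases hz with rfl | rfl
        · exact h1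
        · exact h3
      · simpa using h
  · refine case2 P [X 1 ^ p, X 2 ^ p, polyX0 f] [uu p k, vv p k, ⟨E p k (polyX0 f), hmem⟩]
      (regD3 p f hf) ?_ (regRf f hf hmem) ?_ ?_
    · simp only [List.map_cons, List.map_nil]
      rw [uuE, vvE]
    · intro z hz
      simp only [List.mem_cons, List.not_mem_nil, or_false] at hz
      rcases hz with rfl | rfl | rfl
      · exact h1
      · exact h3
      · exact hin
    · refine dim_le P {uu p k, vv p k, ⟨E p k (polyX0 f), hmem⟩} _ (Finset.card_le_three) ?_ ?_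
      · intro z hz
        simp only [Finset.mem_insert, Finset.mem_singleton] at hz
        rcases hz with rfl | rfl | rfl
        · exact h1
        · exact h3
        · exact hin
      · simpa using hle

/-- the ring `R p k` is F-injective -/
theorem fInjective [IsAlgClosed k] : FInjective p (R p k) := by
  intro P hP
  have hpp : p.Prime := Fact.out
  have hcharR : CharP (R p k) p := charP_of_injective_algebraMap
    (algebraMap k (R p k)).injective p
  by_cases h : uu p k ∈ P ∧ vv p k ∈ P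
  · exact vertex P h.1 h.2
  · obtain ⟨φ, hφ⟩ := split P (by tauto)
    have hpB : (p : Localization.AtPrime P) = 0 := by
      rw [← map_natCast (algebraMap (R p k) (Localization.AtPrime P)), CharP.cast_eq_zero,
        map_zero]
    have hcharB : CharP (Localization.AtPrime P) p := by
      obtain ⟨q, hq⟩ := CharP.exists (Localization.AtPrime P)
      have h1 : q ∣ p := (CharP.cast_eq_zero_iff (Localization.AtPrime P) q p).1 hpB
      rcases (Nat.dvd_prime hpp).1 h1 with h | h
      · exfalso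
        subst h
        have h2 : ((1 : ℕ) : Localization.AtPrime P) = 0 :=
          (CharP.cast_eq_zero_iff (Localization.AtPrime P) 1 1).2 (dvd_refl 1)
        rw [Nat.cast_one] at h2
        exact one_ne_zero h2
      · rwa [h] at hq
    exact TaskFS.fs p (Localization.AtPrime P) φ hφ

end R

end Pool.Agent.KS6_68.BF
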